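import Pool.Agent.W651.SO.Stm

set_option autoImplicit false

/-!
# Union of a chain without largest element
-/

namespace Pool.Agent.W651.SO

open Set

namespace CHN

variable {Y : Type} {c : Set (Set Y × (Y → Y → Prop))}

lemma sub_uset {P : Set Y × (Y → Y → Prop)} (hP : P ∈ c) : P.1 ⊆ USet c := fun _ hx => ⟨P, hP, hx⟩

lemma comp (hch : ∀ P ∈ c, ∀ Q ∈ c, Ext P Q ∨ Ext Q P) {P Q : Set Y × (Y → Y → Prop)}
    (hP : P ∈ c) (hQ : Q ∈ c) {x y : Y} (hx : x ∈ P.1) (hy : y ∈ P.1) (hx' : x ∈ Q.1)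
    (hy' : y ∈ Q.1) : P.2 x y ↔ Q.2 x y := by
  rcases hch P hP Q hQ with h | h
  · exact h.2.1 x hx y hy
  · exact (h.2.1 x hx' y hy').symm

lemma urel (hch : ∀ P ∈ c, ∀ Q ∈ c, Ext P Q ∨ Ext Q P) {P : Set Y × (Y → Y → Prop)}
    (hP : P ∈ c) {x y : Y} (hx : x ∈ P.1) (hy : y ∈ P.1) : URel c x y ↔ P.2 x y := by
  constructor
  · rintro ⟨Q, hQ, hx', hy', h⟩
    exact (comp hch hP hQ hx hy hx' hy').2 h
  · intro h
    exact ⟨P, hP, hx, hy, h⟩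

lemma dir (hch : ∀ P ∈ c, ∀ Q ∈ c, Ext P Q ∨ Ext Q P) {x y : Y} (hx : x ∈ USet c)
    (hy : y ∈ USet c) : ∃ R ∈ c, x ∈ R.1 ∧ y ∈ R.1 := by
  obtain ⟨P, hP, hxP⟩ := hx
  obtain ⟨Q, hQ, hyQ⟩ := hy
  rcases hch P hP Q hQ with h | h
  · exact ⟨Q, hQ, h.1 hxP, hyQ⟩
  · exact ⟨P, hP, hxP, h.1 hyQ⟩

lemma dir3 (hch : ∀ P ∈ c, ∀ Q ∈ c, Ext P Q ∨ Ext Q P) {x y z : Y} (hx : x ∈ USet c)
    (hy : y ∈ USet c) (hz : z ∈ USet c) : ∃ R ∈ c, x ∈ R.1 ∧ y ∈ R.1 ∧ z ∈ R.1 := by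
  obtain ⟨P, hP, hxP, hyP⟩ := dir hch hx hy
  obtain ⟨Q, hQ, hzQ⟩ := hz
  rcases hch P hP Q hQ with h | h
  · exact ⟨Q, hQ, h.1 hxP, h.1 hyP, hzQ⟩
  · exact ⟨P, hP, hxP, hyP, h.1 hzQ⟩

lemma above (hch : ∀ P ∈ c, ∀ Q ∈ c, Ext P Q ∨ Ext Q P) {P : Set Y × (Y → Y → Prop)}
    (hP : P ∈ c) {x y : Y} (hx : x ∈ P.1) (hy : y ∈ USet c) (hyP : y ∉ P.1) : URel c x y := by
  obtain ⟨Q, hQ, hyQ⟩ := hy
  rcases hch P hP Q hQ with h | h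
  · exact ⟨Q, hQ, h.1 hx, hyQ, h.2.2 x hx y hyQ hyP⟩
  · exact absurd (h.1 hyQ) hyP

lemma bigger (hch : ∀ P ∈ c, ∀ Q ∈ c, Ext P Q ∨ Ext Q P) (hne : ∀ P ∈ c, P.1 ≠ USet c)
    {P : Set Y × (Y → Y → Prop)} (hP : P ∈ c) :
    ∃ Q ∈ c, P.1 ⊆ Q.1 ∧ ∃ y ∈ Q.1, y ∉ P.1 := by
  have h : ∃ y ∈ USet c, y ∉ P.1 := by
    by_contra hcon
    push Not at hcon
    exact hne P hP (Subset.antisymm (sub_uset hP) hcon)
  obtain ⟨y, ⟨Q, hQ, hyQ⟩, hyP⟩ := h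
  rcases hch P hP Q hQ with h | h
  · exact ⟨Q, hQ, h.1, y, hyQ, hyP⟩
  · exact absurd (h.1 hyQ) hyP

end CHN

open CHN

theorem chn : PropCHN := by
  intro Y _ c hO hch hne
  have hir : ∀ x ∈ USet c, ¬ URel c x x := by
    rintro x ⟨P, hP, hx⟩ h
    exact (hO P hP).2.irrefl x hx ((urel hch hP hx hx).1 h)
  have htr : ∀ x ∈ USet c, ∀ y ∈ USet c, ∀ z ∈ USet c, URel c x y → URel c y z → URel c x z := by
    intro x hx y hy z hz h1 h2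
    obtain ⟨R, hR, hxR, hyR, hzR⟩ := dir3 hch hx hy hz
    rw [urel hch hR hxR hyR] at h1
    rw [urel hch hR hyR hzR] at h2
    rw [urel hch hR hxR hzR]
    exact (hO R hR).2.trans x hxR y hyR z hzR h1 h2
  have hbelow : ∀ P ∈ c, ∀ x ∈ P.1, ∀ z ∈ USet c, URel c z x → z ∈ P.1 := by
    intro P hP x hx z hz h
    by_contra hzP
    have h2 := above hch hP hx hz hzP
    exact hir z hz (htr z hz x (sub_uset hP hx) z hz h h2)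
  refine ⟨⟨hir, htr, ?_, ?_, ?_, ?_, ?_⟩, ?_⟩
  · intro x hx y hy hxy
    obtain ⟨R, hR, hxR, hyR⟩ := dir hch hx hy
    rw [urel hch hR hxR hyR, urel hch hR hyR hxR]
    exact (hO R hR).2.total x hxR y hyR hxy
  · intro x hx y hy h
    obtain ⟨R, hR, hxR, hyR⟩ := dir hch hx hy
    rw [urel hch hR hyR hxR] at h
    obtain ⟨O, hOo, hyO, hOz⟩ := (hO R hR).2.lower x hxR y hyR h
    refine ⟨O ∩ R.1, hOo.inter (hO R hR).1, ⟨hyO, hyR⟩, ?_⟩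
    rintro z ⟨hzO, hzR⟩ -
    rw [urel hch hR hzR hxR]
    exact hOz z hzO hzR
  · intro x hx y hy h
    obtain ⟨R, hR, hxR, hyR⟩ := dir hch hx hy
    rw [urel hch hR hxR hyR] at h
    obtain ⟨O, hOo, hyO, hOz⟩ := (hO R hR).2.upper x hxR y hyR h
    refine ⟨O ∩ R.1, hOo.inter (hO R hR).1, ⟨hyO, hyR⟩, ?_⟩
    rintro z ⟨hzO, hzR⟩ -
    rw [urel hch hR hxR hzR]
    exact hOz z hzO hzR
  · rintro x ⟨P, hP, hxP⟩ O hOo hxO
    rcases (hO P hP).2.left x hxP O hOo hxO with ⟨a, ha, hax, hz⟩ | hz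
    · left
      refine ⟨a, sub_uset hP ha, (urel hch hP ha hxP).2 hax, ?_⟩
      intro z hzU h1 h2
      have hzP := hbelow P hP x hxP z hzU h2
      exact hz z hzP ((urel hch hP ha hzP).1 h1) ((urel hch hP hzP hxP).1 h2)
    · right
      intro z hzU h2
      have hzP := hbelow P hP x hxP z hzU h2
      exact hz z hzP ((urel hch hP hzP hxP).1 h2)
  · rintro x ⟨P, hP, hxP⟩ O hOo hxO
    left
    obtain ⟨Q, hQ, hPQ, y, hyQ, hyP⟩ := bigger hch hne hP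
    have hxQ := hPQ hxP
    rcases (hO Q hQ).2.right x hxQ O hOo hxO with ⟨b, hb, hxb, hz⟩ | hz
    · refine ⟨b, sub_uset hQ hb, (urel hch hQ hxQ hb).2 hxb, ?_⟩
      intro z hzU h1 h2
      have hzQ := hbelow Q hQ b hb z hzU h2
      exact hz z hzQ ((urel hch hQ hxQ hzQ).1 h1) ((urel hch hQ hzQ hb).1 h2)
    · refine ⟨y, sub_uset hQ hyQ, above hch hP hxP (sub_uset hQ hyQ) hyP, ?_⟩
      intro z hzU h1 h2
      have hzQ := hbelow Q hQ y hyQ z hzU h2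
      exact hz z hzQ ((urel hch hQ hxQ hzQ).1 h1)
  · intro P hP
    refine ⟨sub_uset hP, fun x hx y hy => (urel hch hP hx hy).symm, ?_⟩
    intro x hx y hy hyP
    exact above hch hP hx hy hyP

end Pool.Agent.W651.SO
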