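import Pool.Agent.W651.SO.Stm

set_option autoImplicit false

/-!
# Compact ordered sets have end points; compact subsets of GO-spaces
-/

namespace Pool.Agent.W651.SO

open Set

/-- a nonempty finite set has a minimal element -/
theorem fin_min {Y : Type} (A : Set Y) (r : Y → Y → Prop) (hi : ∀ x ∈ A, ¬ r x x)
    (ht : ∀ x ∈ A, ∀ y ∈ A, ∀ z ∈ A, r x y → r y z → r x z) (t : Finset A) (hne : t.Nonempty) :
    ∃ x ∈ t, ∀ y ∈ t, ¬ r y x := by
  classical
  induction hne using Finset.Nonempty.cons_induction with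
  | singleton a =>
    refine ⟨a, Finset.mem_singleton_self a, ?_⟩
    intro y hy
    rw [Finset.mem_singleton.mp hy]
    exact hi a a.2
  | cons a s ha hs ih =>
    obtain ⟨x0, hx0, h0⟩ := ih
    by_cases h : r a x0
    · refine ⟨a, Finset.mem_cons_self a s, ?_⟩
      intro y hy hya
      rcases Finset.mem_cons.mp hy with h1 | h1
      · rw [h1] at hya
        exact hi a a.2 hya
      · exact h0 y h1 (ht y y.2 a a.2 x0 x0.2 hya h)
    · refine ⟨x0, Finset.mem_cons.mpr (Or.inr hx0), ?_⟩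
      intro y hy hyx
      rcases Finset.mem_cons.mp hy with h1 | h1
      · rw [h1] at hyx
        exact h hyx
      · exact h0 y h1 hyx

theorem cmp_aux {Y : Type} [TopologicalSpace Y] (A : Set Y) (r : Y → Y → Prop)
    (hc : IsCompact A) (hne : A.Nonempty) (hi : ∀ x ∈ A, ¬ r x x)
    (ht : ∀ x ∈ A, ∀ y ∈ A, ∀ z ∈ A, r x y → r y z → r x z)
    (htot : ∀ x ∈ A, ∀ y ∈ A, x ≠ y → r x y ∨ r y x)
    (hup : ∀ x ∈ A, ∀ y ∈ A, r x y → ∃ O : Set Y, IsOpen O ∧ y ∈ O ∧ ∀ z ∈ O, z ∈ A → r x z) :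
    ∃ m ∈ A, ∀ x ∈ A, x ≠ m → r m x := by
  classical
  by_contra hcon
  push Not at hcon
  obtain ⟨t, ht1⟩ := hc.elim_finite_subcover
    (fun x : A => ⋃₀ {O : Set Y | IsOpen O ∧ ∀ z ∈ O, z ∈ A → r x z})
    (fun x => isOpen_sUnion fun O hO => hO.1) (by
      intro y hy
      obtain ⟨x, hx, hxy, hr⟩ := hcon y hy
      have hrx : r x y := by
        rcases htot x hx y hy hxy with h | h
        · exact h
        · exact absurd h hr
      obtain ⟨O, hO, hyO, hz⟩ := hup x hx y hy hrx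
      exact Set.mem_iUnion.mpr ⟨⟨x, hx⟩, Set.mem_sUnion.mpr ⟨O, ⟨hO, hz⟩, hyO⟩⟩)
  have htn : t.Nonempty := by
    obtain ⟨y, hy⟩ := hne
    have h1 := ht1 hy
    rw [Set.mem_iUnion₂] at h1
    obtain ⟨i, hi', -⟩ := h1
    exact ⟨i, hi'⟩
  obtain ⟨x0, hx0, h0⟩ := fin_min A r hi ht t htn
  have h1 := ht1 x0.2
  rw [Set.mem_iUnion₂] at h1
  obtain ⟨x, hx, h2⟩ := h1
  obtain ⟨O, ⟨-, hz⟩, hO⟩ := Set.mem_sUnion.mp h2
  exact h0 x hx (hz x0 hO x0.2)

theorem cmp : PropCMP := by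
  intro Y _ A r hc hne h
  refine ⟨cmp_aux A r hc hne h.irrefl h.trans h.total h.upper, ?_⟩
  exact cmp_aux A (fun x y => r y x) hc hne h.irrefl
    (fun x hx y hy z hz h1 h2 => h.trans z hz y hy x hx h2 h1)
    (fun x hx y hy hxy => (h.total x hx y hy hxy).symm)
    (fun x hx y hy hr => h.lower x hx y hy hr)

theorem goc : PropGOC := by
  intro Y _ _ go K hK
  have i1 : ClosedIciTopology Y := ⟨fun a => ⟨by rw [Set.compl_Ici]; exact go.iio a⟩⟩
  have i2 : ClosedIicTopology Y := ⟨fun a => ⟨by rw [Set.compl_Iic]; exact go.ioi a⟩⟩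
  refine ⟨fun x _ => lt_irrefl x, fun x _ y _ z _ h1 h2 => h1.trans h2,
    fun x _ y _ h => lt_or_gt_of_ne h, ?_, ?_, ?_, ?_⟩
  · intro x _ y _ h
    exact ⟨Iio x, go.iio x, h, fun z hz _ => hz⟩
  · intro x _ y _ h
    exact ⟨Ioi x, go.ioi x, h, fun z hz _ => hz⟩
  · intro x _ O hO hxO
    have hF : IsCompact (K ∩ (Iic x ∩ Oᶜ)) := hK.inter_right (isClosed_Iic.inter hO.isClosed_compl)
    rcases Set.eq_empty_or_nonempty (K ∩ (Iic x ∩ Oᶜ)) with he | hne
    · right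
      intro z hz hzx
      by_contra hzO
      have : z ∈ K ∩ (Iic x ∩ Oᶜ) := ⟨hz, le_of_lt hzx, hzO⟩
      rw [he] at this
      exact this
    · left
      obtain ⟨a, ha, hmax⟩ := hF.exists_isGreatest hne
      have hax : a < x := lt_of_le_of_ne ha.2.1 (fun h => ha.2.2 (h ▸ hxO))
      refine ⟨a, ha.1, hax, ?_⟩
      intro z hz h1 h2
      by_contra hzO
      exact absurd (hmax ⟨hz, le_of_lt h2, hzO⟩) (not_le.mpr h1)
  · intro x _ O hO hxO
    have hF : IsCompact (K ∩ (Ici x ∩ Oᶜ)) := hK.inter_right (isClosed_Ici.inter hO.isClosed_compl)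
    rcases Set.eq_empty_or_nonempty (K ∩ (Ici x ∩ Oᶜ)) with he | hne
    · right
      intro z hz hzx
      by_contra hzO
      have : z ∈ K ∩ (Ici x ∩ Oᶜ) := ⟨hz, le_of_lt hzx, hzO⟩
      rw [he] at this
      exact this
    · left
      obtain ⟨b, hb, hmin⟩ := hF.exists_isLeast hne
      have hxb : x < b := lt_of_le_of_ne hb.2.1 (fun h => hb.2.2 (h ▸ hxO))
      refine ⟨b, hb.1, hxb, ?_⟩
      intro z hz h1 h2
      by_contra hzO
      exact absurd (hmin ⟨hz, le_of_lt h1, hzO⟩) (not_le.mpr h2)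

end Pool.Agent.W651.SO

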