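import Pool.Agent.W651.SO.Stm

set_option autoImplicit false

/-!
SO-CONV and SO-SUB: translation to Mathlib.
-/

namespace Pool.Agent.W651.SO

open Set

/-- the linear order given by a strict linear order relation -/
@[reducible] noncomputable def mkLO {Y : Type} (r : Y → Y → Prop) (h1 : ∀ x, ¬ r x x)
    (h2 : ∀ x y z, r x y → r y z → r x z) (h3 : ∀ x y, x ≠ y → r x y ∨ r y x) :
    LinearOrder Y where
  le := fun x y => x = y ∨ r x y
  lt := r
  le_refl := fun x => Or.inl rfl
  le_trans := by
    rintro x y z (rfl | h) (rfl | h')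
    · exact Or.inl rfl
    · exact Or.inr h'
    · exact Or.inr h
    · exact Or.inr (h2 _ _ _ h h')
  lt_iff_le_not_ge := by
    intro x y
    constructor
    · intro h
      refine ⟨Or.inr h, ?_⟩
      rintro (rfl | h')
      · exact h1 _ h
      · exact h1 _ (h2 _ _ _ h h')
    · rintro ⟨rfl | h, h'⟩
      · exact absurd (Or.inl rfl) h'
      · exact h
  le_antisymm := by
    rintro x y (rfl | h) (h' | h')
    · rfl
    · rfl
    · exact h'.symm
    · exact absurd (h2 _ _ _ h h') (h1 _)
  le_total := by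
    intro x y
    by_cases h : x = y
    · exact Or.inl (Or.inl h)
    · rcases h3 x y h with h | h
      · exact Or.inl (Or.inr h)
      · exact Or.inr (Or.inr h)
  toDecidableLE := Classical.decRel _

/-- translation to the order topology of Mathlib -/
theorem conv : PropCONV := by
  intro Y t r h
  refine ⟨mkLO r (fun x => h.irrefl x (mem_univ x))
    (fun x y z => h.trans x (mem_univ x) y (mem_univ y) z (mem_univ z))
    (fun x y => h.total x (mem_univ x) y (mem_univ y)), ?_⟩
  let o : LinearOrder Y := mkLO r (fun x => h.irrefl x (mem_univ x))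
    (fun x y z => h.trans x (mem_univ x) y (mem_univ y) z (mem_univ z))
    (fun x y => h.total x (mem_univ x) y (mem_univ y))
  have hlt : ∀ x y : Y, x < y ↔ r x y := fun x y => Iff.rfl
  refine ⟨le_antisymm ?_ ?_⟩
  · refine le_generateFrom ?_
    rintro s ⟨a, rfl | rfl⟩
    · rw [isOpen_iff_forall_mem_open]
      intro y hy
      obtain ⟨O, hO, hyO, hz⟩ := h.upper a (mem_univ a) y (mem_univ y) hy
      exact ⟨O, fun z hzO => hz z hzO (mem_univ z), hO, hyO⟩
    · rw [isOpen_iff_forall_mem_open]
      intro y hy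
      obtain ⟨O, hO, hyO, hz⟩ := h.lower a (mem_univ a) y (mem_univ y) hy
      exact ⟨O, fun z hzO => hz z hzO (mem_univ z), hO, hyO⟩
  · intro O hO
    have key : ∀ x ∈ O, ∃ V ⊆ O, @IsOpen Y (TopologicalSpace.generateFrom
        {s : Set Y | ∃ a, s = Ioi a ∨ s = Iio a}) V ∧ x ∈ V := by
      intro x hx
      have hL : ∃ L : Set Y, @IsOpen Y (TopologicalSpace.generateFrom
          {s : Set Y | ∃ a, s = Ioi a ∨ s = Iio a}) L ∧ x ∈ L ∧ ∀ z ∈ L, z < x → z ∈ O := by
        rcases h.left x (mem_univ x) O hO hx with ⟨a, _, ha, hz⟩ | hz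
        · refine ⟨Ioi a, TopologicalSpace.isOpen_generateFrom_of_mem ⟨a, Or.inl rfl⟩, ha, ?_⟩
          intro z hz1 hz2
          exact hz z (mem_univ z) hz1 hz2
        · exact ⟨univ, @isOpen_univ Y (TopologicalSpace.generateFrom
            {s : Set Y | ∃ a, s = Ioi a ∨ s = Iio a}), mem_univ x,
            fun z _ hzx => hz z (mem_univ z) hzx⟩
      have hR : ∃ R : Set Y, @IsOpen Y (TopologicalSpace.generateFrom
          {s : Set Y | ∃ a, s = Ioi a ∨ s = Iio a}) R ∧ x ∈ R ∧ ∀ z ∈ R, x < z → z ∈ O := by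
        rcases h.right x (mem_univ x) O hO hx with ⟨b, _, hb, hz⟩ | hz
        · refine ⟨Iio b, TopologicalSpace.isOpen_generateFrom_of_mem ⟨b, Or.inr rfl⟩, hb, ?_⟩
          intro z hz1 hz2
          exact hz z (mem_univ z) hz2 hz1
        · exact ⟨univ, @isOpen_univ Y (TopologicalSpace.generateFrom
            {s : Set Y | ∃ a, s = Ioi a ∨ s = Iio a}), mem_univ x,
            fun z _ hzx => hz z (mem_univ z) hzx⟩
      obtain ⟨L, hLo, hxL, hL⟩ := hL
      obtain ⟨R, hRo, hxR, hR⟩ := hR
      refine ⟨L ∩ R, ?_, @IsOpen.inter Y (TopologicalSpace.generateFrom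
            {s : Set Y | ∃ a, s = Ioi a ∨ s = Iio a}) L R hLo hRo, hxL, hxR⟩
      rintro z ⟨hzL, hzR⟩
      rcases lt_trichotomy z x with hzx | hzx | hzx
      · exact hL z hzL hzx
      · rw [hzx]; exact hx
      · exact hR z hzR hzx
    exact (@isOpen_iff_forall_mem_open Y (TopologicalSpace.generateFrom
      {s : Set Y | ∃ a, s = Ioi a ∨ s = Iio a}) O).2 key

/-- subspaces of a scattered ordered space are scattered GO-spaces -/
theorem sub : PropSUB := by
  intro X _ _ _ hsc S
  refine ⟨⟨fun a => ?_, fun a => ?_, fun x O hO hx => ?_⟩, fun A hA => ?_⟩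
  · exact (isOpen_Ioi (a := (a : X))).preimage continuous_subtype_val
  · exact (isOpen_Iio (a := (a : X))).preimage continuous_subtype_val
  · obtain ⟨O', hO', rfl⟩ := isOpen_induced_iff.1 hO
    have hop : IsOpen (ordConnectedComponent O' (x : X)) := by
      rw [isOpen_iff_mem_nhds]
      intro y hy
      rw [ordConnectedComponent_eq hy, ordConnectedComponent_mem_nhds]
      exact hO'.mem_nhds (ordConnectedComponent_subset hy)
    refine ⟨Subtype.val ⁻¹' (ordConnectedComponent O' (x : X)),
      hop.preimage continuous_subtype_val, ?_, ?_, ?_⟩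
    · exact self_mem_ordConnectedComponent.2 hx
    · intro z hz
      exact (ordConnectedComponent_subset (s := O') (x := (x : X))) hz
    · intro a ha b hb c hac hcb
      have hoc : OrdConnected (ordConnectedComponent O' (x : X)) := inferInstance
      exact hoc.out ha hb ⟨hac, hcb⟩
  · obtain ⟨x, ⟨a, ha, rfl⟩, U, hU, hUA⟩ := hsc (Subtype.val '' A) (hA.image _)
    refine ⟨a, ha, Subtype.val ⁻¹' U, hU.preimage continuous_subtype_val, ?_⟩
    ext z
    constructor
    · rintro ⟨hz1, hz2⟩
      have h1 : (z : X) ∈ U ∩ Subtype.val '' A := ⟨hz1, z, hz2, rfl⟩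
      rw [hUA] at h1
      exact Subtype.ext h1
    · intro hz
      have hza : z = a := hz
      rw [hza]
      have h1 : (a : X) ∈ U ∩ Subtype.val '' A := by
        rw [hUA]
        rfl
      exact ⟨h1.1, ha⟩

end Pool.Agent.W651.SO
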