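import Pool.Agent.W651.SO.Stm

set_option autoImplicit false

namespace Pool.Agent.W651.SO

open Set

theorem cut : PropCUT := by
  intro Y _ _ hGO hS x y hxy
  obtain ⟨w, hw, U, hU, hUw⟩ := hS (Icc x y) ⟨x, le_rfl, hxy.le⟩
  have hwU : w ∈ U := by
    have : w ∈ U ∩ Icc x y := by rw [hUw]; exact rfl
    exact this.1
  have huniq : ∀ z ∈ U, x ≤ z → z ≤ y → z = w := by
    intro z hz h1 h2
    have : z ∈ U ∩ Icc x y := ⟨hz, h1, h2⟩
    rw [hUw] at this
    exact this
  rcases lt_or_eq_of_le hw.1 with hxw | hxw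
  · refine ⟨Iio w, hGO.iio w, ?_, fun a ha b hb => lt_of_le_of_lt hb ha, hxw,
      fun h => absurd (lt_of_lt_of_le h hw.2) (lt_irrefl _)⟩
    have : (Iio w)ᶜ = Ioi w ∪ (U ∩ Ioi x) := by
      ext z
      constructor
      · intro hz
        have hz' : w ≤ z := not_lt.mp hz
        rcases lt_or_eq_of_le hz' with h | h
        · exact Or.inl h
        · right
          rw [← h]
          exact ⟨hwU, hxw⟩
      · rintro (hz | ⟨hz1, hz2⟩)
        · exact not_lt.mpr (le_of_lt hz)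
        · apply not_lt.mpr
          rcases le_or_gt z y with h | h
          · rw [huniq z hz1 (le_of_lt hz2) h]
          · exact le_of_lt (lt_of_le_of_lt hw.2 h)
    rw [this]
    exact (hGO.ioi w).union (hU.inter (hGO.ioi x))
  · refine ⟨Iic x, ?_, ?_, fun a ha b hb => le_trans hb ha, le_rfl, not_le.mpr hxy⟩
    · have : Iic x = Iio x ∪ (U ∩ Iio y) := by
        ext z
        constructor
        · intro hz
          rcases lt_or_eq_of_le (show z ≤ x from hz) with h | h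
          · exact Or.inl h
          · right
            rw [h]
            exact ⟨hxw ▸ hwU, hxy⟩
        · rintro (hz | ⟨hz1, hz2⟩)
          · exact le_of_lt hz
          · rcases lt_or_ge z x with h | h
            · exact le_of_lt h
            · have := huniq z hz1 h (le_of_lt hz2)
              rw [this, ← hxw]
              exact le_rfl
      rw [this]
      exact (hGO.iio x).union (hU.inter (hGO.iio y))
    · have : (Iic x)ᶜ = Ioi x := compl_Iic
      rw [this]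
      exact hGO.ioi x

theorem dual : PropDUAL := by
  intro Y _ o
  let o' : LinearOrder Y := (inferInstanceAs (LinearOrder Yᵒᵈ))
  refine ⟨o', fun a b => Iff.rfl, fun a b => Iff.rfl, ?_, ?_, ?_, ?_, ?_⟩
  · intro h
    refine @GO.mk Y _ o' (fun a => @GO.iio Y _ o h a) (fun a => @GO.ioi Y _ o h a) ?_
    intro x O hO hx
    obtain ⟨V, h1, h2, h3, h4⟩ := @GO.cvx Y _ o h x O hO hx
    exact ⟨V, h1, h2, h3, fun a ha b hb c hac hcb => h4 b hb a ha c hcb hac⟩
  · intro E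
    constructor
    · intro h a ha b hb c hac hcb
      exact h b hb a ha c hcb hac
    · intro h a ha b hb c hac hcb
      exact h b hb a ha c hcb hac
  · intro q
    constructor
    · intro h V hV hq
      obtain ⟨D, ⟨h1, h2, h3, h4, h5⟩, h6, h7⟩ := h V hV hq
      exact ⟨D, ⟨h1, h2, h3, h4, h5⟩, h6, h7⟩
    · intro h V hV hq
      obtain ⟨D, ⟨h1, h2, h3, h4, h5⟩, h6, h7⟩ := h V hV hq
      exact ⟨D, ⟨h1, h2, h3, h4, h5⟩, h6, h7⟩
  · intro q
    constructor
    · intro h V hV hq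
      obtain ⟨D, ⟨h1, h2, h3, h4, h5⟩, h6, h7⟩ := h V hV hq
      exact ⟨D, ⟨h1, h2, h3, h4, h5⟩, h6, h7⟩
    · intro h V hV hq
      obtain ⟨D, ⟨h1, h2, h3, h4, h5⟩, h6, h7⟩ := h V hV hq
      exact ⟨D, ⟨h1, h2, h3, h4, h5⟩, h6, h7⟩
  · have hRL : ∀ q : Y, @RP Y _ o q → @LP Y _ o' q := by
      intro q h V hV hq
      obtain ⟨D, ⟨h1, h2, h3, h4, h5⟩, h6, h7⟩ := h V hV hq
      exact ⟨D, ⟨h1, h2, h3, h4, h5⟩, h6, h7⟩
    have hLR : ∀ q : Y, @LP Y _ o q → @RP Y _ o' q := by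
      intro q h V hV hq
      obtain ⟨D, ⟨h1, h2, h3, h4, h5⟩, h6, h7⟩ := h V hV hq
      exact ⟨D, ⟨h1, h2, h3, h4, h5⟩, h6, h7⟩
    have hRL' : ∀ q : Y, @RP Y _ o' q → @LP Y _ o q := by
      intro q h V hV hq
      obtain ⟨D, ⟨h1, h2, h3, h4, h5⟩, h6, h7⟩ := h V hV hq
      exact ⟨D, ⟨h1, h2, h3, h4, h5⟩, h6, h7⟩
    have hLR' : ∀ q : Y, @LP Y _ o' q → @RP Y _ o q := by
      intro q h V hV hq
      obtain ⟨D, ⟨h1, h2, h3, h4, h5⟩, h6, h7⟩ := h V hV hq
      exact ⟨D, ⟨h1, h2, h3, h4, h5⟩, h6, h7⟩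
    intro G
    constructor
    · rintro ⟨h1, h2, h3, h4⟩
      refine ⟨h1, fun a ha b hb c hac hcb => h2 b hb a ha c hcb hac, ?_,
        fun q hq => ⟨hLR q (h4 q hq).2, hRL q (h4 q hq).1⟩⟩
      intro C hC hCo hCc
      exact h3 C hC hCo (fun a ha b hb c hac hcb => hCc b hb a ha c hcb hac)
    · rintro ⟨h1, h2, h3, h4⟩
      refine ⟨h1, fun a ha b hb c hac hcb => h2 b hb a ha c hcb hac, ?_,
        fun q hq => ⟨hLR' q (h4 q hq).2, hRL' q (h4 q hq).1⟩⟩
      intro C hC hCo hCc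
      exact h3 C hC hCo (fun a ha b hb c hac hcb => hCc b hb a ha c hcb hac)

end Pool.Agent.W651.SO
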