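import Pool.Agent.W651.SO.Stm

set_option autoImplicit false

/-!
# The reversed versions of the engine, of the half, and of the one-sided statement
-/

namespace Pool.Agent.W651.SO

open Set

theorem seg_of_dual {Y : Type} [TopologicalSpace Y] (o o' : LinearOrder Y)
    (hle : ∀ a b : Y, (@LE.le Y o'.toLE a b ↔ @LE.le Y o.toLE b a)) (E A : Set Y) :
    @Seg Y _ o' E A ↔ @FSeg Y _ o E A := by
  unfold Seg FSeg
  constructor
  · rintro ⟨h1, h2, h3, h4⟩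
    exact ⟨h1, h2, h3, fun x hx y hy hxy => h4 x hx y hy ((hle y x).2 hxy)⟩
  · rintro ⟨h1, h2, h3, h4⟩
    exact ⟨h1, h2, h3, fun x hx y hy hxy => h4 x hx y hy ((hle y x).1 hxy)⟩

theorem engd : PropDUAL → PropENG → PropENGD := by
  intro hD hE Y _ o hGO E hEo hCv hmax hLP hseg hnc A₀ r₀ hA₀ hne hnon hLo
  obtain ⟨o', hlt, hle, hGO', hcv, hrp, hlp, hgood⟩ := hD Y o
  have hsf := seg_of_dual o o' hle
  obtain ⟨r, hr1, hr2, hr3⟩ := @hE Y _ o' (hGO' hGO) E hEo ((hcv E).1 hCv)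
    (fun x hx => by
      obtain ⟨y, hy, hyx⟩ := hmax x hx
      exact ⟨y, hy, (hlt x y).2 hyx⟩)
    (fun q hq => (hlp q).1 (hLP q hq))
    (fun A A' h1 h2 h3 h4 => hseg A A' ((hsf E A).1 h1) ((hsf E A').1 h2) h3 h4)
    (fun A h1 h2 => by
      obtain ⟨A', h3, h4, h5, h6⟩ := hnc A ((hsf E A).1 h1) h2
      exact ⟨A', (hsf E A').2 h3, h4, h5, h6⟩)
    A₀ r₀ ((hsf E A₀).2 hA₀) hne hnon hLo
  refine ⟨r, hr1, hr2, fun x hx => ?_⟩
  obtain ⟨A, h1, h2, h3, h4⟩ := hr3 x hx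
  exact ⟨A, (hsf E A).1 h1, h2, h3, h4⟩

theorem halfd : PropDUAL → PropHALF → PropHALFD := by
  intro hD hH Y _ o hGO hS E z hEo hCv hz hzo hmax hG
  obtain ⟨o', hlt, hle, hGO', hcv, hrp, hlp, hgood⟩ := hD Y o
  exact @hH Y _ o' (hGO' hGO) hS E z hEo ((hcv E).1 hCv) hz hzo
    (fun x hx => (hle z x).2 (hmax x hx))
    (fun y hy => by
      obtain ⟨G, h1, h2, h3⟩ := hG y hy
      exact ⟨G, (hgood G).1 h1, h2, h3⟩)

theorem kpd : PropDUAL → PropKP → PropKPD := by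
  intro hD hK Y _ o hGO hS N p hNo hCv hp hSt hq
  obtain ⟨o', hlt, hle, hGO', hcv, hrp, hlp, hgood⟩ := hD Y o
  refine (hlp p).2 (@hK Y _ o' (hGO' hGO) hS N p hNo ((hcv N).1 hCv) hp
    (fun C h1 h2 h3 h4 => hSt C h1 h2 ((hcv C).2 h3) h4)
    (fun q h1 h2 => ⟨(hlp q).1 (hq q h1 h2).2, (hrp q).1 (hq q h1 h2).1⟩))

end Pool.Agent.W651.SO
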