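import Pool.Agent.W651.SO.Stm

set_option autoImplicit false

/-!
# SO-ENG: the engine
-/

namespace Pool.Agent.W651.SO

open Set

namespace EngAux

section top
variable {Y : Type}

lemma ext_refl (P : Set Y × (Y → Y → Prop)) : Ext P P :=
  ⟨Subset.rfl, fun _ _ _ _ => Iff.rfl, fun _ _ _ hy hny => absurd hy hny⟩

lemma ext_trans {P Q R : Set Y × (Y → Y → Prop)} (h1 : Ext P Q) (h2 : Ext Q R) : Ext P R := by
  obtain ⟨a1, b1, c1⟩ := h1
  obtain ⟨a2, b2, c2⟩ := h2
  refine ⟨a1.trans a2, fun x hx y hy => (b1 x hx y hy).trans (b2 x (a1 hx) y (a1 hy)), ?_⟩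
  intro x hx y hy hny
  by_cases hyQ : y ∈ Q.1
  · exact (b2 x (a1 hx) y hyQ).1 (c1 x hx y hyQ hny)
  · exact c2 x (a1 hx) y hy hyQ

lemma ext_cat {A B : Set Y} (r s : Y → Y → Prop) (hd : Disjoint A B) :
    Ext (A, r) (A ∪ B, cat A B r s) := by
  refine ⟨subset_union_left, ?_, ?_⟩
  · intro x hx y hy
    refine ⟨fun h => Or.inl ⟨hx, hy, h⟩, fun h => ?_⟩
    rcases h with h | h | h
    · exact h.2.2
    · exact absurd h.1 (disjoint_left.1 hd hx)
    · exact absurd h.2 (disjoint_left.1 hd hy)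
  · intro x hx y hy hny
    rcases hy with hy | hy
    · exact absurd hy hny
    · exact Or.inr (Or.inr ⟨hx, hy⟩)

end top

/-- the poset -/
def PS {Y : Type} [TopologicalSpace Y] [LinearOrder Y] (E A₀ : Set Y) (r₀ : Y → Y → Prop)
    (P : Set Y × (Y → Y → Prop)) : Prop :=
  Seg E P.1 ∧ Lo P.1 P.2 ∧ Ext (A₀, r₀) P ∧ (P.1 = E → ∀ x ∈ E, ∃ A : Set Y, Seg E A ∧ A ≠ E ∧
    x ∈ A ∧ ∀ a ∈ A, ∀ b ∈ E, b ∉ A → P.2 a b)

/-- upper bounds of chains -/
lemma chain_ub (hflip : PropFLIP) (hlim : PropLIM) (hchn : PropCHN) {Y : Type}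
    [TopologicalSpace Y] [LinearOrder Y] (hGO : GO Y) (E : Set Y) (hE : IsOpen E)
    (hmax : ∀ x ∈ E, ∃ y ∈ E, x < y) (hRP : ∀ q ∈ E, RP q)
    (A₀ : Set Y) (r₀ : Y → Y → Prop) (c : Set (Set Y × (Y → Y → Prop)))
    (hc : ∀ P ∈ c, PS E A₀ r₀ P) (hch : ∀ P ∈ c, ∀ Q ∈ c, Ext P Q ∨ Ext Q P) (hne : c.Nonempty) :
    ∃ Q, PS E A₀ r₀ Q ∧ ∀ P ∈ c, Ext P Q := by
  obtain ⟨U, hU⟩ : ∃ U, U = USet c := ⟨_, rfl⟩
  obtain ⟨R, hR⟩ : ∃ R, R = URel c := ⟨_, rfl⟩
  have hPU : ∀ P ∈ c, P.1 ⊆ U := by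
    intro P hP x hx
    rw [hU]
    exact ⟨P, hP, hx⟩
  by_cases ha : ∃ P ∈ c, P.1 = U
  · obtain ⟨P, hP, hPe⟩ := ha
    refine ⟨P, hc P hP, fun Q hQ => ?_⟩
    rcases hch P hP Q hQ with h | h
    · have h1 : Q.1 = P.1 := Subset.antisymm (hPe ▸ hPU Q hQ) h.1
      refine ⟨h1.le, fun x hx y hy => (h.2.1 x (h1 ▸ hx) y (h1 ▸ hy)).symm, ?_⟩
      intro x hx y hy hny
      exact absurd (h1 ▸ hy) hny
    · exact h
  · push Not at ha
    obtain ⟨hLoU, hExtU⟩ := hchn Y c (fun P hP => ⟨(hc P hP).1.2.1, (hc P hP).2.1⟩) hch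
      (fun P hP => by rw [← hU]; exact ha P hP)
    rw [← hU, ← hR] at hLoU
    rw [← hU, ← hR] at hExtU
    have hUo : IsOpen U := by
      have e : U = ⋃ P ∈ c, P.1 := by
        rw [hU]
        ext x
        simp [USet]
      rw [e]
      exact isOpen_biUnion fun P hP => (hc P hP).1.2.1
    have hUE : U ⊆ E := by
      intro x hx
      rw [hU] at hx
      obtain ⟨P, hP, hxP⟩ := hx
      exact (hc P hP).1.1 hxP
    have hUi : ∀ x ∈ U, ∀ y ∈ E, y ≤ x → y ∈ U := by
      intro x hx y hy hyx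
      rw [hU] at hx
      obtain ⟨P, hP, hxP⟩ := hx
      exact hPU P hP ((hc P hP).1.2.2.2 x hxP y hy hyx)
    obtain ⟨P0, hP0⟩ := hne
    have hA0 : Ext (A₀, r₀) (U, R) := ext_trans (hc P0 hP0).2.2.1 (hExtU P0 hP0)
    by_cases hb : IsOpen (E \ U)
    · refine ⟨(U, R), ⟨⟨hUE, hUo, hb, hUi⟩, hLoU, hA0, ?_⟩, hExtU⟩
      intro hUE' x hx
      have hUE'' : U = E := hUE'
      have hxU : x ∈ U := hUE'' ▸ hx
      rw [hU] at hxU
      obtain ⟨P, hP, hxP⟩ := hxU
      refine ⟨P.1, (hc P hP).1, fun h => ha P hP (h.trans hUE''.symm), hxP, ?_⟩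
      intro a haP b hbE hbP
      exact (hExtU P hP).2.2 a haP b (hUE''.symm ▸ hbE) hbP
    · -- the limit point
      have hq : ∃ q ∈ E, q ∉ U ∧ ∀ O : Set Y, IsOpen O → q ∈ O → ∃ u ∈ O, u ∈ U := by
        by_contra hcon
        push Not at hcon
        apply hb
        rw [isOpen_iff_forall_mem_open]
        rintro q ⟨hqE, hqU⟩
        obtain ⟨O, hO, hqO, hOU⟩ := hcon q hqE hqU
        exact ⟨O ∩ E, fun w hw => ⟨hw.2, hOU w hw.1⟩, hO.inter hE, hqO, hqE⟩
      obtain ⟨q, hqE, hqU, hqn⟩ := hq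
      have hUq : ∀ u ∈ U, u < q := by
        intro u hu
        by_contra h
        exact hqU (hUi u hu q hqE (not_lt.1 h))
      have hqUu : ∀ x ∈ E, x < q → x ∈ U := by
        intro x hx hxq
        obtain ⟨u, hu1, hu2⟩ := hqn (Ioi x) (hGO.ioi x) hxq
        exact hUi u hu2 x hx (le_of_lt hu1)
      obtain ⟨y, hyE, hqy⟩ := hmax q hqE
      obtain ⟨D, hRH, hDV, hPt⟩ := hRP q hqE (E ∩ Iio y) (hE.inter (hGO.iio y)) ⟨hqE, hqy⟩
      obtain ⟨hqD, hDq, hDc, hDo, hDo2⟩ := hRH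
      obtain ⟨⟨s0, hs0, hs0q⟩, _⟩ := hPt
      have hs : Lo D (flp s0) := hflip Y D s0 hs0
      have hsq : ∀ x ∈ D, x ≠ q → flp s0 q x := fun x hx hxq => hs0q x hx hxq
      have hdis : Disjoint U D := by
        rw [disjoint_left]
        intro x hxU hxD
        exact absurd (hUq x hxU) (not_lt.2 (hDq x hxD))
      have hLoUD : Lo (U ∪ D) (cat U D R (flp s0)) := by
        refine hlim Y U D R (flp s0) q hUo hdis hqD hLoU hs hsq ?_ ?_ ?_
        · intro w hw hwq
          refine ⟨Ioi q, hGO.ioi q, lt_of_le_of_ne (hDq w hw) (Ne.symm hwq), ?_⟩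
          rw [disjoint_left]
          intro x hx hxU
          exact absurd (hUq x hxU) (not_lt.2 (le_of_lt hx))
        · intro O hO hqO
          obtain ⟨V', hV'o, hqV', hV'O, hV'c⟩ := hGO.cvx q O hO hqO
          obtain ⟨w, hwV, hwU⟩ := hqn V' hV'o hqV'
          have hwU' := hwU
          rw [hU] at hwU'
          obtain ⟨P, hP, hwP⟩ := hwU'
          have hex : ∃ a ∈ U, a ∉ P.1 := by
            by_contra hcon
            push Not at hcon
            exact ha P hP (Subset.antisymm (hPU P hP) hcon)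
          obtain ⟨a, haU, haP⟩ := hex
          refine ⟨a, haU, fun z hzU haz => ?_⟩
          have hzP : z ∉ P.1 := by
            intro hzP
            have h1 : R z a := (hExtU P hP).2.2 z hzP a haU haP
            exact hLoU.irrefl a haU (hLoU.trans a haU z hzU a haU haz h1)
          have hwz : w < z := by
            by_contra h
            exact hzP ((hc P hP).1.2.2.2 w hwP z (hUE hzU) (not_lt.1 h))
          exact hV'O (hV'c w hwV q hqV' z (le_of_lt hwz) (le_of_lt (hUq z hzU)))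
        · intro a haU
          have haU' := haU
          rw [hU] at haU'
          obtain ⟨P, hP, haP⟩ := haU'
          refine ⟨E \ P.1, (hc P hP).1.2.2.1, ⟨hqE, fun h => hqU (hPU P hP h)⟩, ?_⟩
          intro z hz hzU
          exact (hExtU P hP).2.2 a haP z hzU hz.2
      have hExtUD : Ext (U, R) (U ∪ D, cat U D R (flp s0)) := ext_cat R (flp s0) hdis
      have hseg : Seg E (U ∪ D) := by
        refine ⟨union_subset hUE fun x hx => (hDV hx).1, ?_, ?_, ?_⟩
        · have e : U ∪ D = E ∩ (Iio q ∪ D) := by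
            ext x
            constructor
            · rintro (h | h)
              · exact ⟨hUE h, Or.inl (hUq x h)⟩
              · exact ⟨(hDV h).1, Or.inr h⟩
            · rintro ⟨h1, h2 | h2⟩
              · exact Or.inl (hqUu x h1 h2)
              · exact Or.inr h2
          rw [e]
          exact hE.inter hDo
        · have e : E \ (U ∪ D) = E ∩ (Ici q \ D) := by
            ext x
            constructor
            · rintro ⟨h1, h2⟩
              refine ⟨h1, ?_, fun h => h2 (Or.inr h)⟩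
              by_contra h
              exact h2 (Or.inl (hqUu x h1 (not_le.1 h)))
            · rintro ⟨h1, h2, h3⟩
              refine ⟨h1, ?_⟩
              rintro (h | h)
              · exact absurd (hUq x h) (not_lt.2 h2)
              · exact h3 h
          rw [e]
          exact hE.inter hDo2
        · rintro x (hx | hx) w hw hwx
          · exact Or.inl (hUi x hx w hw hwx)
          · by_cases hwq : w < q
            · exact Or.inl (hqUu w hw hwq)
            · exact Or.inr (hDc x hx w (not_lt.1 hwq) hwx)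
      have hneE : U ∪ D ≠ E := by
        intro h
        have hy' : y ∈ U ∪ D := h ▸ hyE
        rcases hy' with h1 | h1
        · exact absurd (hUq y h1) (not_lt.2 (le_of_lt hqy))
        · exact lt_irrefl y (hDV h1).2
      refine ⟨(U ∪ D, cat U D R (flp s0)), ⟨hseg, hLoUD, ext_trans hA0 hExtUD, ?_⟩, ?_⟩
      · intro h
        exact absurd h hneE
      · intro P hP
        exact ext_trans (hExtU P hP) hExtUD

end EngAux

open EngAux in
/-- SO-ENG -/
theorem eng : PropFLIP → PropGLUE → PropENDS → PropLIM → PropCHN → PropENG := by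
  intro hflip hglue _ hlim hchn Y _ _ hGO E hE _ hmax hRP hS hN A₀ r₀ hA₀ hA₀E hA₀ne hLo₀
  have hbase : PS E A₀ r₀ (A₀, r₀) :=
    ⟨hA₀, hLo₀, ext_refl _, fun h => absurd h hA₀E⟩
  have : Nonempty {P : Set Y × (Y → Y → Prop) // PS E A₀ r₀ P} := ⟨⟨(A₀, r₀), hbase⟩⟩
  obtain ⟨⟨⟨A, r⟩, hM⟩, hmx⟩ := exists_maximal_of_nonempty_chains_bounded
    (α := {P : Set Y × (Y → Y → Prop) // PS E A₀ r₀ P}) (r := fun P Q => Ext P.1 Q.1)
    (by
      intro c hc hne
      obtain ⟨Q, hQ, hQ2⟩ := chain_ub hflip hlim hchn hGO E hE hmax hRP A₀ r₀ (Subtype.val '' c)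
        (by
          rintro P ⟨P', _, rfl⟩
          exact P'.2)
        (by
          rintro P ⟨P', hP', rfl⟩ Q ⟨Q', hQ', rfl⟩
          by_cases hPQ : P' = Q'
          · rw [hPQ]
            exact Or.inl (ext_refl _)
          · exact hc hP' hQ' hPQ)
        (hne.image _)
      exact ⟨⟨Q, hQ⟩, fun P hP => hQ2 P.1 ⟨P, hP, rfl⟩⟩)
    (fun h1 h2 => ext_trans h1 h2)
  obtain ⟨hAs, hAL, hAE, hAc⟩ := hM
  simp only at hAs hAL hAc
  have hAE' : A = E := by
    by_contra hne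
    obtain ⟨A', hA's, hA'E, hAA', hA'c⟩ := hN A hAs hne
    have hSt : St (A' \ A) := hS A A' hAs hA's hA'E hAA'
    obtain ⟨⟨s1, hs1, hs1m⟩, ⟨s2, hs2, hs2m⟩⟩ := hSt.2 hA'c
    have hex : ∃ s, Lo (A' \ A) s ∧ (HasMax A r ↔ HasMin (A' \ A) s) := by
      by_cases h : HasMax A r
      · exact ⟨s1, hs1, fun _ => hs1m, fun _ => h⟩
      · exact ⟨s2, hs2, fun h' => absurd h' h, fun h' => absurd h' hs2m⟩
    obtain ⟨s, hs, hsm⟩ := hex
    have hBo : IsOpen (A' \ A) := by
      have e : A' \ A = A' ∩ (E \ A) := by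
        ext x
        exact ⟨fun h => ⟨h.1, hA's.1 h.1, h.2⟩, fun h => ⟨h.1, h.2.2⟩⟩
      rw [e]
      exact hA's.2.1.inter hAs.2.2.1
    have hdis : Disjoint A (A' \ A) := disjoint_sdiff_right
    have hAne : A.Nonempty := hA₀ne.mono hAE.1
    have hBne : (A' \ A).Nonempty := by
      rw [nonempty_iff_ne_empty]
      intro h
      rw [h] at hA'c
      exact hA'c isCompact_empty
    have hL := hglue Y A (A' \ A) r s hAs.2.1 hBo hdis hAL hs hAne hBne hsm
    have hun : A ∪ (A' \ A) = A' := union_sdiff_cancel hAA'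
    have hExt := ext_cat r s hdis
    rw [hun] at hL hExt
    have hQ : PS E A₀ r₀ (A', cat A (A' \ A) r s) :=
      ⟨hA's, hL, ext_trans hAE hExt, fun h => absurd h hA'E⟩
    have h1 := hmx ⟨(A', cat A (A' \ A) r s), hQ⟩ hExt
    obtain ⟨x, hx1, hx2⟩ := hBne
    exact hx2 (h1.1 hx1)
  subst hAE'
  exact ⟨r, hAL, hAE, hAc rfl⟩

end Pool.Agent.W651.SO
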