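import Pool.Agent.W651.SO.Stm
set_option autoImplicit false
namespace Pool.Agent.W651.SO
open Set

theorem flip : PropFLIP := by
  intro Y _ A r h
  refine ⟨fun x hx => h.irrefl x hx, fun x hx y hy z hz h1 h2 => h.trans z hz y hy x hx h2 h1,
    fun x hx y hy hne => (h.total x hx y hy hne).symm, h.upper, h.lower, ?_, ?_⟩
  · intro x hx O hO hxO
    rcases h.right x hx O hO hxO with ⟨b, hb, h1, h2⟩ | h1
    · exact Or.inl ⟨b, hb, h1, fun z hz h3 h4 => h2 z hz h4 h3⟩
    · exact Or.inr h1
  · intro x hx O hO hxO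
    rcases h.left x hx O hO hxO with ⟨b, hb, h1, h2⟩ | h1
    · exact Or.inl ⟨b, hb, h1, fun z hz h3 h4 => h2 z hz h4 h3⟩
    · exact Or.inr h1

theorem ends : PropENDS := by
  intro Y A B r s hd
  have hAB : ∀ x, x ∈ A → x ∈ B → False := fun x h1 h2 => Set.disjoint_left.1 hd h1 h2
  constructor
  · rintro ⟨a, ha⟩
    constructor
    · rintro ⟨m, hm, hmin⟩
      have hmA : m ∈ A := by
        rcases hm with hm | hm
        · exact hm
        · exfalso
          have hne : a ≠ m := fun h => hAB m (h ▸ ha) hm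
          rcases hmin a (Or.inl ha) hne with h | h | h
          · exact hAB m h.1 hm
          · exact hAB a ha h.2.1
          · exact hAB m h.1 hm
      refine ⟨m, hmA, fun x hx hne => ?_⟩
      rcases hmin x (Or.inl hx) hne with h | h | h
      · exact h.2.2
      · exact (hAB m hmA h.1).elim
      · exact (hAB x hx h.2).elim
    · rintro ⟨m, hm, hmin⟩
      refine ⟨m, Or.inl hm, fun x hx hne => ?_⟩
      rcases hx with hx | hx
      · exact Or.inl ⟨hm, hx, hmin x hx hne⟩
      · exact Or.inr (Or.inr ⟨hm, hx⟩)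
  · rintro ⟨b, hb⟩
    constructor
    · rintro ⟨m, hm, hmax⟩
      have hmB : m ∈ B := by
        rcases hm with hm | hm
        · exfalso
          have hne : b ≠ m := fun h => hAB m hm (h ▸ hb)
          rcases hmax b (Or.inr hb) hne with h | h | h
          · exact hAB b h.1 hb
          · exact hAB m hm h.2.1
          · exact hAB b h.1 hb
        · exact hm
      refine ⟨m, hmB, fun x hx hne => ?_⟩
      rcases hmax x (Or.inr hx) hne with h | h | h
      · exact (hAB x h.1 hx).elim
      · exact h.2.2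
      · exact (hAB x h.1 hx).elim
    · rintro ⟨m, hm, hmax⟩
      refine ⟨m, Or.inr hm, fun x hx hne => ?_⟩
      rcases hx with hx | hx
      · exact Or.inr (Or.inr ⟨hx, hm⟩)
      · exact Or.inr (Or.inl ⟨hx, hm, hmax x hx hne⟩)

end Pool.Agent.W651.SO
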