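import Pool.Agent.W651.SO.Stm

set_option autoImplicit false

/-!
Concatenation of two disjoint open sets.
-/

namespace Pool.Agent.W651.SO

open Set

namespace Glue

variable {Y : Type} {A B : Set Y} {r s : Y → Y → Prop}

theorem notB (h : Disjoint A B) {x : Y} (hx : x ∈ A) : x ∉ B :=
  fun hb => Set.disjoint_left.mp h hx hb

theorem notA (h : Disjoint A B) {x : Y} (hx : x ∈ B) : x ∉ A :=
  fun ha => Set.disjoint_left.mp h ha hx

theorem cat_AA (h : Disjoint A B) {x y : Y} (hx : x ∈ A) (hy : y ∈ A) :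
    cat A B r s x y ↔ r x y := by
  unfold cat
  have h1 := notB h hx
  have h2 := notB h hy
  tauto

theorem cat_BB (h : Disjoint A B) {x y : Y} (hx : x ∈ B) (hy : y ∈ B) :
    cat A B r s x y ↔ s x y := by
  unfold cat
  have h1 := notA h hx
  have h2 := notA h hy
  tauto

theorem cat_AB {x y : Y} (hx : x ∈ A) (hy : y ∈ B) : cat A B r s x y :=
  Or.inr (Or.inr ⟨hx, hy⟩)

theorem cat_BA (h : Disjoint A B) {x y : Y} (hx : x ∈ B) (hy : y ∈ A) : ¬ cat A B r s x y := by
  unfold cat
  have h1 := notA h hx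
  have h2 := notB h hy
  tauto

end Glue

open Glue in
theorem glue : PropGLUE := by
  intro Y _ A B r s hoA hoB hd hA hB _ _ hiff
  refine ⟨?_, ?_, ?_, ?_, ?_, ?_, ?_⟩
  · rintro x (hx | hx)
    · rw [cat_AA hd hx hx]; exact hA.irrefl x hx
    · rw [cat_BB hd hx hx]; exact hB.irrefl x hx
  · rintro x (hx | hx) y (hy | hy) z (hz | hz) h1 h2
    · rw [cat_AA hd hx hy] at h1
      rw [cat_AA hd hy hz] at h2
      rw [cat_AA hd hx hz]
      exact hA.trans x hx y hy z hz h1 h2
    · exact cat_AB hx hz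
    · exact absurd h2 (cat_BA hd hy hz)
    · exact cat_AB hx hz
    · exact absurd h1 (cat_BA hd hx hy)
    · exact absurd h1 (cat_BA hd hx hy)
    · exact absurd h2 (cat_BA hd hy hz)
    · rw [cat_BB hd hx hy] at h1
      rw [cat_BB hd hy hz] at h2
      rw [cat_BB hd hx hz]
      exact hB.trans x hx y hy z hz h1 h2
  · rintro x (hx | hx) y (hy | hy) hne
    · rw [cat_AA hd hx hy, cat_AA hd hy hx]; exact hA.total x hx y hy hne
    · exact Or.inl (cat_AB hx hy)
    · exact Or.inr (cat_AB hy hx)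
    · rw [cat_BB hd hx hy, cat_BB hd hy hx]; exact hB.total x hx y hy hne
  · rintro x (hx | hx) y (hy | hy) h
    · rw [cat_AA hd hy hx] at h
      obtain ⟨O, hO, hyO, hO'⟩ := hA.lower x hx y hy h
      refine ⟨O ∩ A, hO.inter hoA, ⟨hyO, hy⟩, ?_⟩
      rintro z ⟨hzO, hzA⟩ _
      rw [cat_AA hd hzA hx]
      exact hO' z hzO hzA
    · exact absurd h (cat_BA hd hy hx)
    · refine ⟨A, hoA, hy, ?_⟩
      intro z hz _
      exact cat_AB hz hx
    · rw [cat_BB hd hy hx] at h
      obtain ⟨O, hO, hyO, hO'⟩ := hB.lower x hx y hy h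
      refine ⟨O ∩ B, hO.inter hoB, ⟨hyO, hy⟩, ?_⟩
      rintro z ⟨hzO, hzB⟩ _
      rw [cat_BB hd hzB hx]
      exact hO' z hzO hzB
  · rintro x (hx | hx) y (hy | hy) h
    · rw [cat_AA hd hx hy] at h
      obtain ⟨O, hO, hyO, hO'⟩ := hA.upper x hx y hy h
      refine ⟨O ∩ A, hO.inter hoA, ⟨hyO, hy⟩, ?_⟩
      rintro z ⟨hzO, hzA⟩ _
      rw [cat_AA hd hx hzA]
      exact hO' z hzO hzA
    · refine ⟨B, hoB, hy, ?_⟩
      intro z hz _
      exact cat_AB hx hz
    · exact absurd h (cat_BA hd hx hy)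
    · rw [cat_BB hd hx hy] at h
      obtain ⟨O, hO, hyO, hO'⟩ := hB.upper x hx y hy h
      refine ⟨O ∩ B, hO.inter hoB, ⟨hyO, hy⟩, ?_⟩
      rintro z ⟨hzO, hzB⟩ _
      rw [cat_BB hd hx hzB]
      exact hO' z hzO hzB
  · rintro x (hx | hx) O hO hxO
    · rcases hA.left x hx O hO hxO with ⟨a, ha, hax, h⟩ | h
      · refine Or.inl ⟨a, Or.inl ha, (cat_AA hd ha hx).mpr hax, ?_⟩
        rintro z (hz | hz) h1 h2
        · exact h z hz ((cat_AA hd ha hz).mp h1) ((cat_AA hd hz hx).mp h2)
        · exact absurd h2 (cat_BA hd hz hx)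
      · right
        rintro z (hz | hz) h2
        · exact h z hz ((cat_AA hd hz hx).mp h2)
        · exact absurd h2 (cat_BA hd hz hx)
    · rcases hB.left x hx O hO hxO with ⟨a, ha, hax, h⟩ | h
      · refine Or.inl ⟨a, Or.inr ha, (cat_BB hd ha hx).mpr hax, ?_⟩
        rintro z (hz | hz) h1 h2
        · exact absurd h1 (cat_BA hd ha hz)
        · exact h z hz ((cat_BB hd ha hz).mp h1) ((cat_BB hd hz hx).mp h2)
      · left
        by_cases hm : HasMin B s
        · obtain ⟨a, ha, hmax⟩ := hiff.mpr hm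
          refine ⟨a, Or.inl ha, cat_AB ha hx, ?_⟩
          rintro z (hz | hz) h1 h2
          · exfalso
            rw [cat_AA hd ha hz] at h1
            by_cases hza : z = a
            · rw [hza] at h1; exact hA.irrefl a ha h1
            · exact hA.irrefl a ha (hA.trans a ha z hz a ha h1 (hmax z hz hza))
          · exact h z hz ((cat_BB hd hz hx).mp h2)
        · have hex : ∃ y ∈ B, y ≠ x ∧ ¬ s x y := by
            by_contra hcon
            push Not at hcon
            exact hm ⟨x, hx, hcon⟩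
          obtain ⟨y, hy, hyx, hsy⟩ := hex
          have hyx' : s y x := (hB.total y hy x hx hyx).resolve_right hsy
          refine ⟨y, Or.inr hy, (cat_BB hd hy hx).mpr hyx', ?_⟩
          rintro z (hz | hz) h1 h2
          · exact absurd h1 (cat_BA hd hy hz)
          · exact h z hz ((cat_BB hd hz hx).mp h2)
  · rintro x (hx | hx) O hO hxO
    · rcases hA.right x hx O hO hxO with ⟨a, ha, hax, h⟩ | h
      · refine Or.inl ⟨a, Or.inl ha, (cat_AA hd hx ha).mpr hax, ?_⟩
        rintro z (hz | hz) h1 h2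
        · exact h z hz ((cat_AA hd hx hz).mp h1) ((cat_AA hd hz ha).mp h2)
        · exact absurd h2 (cat_BA hd hz ha)
      · left
        by_cases hm : HasMax A r
        · obtain ⟨b, hb, hmin⟩ := hiff.mp hm
          refine ⟨b, Or.inr hb, cat_AB hx hb, ?_⟩
          rintro z (hz | hz) h1 h2
          · exact h z hz ((cat_AA hd hx hz).mp h1)
          · exfalso
            rw [cat_BB hd hz hb] at h2
            by_cases hzb : z = b
            · rw [hzb] at h2; exact hB.irrefl b hb h2
            · exact hB.irrefl b hb (hB.trans b hb z hz b hb (hmin z hz hzb) h2)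
        · have hex : ∃ y ∈ A, y ≠ x ∧ ¬ r y x := by
            by_contra hcon
            push Not at hcon
            exact hm ⟨x, hx, hcon⟩
          obtain ⟨y, hy, hyx, hsy⟩ := hex
          have hyx' : r x y := (hA.total y hy x hx hyx).resolve_left hsy
          refine ⟨y, Or.inl hy, (cat_AA hd hx hy).mpr hyx', ?_⟩
          rintro z (hz | hz) h1 h2
          · exact h z hz ((cat_AA hd hx hz).mp h1)
          · exact absurd h2 (cat_BA hd hz hy)
    · rcases hB.right x hx O hO hxO with ⟨a, ha, hax, h⟩ | h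
      · refine Or.inl ⟨a, Or.inr ha, (cat_BB hd hx ha).mpr hax, ?_⟩
        rintro z (hz | hz) h1 h2
        · exact absurd h1 (cat_BA hd hx hz)
        · exact h z hz ((cat_BB hd hx hz).mp h1) ((cat_BB hd hz ha).mp h2)
      · right
        rintro z (hz | hz) h2
        · exact absurd h2 (cat_BA hd hx hz)
        · exact h z hz ((cat_BB hd hx hz).mp h2)

end Pool.Agent.W651.SO
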