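import Pool.Agent.W651.SO.Stm

set_option autoImplicit false

namespace Pool.Agent.W651.SO

open Set

theorem gpt : PropGPT := by
  intro Y _ A B r s p hpA hpB hAB hoA hoB hr hrp hs hsp
  obtain ⟨c, hc⟩ : ∃ c, c = cat A (B \ {p}) r s := ⟨_, rfl⟩
  rw [← hc]
  have nB : ∀ x ∈ A, x ∈ B \ {p} → False := fun x hx hx' => hx'.2 (hAB x hx hx'.1)
  -- `p` is the largest element of `A`
  have pmax : ∀ x ∈ A, ¬ r p x := by
    intro x hx h
    by_cases hxp : x = p
    · rw [hxp] at h; exact hr.irrefl p hpA h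
    · exact hr.irrefl p hpA (hr.trans p hpA x hx p hpA h (hrp x hx hxp))
  have pmin : ∀ x ∈ B, ¬ s x p := by
    intro x hx h
    by_cases hxp : x = p
    · rw [hxp] at h; exact hs.irrefl p hpB h
    · exact hs.irrefl p hpB (hs.trans p hpB x hx p hpB (hsp x hx hxp) h)
  have cAA : ∀ x ∈ A, ∀ y ∈ A, (c x y ↔ r x y) := by
    intro x hx y hy
    rw [hc]
    constructor
    · rintro (h | h | h)
      · exact h.2.2
      · exact (nB x hx h.1).elim
      · exact (nB y hy h.2).elim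
    · intro h; exact Or.inl ⟨hx, hy, h⟩
  have cAB : ∀ x ∈ A, ∀ y ∈ B \ {p}, c x y := by
    intro x hx y hy
    rw [hc]; exact Or.inr (Or.inr ⟨hx, hy⟩)
  have cBA : ∀ x ∈ B \ {p}, ∀ y ∈ A, ¬ c x y := by
    intro x hx y hy h
    rw [hc] at h
    rcases h with h | h | h
    · exact nB x h.1 hx
    · exact nB y hy h.2.1
    · exact nB x h.1 hx
  have cBB0 : ∀ x ∈ B \ {p}, ∀ y ∈ B \ {p}, (c x y ↔ s x y) := by
    intro x hx y hy
    rw [hc]
    constructor
    · rintro (h | h | h)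
      · exact (nB x h.1 hx).elim
      · exact h.2.2
      · exact (nB x h.1 hx).elim
    · intro h; exact Or.inr (Or.inl ⟨hx, hy, h⟩)
  have cBB : ∀ x ∈ B, ∀ y ∈ B, (c x y ↔ s x y) := by
    intro x hx y hy
    by_cases hxp : x = p
    · subst hxp
      by_cases hyp : y = x
      · subst hyp
        rw [cAA y hpA y hpA]
        exact iff_of_false (hr.irrefl y hpA) (hs.irrefl y hpB)
      · exact iff_of_true (cAB x hpA y ⟨hy, hyp⟩) (hsp y hy hyp)
    · by_cases hyp : y = p
      · subst hyp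
        exact iff_of_false (cBA x ⟨hx, hxp⟩ y hpA) (pmin x hx)
      · exact cBB0 x ⟨hx, hxp⟩ y ⟨hy, hyp⟩
  have mem : ∀ x ∈ A ∪ B, x ∈ A ∨ x ∈ B \ {p} := by
    intro x hx
    by_cases h : x ∈ A
    · exact Or.inl h
    · exact Or.inr ⟨hx.resolve_left h, fun h' => h (by rw [show x = p from h']; exact hpA)⟩
  -- nothing of `A` is above an element of `B`
  have nBA : ∀ x ∈ B, ∀ z ∈ A, ¬ c x z := by
    intro x hx z hz h
    by_cases hxp : x = p
    · rw [hxp] at h
      exact pmax z hz ((cAA p hpA z hz).1 h)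
    · exact cBA x ⟨hx, hxp⟩ z hz h
  have cp : ∀ z ∈ A ∪ B, ∀ y ∈ A, c z y → z ∈ A := by
    intro z hz y hy h
    rcases mem z hz with hz | hz
    · exact hz
    · exact (cBA z hz y hy h).elim
  have cq : ∀ z ∈ A ∪ B, ∀ y ∈ B, c y z → z ∈ B := by
    intro z hz y hy h
    rcases mem z hz with hz | hz
    · exact (nBA y hy z hz h).elim
    · exact hz.1
  refine ⟨⟨?_, ?_, ?_, ?_, ?_, ?_, ?_⟩, ?_, ?_⟩
  · -- irrefl
    intro x hx
    rcases hx with hx | hx
    · rw [cAA x hx x hx]; exact hr.irrefl x hx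
    · rw [cBB x hx x hx]; exact hs.irrefl x hx
  · -- trans
    intro x hx y hy z hz hxy hyz
    rcases mem x hx with hx | hx
    · rcases mem z hz with hz | hz
      · have hy' := cp y hy z hz hyz
        rw [cAA x hx y hy'] at hxy
        rw [cAA y hy' z hz] at hyz
        rw [cAA x hx z hz]
        exact hr.trans x hx y hy' z hz hxy hyz
      · exact cAB x hx z hz
    · have hy' := cq y hy x hx.1 hxy
      have hz' := cq z hz y hy' hyz
      rw [cBB x hx.1 y hy'] at hxy
      rw [cBB y hy' z hz'] at hyz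
      rw [cBB x hx.1 z hz']
      exact hs.trans x hx.1 y hy' z hz' hxy hyz
  · -- total
    intro x hx y hy hxy
    rcases mem x hx with hx | hx
    · rcases mem y hy with hy | hy
      · rw [cAA x hx y hy, cAA y hy x hx]
        exact hr.total x hx y hy hxy
      · exact Or.inl (cAB x hx y hy)
    · rcases mem y hy with hy | hy
      · exact Or.inr (cAB y hy x hx)
      · rw [cBB x hx.1 y hy.1, cBB y hy.1 x hx.1]
        exact hs.total x hx.1 y hy.1 hxy
  · -- lower
    intro x hx y hy hyx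
    rcases mem y hy with hy | hy
    · by_cases hyp : y = p
      · subst hyp
        rcases mem x hx with hx | hx
        · exact (pmax x hx ((cAA y hpA x hx).1 hyx)).elim
        · obtain ⟨O, hO, hyO, hO'⟩ := hs.lower x hx.1 y hpB ((cBB y hpB x hx.1).1 hyx)
          refine ⟨O, hO, hyO, fun z hz hz' => ?_⟩
          rcases mem z hz' with hz' | hz'
          · exact cAB z hz' x hx
          · exact (cBB z hz'.1 x hx.1).2 (hO' z hz hz'.1)
      · rcases mem x hx with hx | hx
        · obtain ⟨O, hO, hyO, hO'⟩ := hr.lower x hx y hy ((cAA y hy x hx).1 hyx)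
          exact ⟨O ∩ (A \ {p}), hO.inter hoA, ⟨hyO, hy, hyp⟩, fun z hz _ =>
            (cAA z hz.2.1 x hx).2 (hO' z hz.1 hz.2.1)⟩
        · exact ⟨A \ {p}, hoA, ⟨hy, hyp⟩, fun z hz _ => cAB z hz.1 x hx⟩
    · have hx' := cq x hx y hy.1 hyx
      obtain ⟨O, hO, hyO, hO'⟩ := hs.lower x hx' y hy.1 ((cBB y hy.1 x hx').1 hyx)
      exact ⟨O ∩ (B \ {p}), hO.inter hoB, ⟨hyO, hy⟩, fun z hz _ =>
        (cBB z hz.2.1 x hx').2 (hO' z hz.1 hz.2.1)⟩
  · -- upper
    intro x hx y hy hxy
    rcases mem y hy with hy | hy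
    · have hx' := cp x hx y hy hxy
      obtain ⟨O, hO, hyO, hO'⟩ := hr.upper x hx' y hy ((cAA x hx' y hy).1 hxy)
      by_cases hyp : y = p
      · refine ⟨O, hO, hyO, fun z hz hz' => ?_⟩
        rcases mem z hz' with hz' | hz'
        · exact (cAA x hx' z hz').2 (hO' z hz hz')
        · exact cAB x hx' z hz'
      · exact ⟨O ∩ (A \ {p}), hO.inter hoA, ⟨hyO, hy, hyp⟩, fun z hz _ =>
          (cAA x hx' z hz.2.1).2 (hO' z hz.1 hz.2.1)⟩
    · rcases mem x hx with hx | hx
      · exact ⟨B \ {p}, hoB, hy, fun z hz _ => cAB x hx z hz⟩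
      · obtain ⟨O, hO, hyO, hO'⟩ := hs.upper x hx.1 y hy.1 ((cBB x hx.1 y hy.1).1 hxy)
        exact ⟨O ∩ (B \ {p}), hO.inter hoB, ⟨hyO, hy⟩, fun z hz _ =>
          (cBB x hx.1 z hz.2.1).2 (hO' z hz.1 hz.2.1)⟩
  · -- left
    intro x hx O hO hxO
    rcases mem x hx with hx | hx
    · rcases hr.left x hx O hO hxO with ⟨a, ha, hax, h⟩ | h
      · refine Or.inl ⟨a, Or.inl ha, (cAA a ha x hx).2 hax, fun z hz haz hzx => ?_⟩
        have hz' := cp z hz x hx hzx
        exact h z hz' ((cAA a ha z hz').1 haz) ((cAA z hz' x hx).1 hzx)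
      · refine Or.inr fun z hz hzx => ?_
        have hz' := cp z hz x hx hzx
        exact h z hz' ((cAA z hz' x hx).1 hzx)
    · rcases hs.left x hx.1 O hO hxO with ⟨a, ha, hax, h⟩ | h
      · refine Or.inl ⟨a, Or.inr ha, (cBB a ha x hx.1).2 hax, fun z hz haz hzx => ?_⟩
        have hz' := cq z hz a ha haz
        exact h z hz' ((cBB a ha z hz').1 haz) ((cBB z hz' x hx.1).1 hzx)
      · refine Or.inl ⟨p, Or.inl hpA, cAB p hpA x hx, fun z hz haz hzx => ?_⟩
        have hz' := cq z hz p hpB haz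
        exact h z hz' ((cBB z hz' x hx.1).1 hzx)
  · -- right
    intro x hx O hO hxO
    by_cases hxB : x ∈ B
    · rcases hs.right x hxB O hO hxO with ⟨b, hb, hxb, h⟩ | h
      · refine Or.inl ⟨b, Or.inr hb, (cBB x hxB b hb).2 hxb, fun z hz hxz hzb => ?_⟩
        have hz' := cq z hz x hxB hxz
        exact h z hz' ((cBB x hxB z hz').1 hxz) ((cBB z hz' b hb).1 hzb)
      · refine Or.inr fun z hz hxz => ?_
        have hz' := cq z hz x hxB hxz
        exact h z hz' ((cBB x hxB z hz').1 hxz)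
    · have hxA : x ∈ A := hx.resolve_right hxB
      have hxp : x ≠ p := fun h => hxB (by rw [h]; exact hpB)
      rcases hr.right x hxA O hO hxO with ⟨b, hb, hxb, h⟩ | h
      · refine Or.inl ⟨b, Or.inl hb, (cAA x hxA b hb).2 hxb, fun z hz hxz hzb => ?_⟩
        have hz' := cp z hz b hb hzb
        exact h z hz' ((cAA x hxA z hz').1 hxz) ((cAA z hz' b hb).1 hzb)
      · refine Or.inl ⟨p, Or.inl hpA, (cAA x hxA p hpA).2 (hrp x hxA hxp), fun z hz hxz hzb => ?_⟩
        have hz' := cp z hz p hpA hzb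
        exact h z hz' ((cAA x hxA z hz').1 hxz)
  · -- minimum
    rintro ⟨m, hm, h⟩
    refine ⟨m, Or.inl hm, fun x hx hxm => ?_⟩
    rcases mem x hx with hx | hx
    · exact (cAA m hm x hx).2 (h x hx hxm)
    · exact cAB m hm x hx
  · -- no minimum
    rintro ⟨a, ha⟩ hno ⟨m, hm, h⟩
    rcases mem m hm with hm' | hm'
    · exact hno ⟨m, hm', fun x hx hxm => (cAA m hm' x hx).1 (h x (Or.inl hx) hxm)⟩
    · have ham : a ≠ m := by
        intro h'
        exact nB a ha.1 (by rw [h']; exact hm')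
      exact cBA m hm' a ha.1 (h a (Or.inl ha.1) ham)

end Pool.Agent.W651.SO
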