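import Pool.Agent.W651.SO.Stm

set_option autoImplicit false

namespace Pool.Agent.W651.SO

open Set

namespace AuxIns

variable {Y : Type} [TopologicalSpace Y]

/-- the points up to `z` -/
def dn (Z : Set Y) (r : Y → Y → Prop) (z : Y) : Set Y := {x | x ∈ Z ∧ (x = z ∨ r x z)}

/-- the points after `z` -/
def up (Z : Set Y) (r : Y → Y → Prop) (z : Y) : Set Y := {x | x ∈ Z ∧ r z x}

variable {Z : Set Y} {r : Y → Y → Prop} {z : Y}

theorem dn_up (h : Lo Z r) (hz : z ∈ Z) : dn Z r z ∪ up Z r z = Z := by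
  ext x
  constructor
  · rintro (hx | hx) <;> exact hx.1
  · intro hx
    by_cases hxz : x = z
    · exact Or.inl ⟨hx, Or.inl hxz⟩
    · rcases h.total x hx z hz hxz with h1 | h1
      · exact Or.inl ⟨hx, Or.inr h1⟩
      · exact Or.inr ⟨hx, h1⟩

theorem dn_disj (h : Lo Z r) (hz : z ∈ Z) {x : Y} (hx : x ∈ dn Z r z) (hx' : x ∈ up Z r z) :
    False := by
  rcases hx.2 with h1 | h1
  · subst h1
    exact h.irrefl _ hz hx'.2
  · exact h.irrefl z hz (h.trans z hz x hx.1 z hz hx'.2 h1)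

theorem dn_open (h : Lo Z r) (hz : z ∈ Z) (hZ : IsOpen Z) (hzo : IsOpen ({z} : Set Y)) :
    IsOpen (dn Z r z) := by
  rw [isOpen_iff_forall_mem_open]
  rintro x ⟨hx, h1 | h1⟩
  · subst h1
    exact ⟨{x}, by rintro y rfl; exact ⟨hx, Or.inl rfl⟩, hzo, rfl⟩
  · obtain ⟨O, hO, hxO, hO'⟩ := h.lower z hz x hx h1
    exact ⟨O ∩ Z, fun y hy => ⟨hy.2, Or.inr (hO' y hy.1 hy.2)⟩, hO.inter hZ, hxO, hx⟩

theorem up_open (h : Lo Z r) (hz : z ∈ Z) (hZ : IsOpen Z) : IsOpen (up Z r z) := by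
  rw [isOpen_iff_forall_mem_open]
  rintro x ⟨hx, h1⟩
  obtain ⟨O, hO, hxO, hO'⟩ := h.upper z hz x hx h1
  exact ⟨O ∩ Z, fun y hy => ⟨hy.2, hO' y hy.1 hy.2⟩, hO.inter hZ, hxO, hx⟩

theorem dn_lo (h : Lo Z r) (hz : z ∈ Z) : Lo (dn Z r z) r := by
  refine ⟨fun x hx => h.irrefl x hx.1,
    fun x hx y hy w hw => h.trans x hx.1 y hy.1 w hw.1,
    fun x hx y hy => h.total x hx.1 y hy.1, ?_, ?_, ?_, ?_⟩
  · intro x hx y hy hyx
    obtain ⟨O, hO, hyO, hO'⟩ := h.lower x hx.1 y hy.1 hyx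
    exact ⟨O, hO, hyO, fun w hw hw' => hO' w hw hw'.1⟩
  · intro x hx y hy hxy
    obtain ⟨O, hO, hyO, hO'⟩ := h.upper x hx.1 y hy.1 hxy
    exact ⟨O, hO, hyO, fun w hw hw' => hO' w hw hw'.1⟩
  · intro x hx O hO hxO
    rcases h.left x hx.1 O hO hxO with ⟨a, ha, hax, h1⟩ | h1
    · left
      refine ⟨a, ⟨ha, Or.inr ?_⟩, hax, fun w hw => h1 w hw.1⟩
      rcases hx.2 with h2 | h2
      · rw [← h2]; exact hax
      · exact h.trans a ha x hx.1 z hz hax h2
    · right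
      exact fun w hw => h1 w hw.1
  · intro x hx O hO hxO
    rcases hx.2 with h2 | h2
    · right
      intro w hw hxw
      exfalso
      rw [h2] at hxw
      exact dn_disj h hz hw ⟨hw.1, hxw⟩
    · rcases h.right x hx.1 O hO hxO with ⟨b, hb, hxb, h1⟩ | h1
      · left
        by_cases hbA : b ∈ dn Z r z
        · exact ⟨b, hbA, hxb, fun w hw => h1 w hw.1⟩
        · have hbC : b ∈ up Z r z := by
            have : b ∈ dn Z r z ∪ up Z r z := by rw [dn_up h hz]; exact hb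
            exact this.resolve_left hbA
          refine ⟨z, ⟨hz, Or.inl rfl⟩, h2, fun w hw hxw hwz => ?_⟩
          exact h1 w hw.1 hxw (h.trans w hw.1 z hz b hb hwz hbC.2)
      · right
        exact fun w hw => h1 w hw.1

theorem up_lo (h : Lo Z r) (hz : z ∈ Z) : Lo (up Z r z) r := by
  refine ⟨fun x hx => h.irrefl x hx.1,
    fun x hx y hy w hw => h.trans x hx.1 y hy.1 w hw.1,
    fun x hx y hy => h.total x hx.1 y hy.1, ?_, ?_, ?_, ?_⟩
  · intro x hx y hy hyx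
    obtain ⟨O, hO, hyO, hO'⟩ := h.lower x hx.1 y hy.1 hyx
    exact ⟨O, hO, hyO, fun w hw hw' => hO' w hw hw'.1⟩
  · intro x hx y hy hxy
    obtain ⟨O, hO, hyO, hO'⟩ := h.upper x hx.1 y hy.1 hxy
    exact ⟨O, hO, hyO, fun w hw hw' => hO' w hw hw'.1⟩
  · intro x hx O hO hxO
    rcases h.left x hx.1 O hO hxO with ⟨a, ha, hax, h1⟩ | h1
    · by_cases haC : a ∈ up Z r z
      · left
        exact ⟨a, haC, hax, fun w hw => h1 w hw.1⟩
      · right
        have haA : a ∈ dn Z r z := by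
          have : a ∈ dn Z r z ∪ up Z r z := by rw [dn_up h hz]; exact ha
          exact this.resolve_right haC
        intro w hw hwx
        refine h1 w hw.1 ?_ hwx
        rcases haA.2 with h2 | h2
        · rw [h2]; exact hw.2
        · exact h.trans a ha z hz w hw.1 h2 hw.2
    · right
      exact fun w hw => h1 w hw.1
  · intro x hx O hO hxO
    rcases h.right x hx.1 O hO hxO with ⟨b, hb, hxb, h1⟩ | h1
    · left
      exact ⟨b, ⟨hb, h.trans z hz x hx.1 b hb hx.2 hxb⟩, hxb, fun w hw => h1 w hw.1⟩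
    · right
      exact fun w hw => h1 w hw.1

omit [TopologicalSpace Y] in
theorem dn_max (z : Y) (hz : z ∈ Z) : HasMax (dn Z r z) r :=
  ⟨z, ⟨hz, Or.inl rfl⟩, fun _ hx hxz => hx.2.resolve_left hxz⟩

theorem up_min (h : Lo Z r) (hz : z ∈ Z) (hzo : IsOpen ({z} : Set Y))
    (hne : (up Z r z).Nonempty) : HasMin (up Z r z) r := by
  rcases h.right z hz {z} hzo rfl with ⟨b, hb, hzb, h1⟩ | h1
  · refine ⟨b, ⟨hb, hzb⟩, fun x hx hxb => ?_⟩
    rcases h.total x hx.1 b hb hxb with h2 | h2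
    · exfalso
      have h3 : x = z := h1 x hx.1 hx.2 h2
      have h4 := hx.2
      rw [h3] at h4
      exact h.irrefl z hz h4
    · exact h2
  · exfalso
    obtain ⟨x, hx⟩ := hne
    have h3 : x = z := h1 x hx.1 hx.2
    have h4 := hx.2
    rw [h3] at h4
    exact h.irrefl z hz h4

theorem dn_min (h : Lo Z r) (hz : z ∈ Z) : HasMin (dn Z r z) r ↔ HasMin Z r := by
  constructor
  · rintro ⟨m, hm, h1⟩
    refine ⟨m, hm.1, fun x hx hxm => ?_⟩
    have hx' : x ∈ dn Z r z ∪ up Z r z := by rw [dn_up h hz]; exact hx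
    rcases hx' with h2 | h2
    · exact h1 x h2 hxm
    · rcases hm.2 with h3 | h3
      · rw [h3]; exact h2.2
      · exact h.trans m hm.1 z hz x hx h3 h2.2
  · rintro ⟨m, hm, h1⟩
    refine ⟨m, ⟨hm, ?_⟩, fun x hx => h1 x hx.1⟩
    by_cases hmz : m = z
    · exact Or.inl hmz
    · exact Or.inr (h1 z hz (Ne.symm hmz))

end AuxIns

open AuxIns in
theorem ins : PropFLIP → PropGLUE → PropENDS → PropCMP → PropINS := by
  intro _ hglue hends hcmp Y _ Z K r hS hZ hZne hLo hK hKc hs hdis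
  obtain ⟨s, hs⟩ := hs
  rcases K.eq_empty_or_nonempty with hKe | hKne
  · subst hKe
    rw [union_empty]
    exact ⟨r, hLo, Iff.rfl⟩
  obtain ⟨z, hz, U, hU, hUZ⟩ := hS Z hZne
  have hzo : IsOpen ({z} : Set Y) := by
    rw [← hUZ]
    exact hU.inter hZ
  have hA := dn_open hLo hz hZ hzo
  have hC := up_open hLo hz hZ
  have hdA : Disjoint (dn Z r z) K := hdis.mono_left (fun x hx => hx.1)
  have hdC : Disjoint (dn Z r z ∪ K) (up Z r z) := by
    rw [Set.disjoint_left]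
    rintro x (hx | hx) hx'
    · exact dn_disj hLo hz hx hx'
    · exact (Set.disjoint_left.mp hdis) hx'.1 hx
  have hAne : (dn Z r z).Nonempty := ⟨z, hz, Or.inl rfl⟩
  obtain ⟨hmin, hmax⟩ := hcmp Y K s hKc hKne hs
  have hAK := hglue Y (dn Z r z) K r s hA hK hdA (dn_lo hLo hz) hs hAne hKne
    ⟨fun _ => hmin, fun _ => dn_max z hz⟩
  have hE := hends Y (dn Z r z) K r s hdA
  have hminAK := hE.1 hAne
  have hmaxAK := hE.2 hKne
  rcases (up Z r z).eq_empty_or_nonempty with hCe | hCne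
  · have hZA : dn Z r z = Z := by
      have := dn_up hLo hz
      rwa [hCe, union_empty] at this
    rw [hZA] at hAK hminAK
    exact ⟨cat Z K r s, hAK, hminAK⟩
  · have hres := hglue Y (dn Z r z ∪ K) (up Z r z) (cat (dn Z r z) K r s) r (hA.union hK) hC hdC
      hAK (up_lo hLo hz) (hAne.mono subset_union_left) hCne
      ⟨fun _ => up_min hLo hz hzo hCne, fun _ => hmaxAK.2 hmax⟩
    have hE2 := (hends Y (dn Z r z ∪ K) (up Z r z) (cat (dn Z r z) K r s) r hdC).1
      (hAne.mono subset_union_left)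
    have hset : dn Z r z ∪ K ∪ up Z r z = Z ∪ K := by
      rw [union_right_comm, dn_up hLo hz]
    rw [hset] at hres hE2
    exact ⟨_, hres, hE2.trans (hminAK.trans (dn_min hLo hz))⟩

end Pool.Agent.W651.SO

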