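import Pool.Agent.W651.SO.Stm

/-!
# Project SO (MP_5f379b_gt): sets containing the point `p`
-/

namespace Pool.Agent.W651.SO

open Set

/-- gluing of two halves at `p`, the first one not compact -/
theorem kc_aux (hF : PropFLIP) (hG : PropGPT) (Y : Type) [TopologicalSpace Y] (A B : Set Y)
    (p : Y) (hpA : p ∈ A) (hpB : p ∈ B) (hAB : ∀ x ∈ A, x ∈ B → x = p)
    (hA : IsOpen (A \ {p})) (hB : IsOpen (B \ {p})) (hPA : Pt A p) (hPB : Pt B p) :
    (∃ r : Y → Y → Prop, Lo (A ∪ B) r) ∧ (¬ IsCompact A →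
      (∃ r : Y → Y → Prop, Lo (A ∪ B) r ∧ HasMin (A ∪ B) r) ∧
      ∃ r : Y → Y → Prop, Lo (A ∪ B) r ∧ ¬ HasMin (A ∪ B) r) := by
  obtain ⟨⟨r, hr, hrp⟩, hA2⟩ := hPA
  obtain ⟨⟨s, hs, hsp⟩, _⟩ := hPB
  have hs' : Lo B (flp s) := hF Y B s hs
  have hsp' : ∀ x ∈ B, x ≠ p → flp s p x := hsp
  refine ⟨⟨_, (hG Y A B r (flp s) p hpA hpB hAB hA hB hr hrp hs' hsp').1⟩, fun hnc => ?_⟩
  obtain ⟨⟨r1, hr1, hrp1, hm1⟩, ⟨r2, hr2, hrp2, hm2⟩⟩ := hA2 hnc
  have h1 := hG Y A B r1 (flp s) p hpA hpB hAB hA hB hr1 hrp1 hs' hsp'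
  have h2 := hG Y A B r2 (flp s) p hpA hpB hAB hA hB hr2 hrp2 hs' hsp'
  refine ⟨⟨_, h1.1, h1.2.1 hm1⟩, ⟨_, h2.1, h2.2.2 ?_ hm2⟩⟩
  by_contra hne
  rw [not_nonempty_iff_eq_empty, sdiff_eq_empty] at hne
  apply hnc
  have hAe : A = {p} := Subset.antisymm hne (singleton_subset_iff.mpr hpA)
  rw [hAe]
  exact isCompact_singleton

theorem kc : PropFLIP → PropGPT → PropSUM → PropKC := by
  intro hF hG hS Y _ _ hGO hSc N p hN hNc hpN hSt hRP hLP C hCN hCo hCc hpC
  obtain ⟨DR, ⟨r1, r2, r3, r4, r5⟩, hRC, hRPt⟩ := hRP C hCo hpC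
  obtain ⟨DL, ⟨l1, l2, l3, l4, l5⟩, hLC, hLPt⟩ := hLP C hCo hpC
  -- the sets
  have hD : DL ∪ DR = (Iio p ∪ DR) ∩ (Ioi p ∪ DL) := by
    ext x
    constructor
    · rintro (hx | hx)
      · refine ⟨?_, Or.inr hx⟩
        rcases (l2 x hx).lt_or_eq with h | h
        · exact Or.inl h
        · rw [h]; exact Or.inr r1
      · refine ⟨Or.inr hx, ?_⟩
        rcases (r2 x hx).lt_or_eq with h | h
        · exact Or.inl h
        · rw [← h]; exact Or.inr l1
    · rintro ⟨hx | hx, hy | hy⟩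
      · exact absurd hx (not_lt.mpr (le_of_lt hy))
      · exact Or.inl hy
      · exact Or.inr hx
      · exact Or.inl hy
  have hDo : IsOpen (DL ∪ DR) := by rw [hD]; exact r4.inter l4
  have hLo : IsOpen (DL \ {p}) := by
    have : DL \ {p} = (Ioi p ∪ DL) ∩ Iio p := by
      ext x
      constructor
      · rintro ⟨hx, hx'⟩
        exact ⟨Or.inr hx, lt_of_le_of_ne (l2 x hx) hx'⟩
      · rintro ⟨hx | hx, hx'⟩
        · exact absurd hx (not_lt.mpr (le_of_lt hx'))
        · exact ⟨hx, ne_of_lt hx'⟩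
    rw [this]
    exact l4.inter (hGO.iio p)
  have hRo : IsOpen (DR \ {p}) := by
    have : DR \ {p} = (Iio p ∪ DR) ∩ Ioi p := by
      ext x
      constructor
      · rintro ⟨hx, hx'⟩
        exact ⟨Or.inr hx, lt_of_le_of_ne (r2 x hx) (Ne.symm hx')⟩
      · rintro ⟨hx | hx, hx'⟩
        · exact absurd hx (not_lt.mpr (le_of_lt hx'))
        · exact ⟨hx, ne_of_gt hx'⟩
    rw [this]
    exact r4.inter (hGO.ioi p)
  have hLR : ∀ x ∈ DL, x ∈ DR → x = p := fun x hx hx' => le_antisymm (l2 x hx) (r2 x hx')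
  have hRL : ∀ x ∈ DR, x ∈ DL → x = p := fun x hx hx' => hLR x hx' hx
  have k1 := kc_aux hF hG Y DL DR p l1 r1 hLR hLo hRo hLPt hRPt
  have k2 := kc_aux hF hG Y DR DL p r1 l1 hRL hRo hLo hRPt hLPt
  have hStD : St (DL ∪ DR) := by
    refine ⟨k1.1, fun hnc => ?_⟩
    by_cases hc : IsCompact DL
    · have hc' : ¬ IsCompact DR := fun h => hnc (hc.union h)
      have := k2.2 hc'
      rwa [union_comm] at this
    · exact k1.2 hc
  have hSt1 : St (C ∩ (Iic p \ DL)) := by
    refine hSt _ (inter_subset_left.trans hCN) (hCo.inter l5) ?_ ?_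
    · rintro a ⟨ha, ha'⟩ b ⟨hb, hb'⟩ c hac hcb
      refine ⟨hCc a ha b hb c hac hcb, le_trans hcb hb'.1, fun hc => ?_⟩
      exact hb'.2 (l3 c hc b hb'.1 hcb)
    · rintro ⟨_, _, h⟩
      exact h l1
  have hSt2 : St (C ∩ (Ici p \ DR)) := by
    refine hSt _ (inter_subset_left.trans hCN) (hCo.inter r5) ?_ ?_
    · rintro a ⟨ha, ha'⟩ b ⟨hb, hb'⟩ c hac hcb
      refine ⟨hCc a ha b hb c hac hcb, le_trans ha'.1 hac, fun hc => ?_⟩
      exact ha'.2 (r3 c hc a ha'.1 hac)
    · rintro ⟨_, _, h⟩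
      exact h r1
  -- disjointness
  have d12 : Disjoint (C ∩ (Iic p \ DL)) (DL ∪ DR) := by
    rw [disjoint_left]
    rintro x ⟨_, hx, hx'⟩ (h | h)
    · exact hx' h
    · have : x = p := le_antisymm hx (r2 x h)
      rw [this] at hx'
      exact hx' l1
  have d23 : Disjoint (C ∩ (Ici p \ DR)) (DL ∪ DR) := by
    rw [disjoint_left]
    rintro x ⟨_, hx, hx'⟩ (h | h)
    · have : x = p := le_antisymm (l2 x h) hx
      rw [this] at hx'
      exact hx' r1
    · exact hx' h
  have d13 : Disjoint (C ∩ (Iic p \ DL)) (C ∩ (Ici p \ DR)) := by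
    rw [disjoint_left]
    rintro x ⟨_, hx, hx'⟩ ⟨_, h, _⟩
    have : x = p := le_antisymm hx h
    rw [this] at hx'
    exact hx' l1
  let Z : Option Bool → Set Y := fun i => match i with
    | none => DL ∪ DR
    | some true => C ∩ (Iic p \ DL)
    | some false => C ∩ (Ici p \ DR)
  have hun : (⋃ i, Z i) = C := by
    ext x
    rw [mem_iUnion]
    constructor
    · rintro ⟨i, hi⟩
      match i, hi with
      | none, hi =>
        rcases hi with h | h
        · exact hLC h
        · exact hRC h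
      | some true, hi => exact hi.1
      | some false, hi => exact hi.1
    · intro hx
      by_cases hL : x ∈ DL
      · exact ⟨none, Or.inl hL⟩
      by_cases hR : x ∈ DR
      · exact ⟨none, Or.inr hR⟩
      rcases le_total x p with h | h
      · exact ⟨some true, hx, h, hL⟩
      · exact ⟨some false, hx, h, hR⟩
  rw [← hun]
  refine hS Y (Option Bool) Z hSc ?_ ?_ ?_
  · intro i
    match i with
    | none => exact hDo
    | some true => exact hCo.inter l5
    | some false => exact hCo.inter r5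
  · intro i j hij
    match i, j, hij with
    | none, none, h => exact absurd rfl h
    | none, some true, _ => exact d12.symm
    | none, some false, _ => exact d23.symm
    | some true, none, _ => exact d12
    | some true, some true, h => exact absurd rfl h
    | some true, some false, _ => exact d13
    | some false, none, _ => exact d23
    | some false, some true, _ => exact d13.symm
    | some false, some false, h => exact absurd rfl h
  · intro i
    match i with
    | none => exact hStD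
    | some true => exact hSt1
    | some false => exact hSt2

end Pool.Agent.W651.SO
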