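import Pool.Agent.W651.SO.Stm

set_option autoImplicit false

namespace Pool.Agent.W651.SO

open Set

/-- adding the limit point `p` (with the trivial relation on `{p}`) -/
def PropKPL2x : Prop := ∀ (Y : Type) [TopologicalSpace Y] [LinearOrder Y], GO Y →
  ∀ (E : Set Y) (p : Y) (r : Y → Y → Prop), IsOpen E → (∀ x ∈ E, p < x) →
  (∀ O : Set Y, IsOpen O → p ∈ O → ∃ y ∈ O, y ∈ E) → Lo E r →
  (∀ x ∈ E, ∃ A : Set Y, FSeg E A ∧ A ≠ E ∧ x ∈ A ∧ ∀ a ∈ A, ∀ b ∈ E, b ∉ A → r a b) →
  Lo (E ∪ {p}) (cat E {p} r (fun _ _ => False))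

/-- an end extension has a minimum iff the original one has -/
theorem kp_min_iff {Y : Type} [TopologicalSpace Y] {A₀ E : Set Y} {r₀ r : Y → Y → Prop}
    (hne : A₀.Nonempty) (hL : Lo E r) (hX : Ext (A₀, r₀) (E, r)) :
    HasMin E r ↔ HasMin A₀ r₀ := by
  obtain ⟨hsub, hiff, hext⟩ := hX
  simp only at hsub hiff hext
  constructor
  · rintro ⟨m, hm, hmin⟩
    obtain ⟨a, ha⟩ := hne
    have hmA : m ∈ A₀ := by
      by_contra hmA
      have h1 : r a m := hext a ha m hm hmA
      have h2 : r m a := hmin a (hsub ha) fun h => hmA (h ▸ ha)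
      exact hL.irrefl m hm (hL.trans m hm a (hsub ha) m hm h2 h1)
    exact ⟨m, hmA, fun x hx hxm => (hiff m hmA x hx).2 (hmin x (hsub hx) hxm)⟩
  · rintro ⟨m, hm, hmin⟩
    refine ⟨m, hsub hm, fun x hx hxm => ?_⟩
    by_cases hxA : x ∈ A₀
    · exact (hiff m hm x hxA).1 (hmin x hxA hxm)
    · exact hext m hm x hx hxA

theorem kp : PropFLIP → PropENDS → PropGOC → PropCUT → PropENGD → PropKPL2x → PropKPC →
    PropKP := by
  intro hFLIP hENDS hGOC hCUT hENGD hKPL hKPC Y _ _ hGO hSc N p hNo hNc hpN hSt hRL V₀ hV₀o hpV₀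
  classical
  obtain ⟨V, hVo, hpV, hVsub, hVc⟩ := hGO.cvx p (V₀ ∩ N) (hV₀o.inter hNo) ⟨hpV₀, hpN⟩
  by_cases hA : ∃ O : Set Y, IsOpen O ∧ p ∈ O ∧ ∀ y ∈ O, y ≤ p
  · -- Case A
    obtain ⟨O, hO, hpO, hOp⟩ := hA
    refine ⟨{p}, ⟨rfl, ?_, ?_, ?_, ?_⟩, ?_, ?_, ?_⟩
    · rintro x rfl; exact le_rfl
    · rintro x rfl y h1 h2
      exact le_antisymm h2 h1
    · have : Iio p ∪ {p} = Iio p ∪ O := by
        ext x
        constructor
        · rintro (h | h)
          · exact Or.inl h
          · rw [mem_singleton_iff] at h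
            rw [h]; exact Or.inr hpO
        · rintro (h | h)
          · exact Or.inl h
          · rcases lt_or_eq_of_le (hOp x h) with h' | h'
            · exact Or.inl h'
            · exact Or.inr h'
      rw [this]
      exact (hGO.iio p).union hO
    · have : Ici p \ {p} = Ioi p := by
        ext x
        constructor
        · rintro ⟨h1, h2⟩
          exact lt_of_le_of_ne h1 fun h => h2 h.symm
        · intro h
          exact ⟨le_of_lt h, fun h' => by
            rw [mem_singleton_iff] at h'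
            rw [h'] at h
            exact lt_irrefl _ h⟩
      rw [this]
      exact hGO.ioi p
    · rintro x rfl; exact hpV₀
    · refine ⟨fun _ _ => False, ⟨?_, ?_, ?_, ?_, ?_, ?_, ?_⟩, ?_⟩
      · intro _ _ h; exact h
      · intro _ _ _ _ _ _ h _; exact h
      · rintro x rfl y rfl h; exact absurd rfl h
      · intro _ _ _ _ h; exact absurd h id
      · intro _ _ _ _ h; exact absurd h id
      · intro _ _ _ _ _; exact Or.inr fun _ _ h => absurd h id
      · intro _ _ _ _ _; exact Or.inr fun _ _ h => absurd h id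
      · rintro x rfl h; exact absurd rfl h
    · intro h
      exact absurd isCompact_singleton h
  · -- Case B
    push Not at hA
    obtain ⟨y₀, hy₀V, hpy₀⟩ := hA V hVo hpV
    obtain ⟨C, hC, hCc, hCd, hpC, hyC⟩ := hCUT Y hGO hSc p y₀ hpy₀
    obtain ⟨E, hE⟩ : ∃ E, E = C ∩ Ioi p := ⟨_, rfl⟩
    have hEo : IsOpen E := by rw [hE]; exact hC.inter (hGO.ioi p)
    have hEmem : ∀ x, x ∈ E ↔ x ∈ C ∧ p < x := by
      intro x; rw [hE]; rfl
    have hEc : Cvx E := by
      intro a ha b hb c hac hcb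
      rw [hEmem] at ha hb ⊢
      exact ⟨hCd b hb.1 c hcb, lt_of_lt_of_le ha.2 hac⟩
    have hEV : E ⊆ V := by
      intro x hx
      rw [hEmem] at hx
      have hxy : x ≤ y₀ := by
        by_contra h
        exact hyC (hCd x hx.1 y₀ (le_of_lt (not_le.1 h)))
      exact hVc p hpV y₀ hy₀V x hx.2.le hxy
    have hEN : E ⊆ N := fun x hx => (hVsub (hEV hx)).2
    have hpE : p ∉ E := fun h => lt_irrefl p ((hEmem p).1 h).2
    have hElim : ∀ O : Set Y, IsOpen O → p ∈ O → ∃ y ∈ O, y ∈ E := by
      intro O hO hpO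
      obtain ⟨y, hy, hpy⟩ := hA (O ∩ C) (hO.inter hC) ⟨hpO, hpC⟩
      exact ⟨y, hy.1, (hEmem y).2 ⟨hy.2, hpy⟩⟩
    have hEdec : ∀ x ∈ E, ∃ y ∈ E, y < x := by
      intro x hx
      obtain ⟨y, hy, hyE⟩ := hElim (Iio x) (hGO.iio x) ((hEmem x).1 hx).2
      exact ⟨y, hyE, hy⟩
    obtain ⟨e₀, -, he₀⟩ := hElim univ isOpen_univ (mem_univ p)
    have hLP : ∀ q ∈ E, LP q := fun q hq =>
      (hRL q (hEN hq) fun h => hpE (h ▸ hq)).2
    have hSt' : ∀ A A' : Set Y, FSeg E A → FSeg E A' → A' ≠ E → A ⊆ A' → St (A' \ A) := by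
      intro A A' hA1 hA2 _ hAA
      have heq : A' \ A = A' ∩ (E \ A) := by
        ext x
        exact ⟨fun h => ⟨h.1, hA2.1 h.1, h.2⟩, fun h => ⟨h.1, h.2.2⟩⟩
      refine hSt _ (fun x hx => hEN (hA2.1 hx.1)) ?_ ?_ fun h => hpE (hA2.1 h.1)
      · rw [heq]
        exact hA2.2.1.inter hA1.2.2.1
      · intro a ha b hb c hac hcb
        have hcE : c ∈ E := hEc a (hA2.1 ha.1) b (hA2.1 hb.1) c hac hcb
        exact ⟨hA2.2.2.2 a ha.1 c hcE hac, fun hcA => hb.2 (hA1.2.2.2 c hcA b (hA2.1 hb.1) hcb)⟩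
    by_cases hB : ∀ A : Set Y, FSeg E A → A ≠ E → ∃ A' : Set Y, FSeg E A' ∧ A' ≠ E ∧ A ⊆ A' ∧
        ¬ IsCompact (A' \ A)
    · -- Case B1
      have hemp : FSeg E ∅ := ⟨empty_subset _, isOpen_empty, by rw [diff_empty]; exact hEo,
        fun x hx => absurd hx (notMem_empty x)⟩
      have hemp' : (∅ : Set Y) ≠ E := fun h => notMem_empty e₀ (h ▸ he₀)
      obtain ⟨A₀, hA₀, hA₀E, -, hA₀c⟩ := hB ∅ hemp hemp'
      have hStA₀ : St A₀ := by
        have := hSt' ∅ A₀ hemp hA₀ hA₀E (empty_subset _)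
        rwa [diff_empty] at this
      rw [diff_empty] at hA₀c
      have hA₀ne : A₀.Nonempty := by
        rw [nonempty_iff_ne_empty]
        intro h
        rw [h] at hA₀c
        exact hA₀c isCompact_empty
      have hdis : Disjoint E ({p} : Set Y) := by
        rw [disjoint_singleton_right]; exact hpE
      have key : ∀ r₀ : Y → Y → Prop, Lo A₀ r₀ → ∃ r : Y → Y → Prop, Lo (E ∪ {p}) r ∧
          (∀ x ∈ E ∪ {p}, x ≠ p → r x p) ∧ (HasMin (E ∪ {p}) r ↔ HasMin A₀ r₀) := by
        intro r₀ hr₀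
        obtain ⟨r, hr, hext, hcomp⟩ := hENGD Y hGO E hEo hEc hEdec hLP hSt' hB A₀ r₀ hA₀ hA₀E
          hA₀ne hr₀
        refine ⟨cat E {p} r (fun _ _ => False), hKPL Y hGO E p r hEo
          (fun x hx => ((hEmem x).1 hx).2) hElim hr hcomp, ?_, ?_⟩
        · rintro x (hx | hx) hxp
          · exact Or.inr (Or.inr ⟨hx, rfl⟩)
          · exact absurd hx hxp
        · rw [(hENDS Y E {p} r (fun _ _ => False) hdis).1 ⟨e₀, he₀⟩]
          exact kp_min_iff hA₀ne hr hext
      refine ⟨E ∪ {p}, ⟨Or.inr rfl, ?_, ?_, ?_, ?_⟩, ?_, ?_, ?_⟩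
      · rintro x (hx | hx)
        · exact ((hEmem x).1 hx).2.le
        · exact le_of_eq hx.symm
      · rintro x (hx | hx) y hpy hyx
        · rcases lt_or_eq_of_le hpy with h | h
          · exact Or.inl ((hEmem y).2 ⟨hCd x ((hEmem x).1 hx).1 y hyx, h⟩)
          · exact Or.inr h.symm
        · rw [mem_singleton_iff] at hx
          rw [hx] at hyx
          exact Or.inr (le_antisymm hyx hpy)
      · have : Iio p ∪ (E ∪ {p}) = C := by
          ext x
          constructor
          · rintro (h | h | h)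
            · exact hCd p hpC x (le_of_lt h)
            · exact ((hEmem x).1 h).1
            · rw [mem_singleton_iff] at h
              rw [h]; exact hpC
          · intro h
            rcases lt_trichotomy x p with h' | h' | h'
            · exact Or.inl h'
            · exact Or.inr (Or.inr h')
            · exact Or.inr (Or.inl ((hEmem x).2 ⟨h, h'⟩))
        rw [this]; exact hC
      · have : Ici p \ (E ∪ {p}) = Ioi p ∩ Cᶜ := by
          ext x
          constructor
          · rintro ⟨h1, h2⟩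
            have hpx : p < x := lt_of_le_of_ne h1 fun h => h2 (Or.inr h.symm)
            exact ⟨hpx, fun h => h2 (Or.inl ((hEmem x).2 ⟨h, hpx⟩))⟩
          · rintro ⟨h1, h2⟩
            refine ⟨le_of_lt h1, ?_⟩
            rintro (h | h)
            · exact h2 ((hEmem x).1 h).1
            · rw [mem_singleton_iff] at h
              rw [h] at h1
              exact lt_irrefl _ h1
        rw [this]; exact (hGO.ioi p).inter hCc
      · rintro x (hx | hx)
        · exact (hVsub (hEV hx)).1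
        · rw [mem_singleton_iff] at hx
          rw [hx]; exact hpV₀
      · obtain ⟨r₀, hr₀⟩ := hStA₀.1
        obtain ⟨r, h1, h2, -⟩ := key r₀ hr₀
        exact ⟨r, h1, h2⟩
      · intro _
        obtain ⟨⟨r₁, hr₁, hm₁⟩, r₂, hr₂, hm₂⟩ := hStA₀.2 hA₀c
        obtain ⟨s₁, h1, h2, h3⟩ := key r₁ hr₁
        obtain ⟨s₂, h4, h5, h6⟩ := key r₂ hr₂
        exact ⟨⟨s₁, h1, h2, h3.2 hm₁⟩, s₂, h4, h5, fun h => hm₂ (h6.1 h)⟩
    · -- Case B2
      push Not at hB
      obtain ⟨A, hAF, hAE, hAc⟩ := hB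
      have hcomp : IsCompact ((E \ A) ∪ {p}) := hKPC Y hGO hSc C E A p hC hCc hCd hpC hE hA hAF
        hAE hAc
      have hb : ∃ b ∈ E, b ∉ A := by
        by_contra h
        push Not at h
        exact hAE (Subset.antisymm hAF.1 h)
      obtain ⟨b, hbE, hbA⟩ := hb
      have hge : ∀ x ∈ (E \ A) ∪ {p}, p ≤ x := by
        rintro x (hx | hx)
        · exact ((hEmem x).1 hx.1).2.le
        · exact le_of_eq hx.symm
      refine ⟨(E \ A) ∪ {p}, ⟨Or.inr rfl, hge, ?_, ?_, ?_⟩, ?_, ?_, ?_⟩
      · rintro x (hx | hx) y hpy hyx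
        · rcases lt_or_eq_of_le hpy with h | h
          · have hyE : y ∈ E := (hEmem y).2 ⟨hCd x ((hEmem x).1 hx.1).1 y hyx, h⟩
            exact Or.inl ⟨hyE, fun hyA => hx.2 (hAF.2.2.2 y hyA x hx.1 hyx)⟩
          · exact Or.inr h.symm
        · rw [mem_singleton_iff] at hx
          rw [hx] at hyx
          exact Or.inr (le_antisymm hyx hpy)
      · have : Iio p ∪ ((E \ A) ∪ {p}) = (Iio b ∩ C) ∪ (E \ A) := by
          have hpb : p < b := ((hEmem b).1 hbE).2
          ext x
          constructor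
          · rintro (h | h | h)
            · exact Or.inl ⟨lt_trans h hpb, hCd p hpC x (le_of_lt h)⟩
            · exact Or.inr h
            · rw [mem_singleton_iff] at h
              rw [h]; exact Or.inl ⟨hpb, hpC⟩
          · rintro (⟨h1, h2⟩ | h)
            · rcases lt_trichotomy x p with h' | h' | h'
              · exact Or.inl h'
              · exact Or.inr (Or.inr h')
              · exact Or.inr (Or.inl ⟨(hEmem x).2 ⟨h2, h'⟩,
                  fun hxA => hbA (hAF.2.2.2 x hxA b hbE (le_of_lt h1))⟩)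
            · exact Or.inr (Or.inl h)
        rw [this]
        exact ((hGO.iio b).inter hC).union hAF.2.2.1
      · have : Ici p \ ((E \ A) ∪ {p}) = (Ioi p ∩ Cᶜ) ∪ A := by
          ext x
          constructor
          · rintro ⟨h1, h2⟩
            have hpx : p < x := lt_of_le_of_ne h1 fun h => h2 (Or.inr h.symm)
            by_cases hxC : x ∈ C
            · refine Or.inr ?_
              by_contra hxA
              exact h2 (Or.inl ⟨(hEmem x).2 ⟨hxC, hpx⟩, hxA⟩)
            · exact Or.inl ⟨hpx, hxC⟩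
          · rintro (⟨h1, h2⟩ | h)
            · refine ⟨le_of_lt h1, ?_⟩
              rintro (h | h)
              · exact h2 ((hEmem x).1 h.1).1
              · rw [mem_singleton_iff] at h
                rw [h] at h1
                exact lt_irrefl _ h1
            · have hxE := (hEmem x).1 (hAF.1 h)
              refine ⟨le_of_lt hxE.2, ?_⟩
              rintro (h' | h')
              · exact h'.2 h
              · rw [mem_singleton_iff] at h'
                rw [h'] at hxE
                exact lt_irrefl _ hxE.2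
        rw [this]
        exact ((hGO.ioi p).inter hCc).union hAF.2.1
      · rintro x (hx | hx)
        · exact (hVsub (hEV hx.1)).1
        · rw [mem_singleton_iff] at hx
          rw [hx]; exact hpV₀
      · refine ⟨flp (fun x y => x < y), hFLIP Y _ _ (hGOC Y hGO _ hcomp), ?_⟩
        intro x hx hxp
        exact lt_of_le_of_ne (hge x hx) fun h => hxp h.symm
      · intro h
        exact absurd hcomp h

end Pool.Agent.W651.SO
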