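import Pool.Agent.W651.SO.Stm

/-!
Project SO (helper651), frozen S13257: the limit point `p` and compactness at `p`.
(Proofs formalised by helper790.)
-/

set_option autoImplicit false

namespace Pool.Agent.W651.SO

open Set

/-- adding the limit point `p` (with the empty relation on `{p}`) -/
def PropKPL2 : Prop := ∀ (Y : Type) [TopologicalSpace Y] [LinearOrder Y], GO Y →
  ∀ (E : Set Y) (p : Y) (r : Y → Y → Prop), IsOpen E → (∀ x ∈ E, p < x) →
  (∀ O : Set Y, IsOpen O → p ∈ O → ∃ y ∈ O, y ∈ E) → Lo E r →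
  (∀ x ∈ E, ∃ A : Set Y, FSeg E A ∧ A ≠ E ∧ x ∈ A ∧ ∀ a ∈ A, ∀ b ∈ E, b ∉ A → r a b) →
  Lo (E ∪ {p}) (cat E {p} r (fun _ _ => False))

/-- an element of `E` outside a proper final segment -/
theorem exists_not_mem_of_fseg {Y : Type} [TopologicalSpace Y] [LinearOrder Y] {E A : Set Y}
    (hA : FSeg E A) (hne : A ≠ E) : ∃ a ∈ E, a ∉ A := by
  by_contra hcon
  push Not at hcon
  exact hne (Subset.antisymm hA.1 hcon)

theorem kpl (hLIM : PropLIM) : PropKPL2 := by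
  intro Y _ _ hGO E p r hE hp hlim hr hcompat
  refine hLIM Y E {p} r (fun _ _ => False) p hE ?_ rfl hr ?_ ?_ ?_ ?_ ?_
  · rw [Set.disjoint_singleton_right]
    intro h
    exact lt_irrefl p (hp p h)
  · refine ⟨fun _ _ h => h, fun _ _ _ _ _ _ h _ => h, ?_, fun _ _ _ _ h => h.elim,
      fun _ _ _ _ h => h.elim, fun _ _ _ _ _ => Or.inr fun _ _ h => h.elim,
      fun _ _ _ _ _ => Or.inr fun _ _ h => h.elim⟩
    intro x hx y hy hxy
    exact absurd (hx.trans hy.symm) hxy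
  · intro x hx hxp
    exact absurd hx hxp
  · intro x hx hxp
    exact absurd hx hxp
  · intro O hO hpO
    obtain ⟨V, hV, hpV, hVO, hVc⟩ := hGO.cvx p O hO hpO
    obtain ⟨y, hyV, hyE⟩ := hlim V hV hpV
    obtain ⟨A, hA, hAE, hyA, hcomp⟩ := hcompat y hyE
    obtain ⟨a, haE, haA⟩ := exists_not_mem_of_fseg hA hAE
    refine ⟨a, haE, fun z hz haz => ?_⟩
    have hzA : z ∉ A := fun h =>
      hr.irrefl a haE (hr.trans a haE z hz a haE haz (hcomp z h a haE haA))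
    have hzy : z < y := by
      by_contra hc
      exact hzA (hA.2.2.2 y hyA z hz (not_lt.1 hc))
    exact hVO (hVc p hpV y hyV z (hp z hz).le hzy.le)
  · intro a ha
    obtain ⟨A, hA, hAE, haA, hcomp⟩ := hcompat a ha
    obtain ⟨b, hbE, hbA⟩ := exists_not_mem_of_fseg hA hAE
    refine ⟨Iio b, hGO.iio b, hp b hbE, fun z hz hzE => ?_⟩
    exact hcomp a haA z hzE fun h => hbA (hA.2.2.2 z h b hbE (le_of_lt hz))

theorem kpc (hCUT : PropCUT) : PropKPC := by
  intro Y _ _ hGO hS C₀ E A p hC hC' hCd hpC hE hlim hA hAE hcomp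
  have hEo : IsOpen E := by rw [hE]; exact hC.inter (hGO.ioi p)
  obtain ⟨b, hbE, hbA⟩ := exists_not_mem_of_fseg hA hAE
  have hpb : p < b := by rw [hE] at hbE; exact hbE.2
  refine isCompact_of_finite_subcover fun {ι} U hU hcov => ?_
  obtain ⟨i₀, hi₀⟩ := mem_iUnion.1 (hcov (Or.inr rfl))
  obtain ⟨V, hV, hpV, hVO, hVc⟩ := hGO.cvx p (U i₀ ∩ (C₀ ∩ Iio b))
    ((hU i₀).inter (hC.inter (hGO.iio b))) ⟨hi₀, hpC, hpb⟩
  obtain ⟨y, hyV, hpy⟩ := hlim V hV hpV
  have hyb : y < b := (hVO hyV).2.2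
  obtain ⟨C, hCo, hCc, hCdn, hpC1, hyC⟩ := hCUT Y hGO hS p y hpy
  have hEA : ∀ x ∈ E, x < b → x ∉ A := fun x hx hxb h => hbA (hA.2.2.2 x h b hbE hxb.le)
  have hK : IsCompact ((A ∪ (E ∩ Cᶜ)) \ A) := by
    apply hcomp
    · refine ⟨union_subset hA.1 inter_subset_left, hA.2.1.union (hEo.inter hCc), ?_, ?_⟩
      · have h1 : E \ (A ∪ (E ∩ Cᶜ)) = (E \ A) ∩ C := by
          ext x
          constructor
          · rintro ⟨h1, h2⟩
            refine ⟨⟨h1, fun h => h2 (Or.inl h)⟩, ?_⟩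
            by_contra h
            exact h2 (Or.inr ⟨h1, h⟩)
          · rintro ⟨⟨h1, h2⟩, h3⟩
            refine ⟨h1, ?_⟩
            rintro (h | h)
            · exact h2 h
            · exact h.2 h3
        rw [h1]
        exact hA.2.2.1.inter hCo
      · rintro x (hx | hx) z hz hxz
        · exact Or.inl (hA.2.2.2 x hx z hz hxz)
        · exact Or.inr ⟨hz, fun h => hx.2 (hCdn z h x hxz)⟩
    · intro heq
      obtain ⟨w, hw, hpw⟩ := hlim (C ∩ (Iio y ∩ C₀)) (hCo.inter ((hGO.iio y).inter hC))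
        ⟨hpC1, hpy, hpC⟩
      have hwE : w ∈ E := by rw [hE]; exact ⟨hw.2.2, hpw⟩
      have h1 : w ∈ A ∪ (E ∩ Cᶜ) := by rw [heq]; exact hwE
      rcases h1 with h1 | h1
      · exact hEA w hwE (lt_trans hw.2.1 hyb) h1
      · exact h1.2 hw.1
    · exact subset_union_left
  have hsub : (A ∪ (E ∩ Cᶜ)) \ A ⊆ ⋃ i, U i := by
    refine Subset.trans ?_ hcov
    rintro x ⟨hx | hx, hxA⟩
    · exact absurd hx hxA
    · exact Or.inl ⟨hx.1, hxA⟩
  obtain ⟨t, ht⟩ := hK.elim_finite_subcover U hU hsub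
  classical
  refine ⟨insert i₀ t, ?_⟩
  rintro x (⟨hxE, hxA⟩ | hx)
  · by_cases hxC : x ∈ C
    · have hpx : p < x := by rw [hE] at hxE; exact hxE.2
      have hxy : x < y := by
        by_contra hc
        exact hyC (hCdn x hxC y (not_lt.1 hc))
      refine mem_iUnion₂.2 ⟨i₀, Finset.mem_insert_self _ _, ?_⟩
      exact (hVO (hVc p hpV y hyV x hpx.le hxy.le)).1
    · obtain ⟨i, hi, hxi⟩ := mem_iUnion₂.1 (ht ⟨Or.inr ⟨hxE, hxC⟩, hxA⟩)
      exact mem_iUnion₂.2 ⟨i, Finset.mem_insert_of_mem hi, hxi⟩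
  · rw [mem_singleton_iff] at hx
    subst hx
    exact mem_iUnion₂.2 ⟨i₀, Finset.mem_insert_self _ _, hi₀⟩

end Pool.Agent.W651.SO
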