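import Pool.Agent.W651.SO.Stm

set_option autoImplicit false

namespace Pool.Agent.W651.SO

open Set

namespace LgAux

section
variable {Y : Type} [TopologicalSpace Y] [LinearOrder Y]

theorem ici_open (hGO : GO Y) {z : Y} (hz : IsOpen ({z} : Set Y)) : IsOpen (Ici z) := by
  have h : Ici z = {z} ∪ Ioi z := by
    ext x
    simp only [mem_Ici, mem_union, mem_singleton_iff, mem_Ioi]
    constructor
    · intro h
      rcases eq_or_lt_of_le h with h | h
      · exact Or.inl h.symm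
      · exact Or.inr h
    · rintro (h | h)
      · exact h.ge
      · exact h.le
  rw [h]
  exact hz.union (hGO.ioi z)

theorem iic_open (hGO : GO Y) {z : Y} (hz : IsOpen ({z} : Set Y)) : IsOpen (Iic z) := by
  have h : Iic z = {z} ∪ Iio z := by
    ext x
    simp only [mem_Iic, mem_union, mem_singleton_iff, mem_Iio]
    constructor
    · intro h
      exact eq_or_lt_of_le h
    · rintro (h | h)
      · exact h.le
      · exact h.le
  rw [h]
  exact hz.union (hGO.iio z)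

theorem iso (hS : Scat Y) {E : Set Y} (hE : IsOpen E) (hne : E.Nonempty) :
    ∃ z ∈ E, IsOpen ({z} : Set Y) := by
  obtain ⟨z, hz, U, hU, hUE⟩ := hS E hne
  exact ⟨z, hz, hUE ▸ hU.inter hE⟩

/-- an open convex set any two points of which lie in a good set -/
theorem cls (hSUM : PropSUM) (hHALF : PropHALF) (hHALFD : PropHALFD) (hGO : GO Y) (hS : Scat Y)
    (E : Set Y) (hE : IsOpen E) (hC : Cvx E) (hne : E.Nonempty)
    (hg : ∀ x ∈ E, ∀ y ∈ E, ∃ G : Set Y, Good G ∧ x ∈ G ∧ y ∈ G) : St E := by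
  obtain ⟨z, hzE, hz⟩ := iso hS hE hne
  have hR : St (E ∩ Ici z) := by
    refine hHALF Y hGO hS _ z (hE.inter (ici_open hGO hz)) ?_ ⟨hzE, le_refl z⟩ hz
      (fun x hx => hx.2) ?_
    · intro a ha b hb c hac hcb
      exact ⟨hC a ha.1 b hb.1 c hac hcb, le_trans ha.2 hac⟩
    · intro y hy
      exact hg z hzE y hy.1
  by_cases hL : (E ∩ Iio z).Nonempty
  · obtain ⟨z1, hz1L, hz1⟩ := iso hS (hE.inter (hGO.iio z)) hL
    have hL1 : St (E ∩ Iic z1) := by
      refine hHALFD Y hGO hS _ z1 (hE.inter (iic_open hGO hz1)) ?_ ⟨hz1L.1, le_refl z1⟩ hz1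
        (fun x hx => hx.2) ?_
      · intro a ha b hb c hac hcb
        exact ⟨hC a ha.1 b hb.1 c hac hcb, le_trans hcb hb.2⟩
      · intro y hy
        exact hg z1 hz1L.1 y hy.1
    have hM : St (E ∩ (Ioi z1 ∩ Iio z)) := by
      obtain ⟨G, hG, h1, h2⟩ := hg z1 hz1L.1 z hzE
      refine hG.2.2.1 _ ?_ (hE.inter ((hGO.ioi z1).inter (hGO.iio z))) ?_
      · intro c hc
        exact hG.2.1 z1 h1 z h2 c (le_of_lt hc.2.1) (le_of_lt hc.2.2)
      · intro a ha b hb c hac hcb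
        exact ⟨hC a ha.1 b hb.1 c hac hcb, lt_of_lt_of_le ha.2.1 hac, lt_of_le_of_lt hcb hb.2.2⟩
    have hz1z : z1 < z := hz1L.2
    let Z : Fin 3 → Set Y := ![E ∩ Iic z1, E ∩ (Ioi z1 ∩ Iio z), E ∩ Ici z]
    have hU : E = ⋃ i, Z i := by
      ext x
      rw [mem_iUnion]
      constructor
      · intro hx
        rcases le_or_gt x z1 with h | h
        · exact ⟨0, hx, h⟩
        · rcases lt_or_ge x z with h' | h'
          · exact ⟨1, hx, h, h'⟩
          · exact ⟨2, hx, h'⟩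
      · rintro ⟨i, hi⟩
        fin_cases i
        · exact hi.1
        · exact hi.1
        · exact hi.1
    have h01 : Disjoint (E ∩ Iic z1) (E ∩ (Ioi z1 ∩ Iio z)) := by
      rw [Set.disjoint_left]
      rintro x ⟨_, h1⟩ ⟨_, h2, _⟩
      exact absurd h2 (not_lt.mpr h1)
    have h02 : Disjoint (E ∩ Iic z1) (E ∩ Ici z) := by
      rw [Set.disjoint_left]
      rintro x ⟨_, h1⟩ ⟨_, h2⟩
      exact absurd (lt_of_le_of_lt h1 hz1z) (not_lt.mpr h2)
    have h12 : Disjoint (E ∩ (Ioi z1 ∩ Iio z)) (E ∩ Ici z) := by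
      rw [Set.disjoint_left]
      rintro x ⟨_, _, h1⟩ ⟨_, h2⟩
      exact absurd h1 (not_lt.mpr h2)
    rw [hU]
    refine hSUM Y (Fin 3) Z hS ?_ ?_ ?_
    · intro i
      fin_cases i
      · exact hE.inter (iic_open hGO hz1)
      · exact hE.inter ((hGO.ioi z1).inter (hGO.iio z))
      · exact hE.inter (ici_open hGO hz)
    · intro i j hij
      fin_cases i <;> fin_cases j
      · exact absurd rfl hij
      · exact h01
      · exact h02
      · exact h01.symm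
      · exact absurd rfl hij
      · exact h12
      · exact h02.symm
      · exact h12.symm
      · exact absurd rfl hij
    · intro i
      fin_cases i
      · exact hL1
      · exact hM
      · exact hR
  · have h : E ∩ Ici z = E := by
      apply inter_eq_left.mpr
      intro x hx
      by_contra hc
      exact hL ⟨x, hx, not_le.mp hc⟩
    rwa [h] at hR

end

end LgAux

open LgAux in
/-- from local to global -/
theorem lg : PropSUM → PropGUN → PropHALF → PropHALFD → PropLG := by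
  intro hSUM hGUN hHALF hHALFD Y _ _ hGO hS C hCo hCc hC
  set E : Y → Set Y := fun x => {y | y ∈ C ∧ ∃ G : Set Y, Good G ∧ x ∈ G ∧ y ∈ G} with hEdef
  have hmem : ∀ x y : Y, y ∈ E x ↔ y ∈ C ∧ ∃ G : Set Y, Good G ∧ x ∈ G ∧ y ∈ G := fun x y => Iff.rfl
  have hself : ∀ x ∈ C, x ∈ E x := by
    intro x hx
    obtain ⟨G, hG, hxG⟩ := hC x hx
    exact ⟨hx, G, hG, hxG, hxG⟩
  have hopen : ∀ x, IsOpen (E x) := by
    intro x
    rw [isOpen_iff_forall_mem_open]
    rintro y ⟨hyC, G, hG, hxG, hyG⟩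
    exact ⟨G ∩ C, fun w hw => ⟨hw.2, G, hG, hxG, hw.1⟩, hG.1.inter hCo, hyG, hyC⟩
  -- two elements of a class are in a common good set
  have hpair : ∀ x, ∀ y ∈ E x, ∀ y' ∈ E x, ∃ G : Set Y, Good G ∧ x ∈ G ∧ y ∈ G ∧ y' ∈ G := by
    rintro x y ⟨_, G, hG, hxG, hyG⟩ y' ⟨_, H, hH, hxH, hyH⟩
    exact ⟨G ∪ H, hGUN Y hGO hS G H hG hH ⟨x, hxG, hxH⟩, Or.inl hxG, Or.inl hyG, Or.inr hyH⟩
  have hcvx : ∀ x, Cvx (E x) := by
    intro x a ha b hb c hac hcb
    obtain ⟨G, hG, hxG, haG, hbG⟩ := hpair x a ha b hb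
    exact ⟨hCc a ha.1 b hb.1 c hac hcb, G, hG, hxG, hG.2.1 a haG b hbG c hac hcb⟩
  have hSt : ∀ x ∈ C, St (E x) := by
    intro x hx
    refine cls hSUM hHALF hHALFD hGO hS (E x) (hopen x) (hcvx x) ⟨x, hself x hx⟩ ?_
    intro y hy y' hy'
    obtain ⟨G, hG, _, h1, h2⟩ := hpair x y hy y' hy'
    exact ⟨G, hG, h1, h2⟩
  have hsub : ∀ x x' y, y ∈ E x → y ∈ E x' → E x ⊆ E x' := by
    rintro x x' y hy ⟨_, H, hH, hxH, hyH⟩ w hw
    obtain ⟨G, hG, _, h1, h2⟩ := hpair x y hy w hw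
    exact ⟨hw.1, H ∪ G, hGUN Y hGO hS H G hH hG ⟨y, hyH, h1⟩, Or.inl hxH, Or.inr h2⟩
  have hU : C = ⋃ i : {S : Set Y // ∃ x ∈ C, S = E x}, i.1 := by
    ext y
    rw [mem_iUnion]
    constructor
    · intro hy
      exact ⟨⟨E y, y, hy, rfl⟩, hself y hy⟩
    · rintro ⟨⟨S, x, hx, rfl⟩, hi⟩
      exact hi.1
  rw [hU]
  refine hSUM Y {S : Set Y // ∃ x ∈ C, S = E x} (fun i => i.1) hS ?_ ?_ ?_
  · rintro ⟨S, x, hx, rfl⟩
    exact hopen x
  · rintro ⟨S, x, hx, rfl⟩ ⟨S', x', hx', rfl⟩ hij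
    rw [Set.disjoint_left]
    intro y hy hy'
    apply hij
    rw [Subtype.mk.injEq]
    exact Subset.antisymm (hsub x x' y hy hy') (hsub x' x y hy' hy)
  · rintro ⟨S, x, hx, rfl⟩
    exact hSt x hx

end Pool.Agent.W651.SO
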