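import Pool.Agent.W651.SO.Stm

set_option autoImplicit false

/-!
# SO-LIM: gluing at a limit point (helper571)
-/

namespace Pool.Agent.W651.SO

open Set

theorem lim : PropLIM := by
  intro Y _ U D r s q hU hUD hq hr hs hmin hsep hlim hup
  have hnD : ∀ x, x ∈ U → x ∉ D := fun x hx hx' => Set.disjoint_left.1 hUD hx hx'
  have hnU : ∀ x, x ∈ D → x ∉ U := fun x hx hx' => Set.disjoint_left.1 hUD hx' hx
  have uu : ∀ x y, x ∈ U → y ∈ U → (cat U D r s x y ↔ r x y) := by
    intro x y hx hy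
    constructor
    · rintro (⟨-, -, h⟩ | ⟨h, -, -⟩ | ⟨-, h⟩)
      · exact h
      · exact absurd h (hnD x hx)
      · exact absurd h (hnD y hy)
    · intro h; exact Or.inl ⟨hx, hy, h⟩
  have dd : ∀ x y, x ∈ D → y ∈ D → (cat U D r s x y ↔ s x y) := by
    intro x y hx hy
    constructor
    · rintro (⟨h, -, -⟩ | ⟨-, -, h⟩ | ⟨h, -⟩)
      · exact absurd h (hnU x hx)
      · exact h
      · exact absurd h (hnU x hx)
    · intro h; exact Or.inr (Or.inl ⟨hx, hy, h⟩)
  have ud : ∀ x y, x ∈ U → y ∈ D → cat U D r s x y := fun x y hx hy => Or.inr (Or.inr ⟨hx, hy⟩)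
  have du : ∀ x y, x ∈ D → y ∈ U → ¬ cat U D r s x y := by
    rintro x y hx hy (⟨h, -, -⟩ | ⟨-, h, -⟩ | ⟨h, -⟩)
    · exact hnU x hx h
    · exact hnU y h hy
    · exact hnU x hx h
  -- nothing in `D` is below `q`
  have hqm : ∀ z ∈ D, ¬ s z q := by
    intro z hz h
    by_cases e : z = q
    · rw [e] at h; exact hs.irrefl q hq h
    · exact hs.irrefl q hq (hs.trans q hq z hz q hq (hmin z hz e) h)
  refine ⟨?_, ?_, ?_, ?_, ?_, ?_, ?_⟩
  · -- irrefl
    rintro x (hx | hx) h
    · exact hr.irrefl x hx ((uu x x hx hx).1 h)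
    · exact hs.irrefl x hx ((dd x x hx hx).1 h)
  · -- trans
    rintro x (hx | hx) y (hy | hy) z (hz | hz) h1 h2
    · exact (uu x z hx hz).2 (hr.trans x hx y hy z hz ((uu x y hx hy).1 h1) ((uu y z hy hz).1 h2))
    · exact ud x z hx hz
    · exact absurd h2 (du y z hy hz)
    · exact ud x z hx hz
    · exact absurd h1 (du x y hx hy)
    · exact absurd h1 (du x y hx hy)
    · exact absurd h2 (du y z hy hz)
    · exact (dd x z hx hz).2 (hs.trans x hx y hy z hz ((dd x y hx hy).1 h1) ((dd y z hy hz).1 h2))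
  · -- total
    rintro x (hx | hx) y (hy | hy) hne
    · rcases hr.total x hx y hy hne with h | h
      · exact Or.inl ((uu x y hx hy).2 h)
      · exact Or.inr ((uu y x hy hx).2 h)
    · exact Or.inl (ud x y hx hy)
    · exact Or.inr (ud y x hy hx)
    · rcases hs.total x hx y hy hne with h | h
      · exact Or.inl ((dd x y hx hy).2 h)
      · exact Or.inr ((dd y x hy hx).2 h)
  · -- lower
    rintro x (hx | hx) y (hy | hy) h
    · obtain ⟨O, hO, hyO, hO'⟩ := hr.lower x hx y hy ((uu y x hy hx).1 h)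
      refine ⟨O ∩ U, hO.inter hU, ⟨hyO, hy⟩, ?_⟩
      rintro z ⟨hz, hzU⟩ -
      exact (uu z x hzU hx).2 (hO' z hz hzU)
    · exact absurd h (du y x hy hx)
    · exact ⟨U, hU, hy, fun z hz _ => ud z x hz hx⟩
    · obtain ⟨O, hO, hyO, hO'⟩ := hs.lower x hx y hy ((dd y x hy hx).1 h)
      refine ⟨O, hO, hyO, ?_⟩
      rintro z hz (hzU | hzD)
      · exact ud z x hzU hx
      · exact (dd z x hzD hx).2 (hO' z hz hzD)
  · -- upper
    rintro x (hx | hx) y (hy | hy) h
    · obtain ⟨O, hO, hyO, hO'⟩ := hr.upper x hx y hy ((uu x y hx hy).1 h)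
      refine ⟨O ∩ U, hO.inter hU, ⟨hyO, hy⟩, ?_⟩
      rintro z ⟨hz, hzU⟩ -
      exact (uu x z hx hzU).2 (hO' z hz hzU)
    · by_cases e : y = q
      · subst e
        obtain ⟨O, hO, hyO, hO'⟩ := hup x hx
        refine ⟨O, hO, hyO, ?_⟩
        rintro z hz (hzU | hzD)
        · exact (uu x z hx hzU).2 (hO' z hz hzU)
        · exact ud x z hx hzD
      · obtain ⟨O, hO, hyO, hO'⟩ := hsep y hy e
        refine ⟨O, hO, hyO, ?_⟩
        rintro z hz (hzU | hzD)
        · exact absurd hzU (Set.disjoint_left.1 hO' hz)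
        · exact ud x z hx hzD
    · exact absurd h (du x y hx hy)
    · have hxy := (dd x y hx hy).1 h
      have e : y ≠ q := by
        intro e; rw [e] at hxy; exact hqm x hx hxy
      obtain ⟨O₁, hO₁, hyO₁, hO₁'⟩ := hsep y hy e
      obtain ⟨O₂, hO₂, hyO₂, hO₂'⟩ := hs.upper x hx y hy hxy
      refine ⟨O₁ ∩ O₂, hO₁.inter hO₂, ⟨hyO₁, hyO₂⟩, ?_⟩
      rintro z ⟨hz1, hz2⟩ (hzU | hzD)
      · exact absurd hzU (Set.disjoint_left.1 hO₁' hz1)
      · exact (dd x z hx hzD).2 (hO₂' z hz2 hzD)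
  · -- left
    rintro x (hx | hx) O hO hxO
    · rcases hr.left x hx O hO hxO with ⟨a, ha, hax, h⟩ | h
      · refine Or.inl ⟨a, Or.inl ha, (uu a x ha hx).2 hax, ?_⟩
        rintro z (hz | hz) h1 h2
        · exact h z hz ((uu a z ha hz).1 h1) ((uu z x hz hx).1 h2)
        · exact absurd h2 (du z x hz hx)
      · refine Or.inr ?_
        rintro z (hz | hz) h1
        · exact h z hz ((uu z x hz hx).1 h1)
        · exact absurd h1 (du z x hz hx)
    · by_cases e : x = q
      · subst e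
        obtain ⟨a, ha, h⟩ := hlim O hO hxO
        refine Or.inl ⟨a, Or.inl ha, ud a x ha hx, ?_⟩
        rintro z (hz | hz) h1 h2
        · exact h z hz ((uu a z ha hz).1 h1)
        · exact absurd ((dd z x hz hx).1 h2) (hqm z hz)
      · rcases hs.left x hx O hO hxO with ⟨a, ha, hax, h⟩ | h
        · refine Or.inl ⟨a, Or.inr ha, (dd a x ha hx).2 hax, ?_⟩
          rintro z (hz | hz) h1 h2
          · exact absurd h1 (du a z ha hz)
          · exact h z hz ((dd a z ha hz).1 h1) ((dd z x hz hx).1 h2)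
        · refine Or.inl ⟨q, Or.inr hq, (dd q x hq hx).2 (hmin x hx e), ?_⟩
          rintro z (hz | hz) h1 h2
          · exact absurd h1 (du q z hq hz)
          · exact h z hz ((dd z x hz hx).1 h2)
  · -- right
    rintro x (hx | hx) O hO hxO
    · rcases hr.right x hx O hO hxO with ⟨b, hb, hxb, h⟩ | h
      · refine Or.inl ⟨b, Or.inl hb, (uu x b hx hb).2 hxb, ?_⟩
        rintro z (hz | hz) h1 h2
        · exact h z hz ((uu x z hx hz).1 h1) ((uu z b hz hb).1 h2)
        · exact absurd h2 (du z b hz hb)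
      · refine Or.inl ⟨q, Or.inr hq, ud x q hx hq, ?_⟩
        rintro z (hz | hz) h1 h2
        · exact h z hz ((uu x z hx hz).1 h1)
        · exact absurd ((dd z q hz hq).1 h2) (hqm z hz)
    · rcases hs.right x hx O hO hxO with ⟨b, hb, hxb, h⟩ | h
      · refine Or.inl ⟨b, Or.inr hb, (dd x b hx hb).2 hxb, ?_⟩
        rintro z (hz | hz) h1 h2
        · exact absurd h1 (du x z hx hz)
        · exact h z hz ((dd x z hx hz).1 h1) ((dd z b hz hb).1 h2)
      · refine Or.inr ?_
        rintro z (hz | hz) h1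
        · exact absurd h1 (du x z hx hz)
        · exact h z hz ((dd x z hx hz).1 h1)

end Pool.Agent.W651.SO
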