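import Pool.Agent.W651.SO.Stm

set_option autoImplicit false

/-! SO-SNC: sums of noncompact pieces. -/

namespace Pool.Agent.W651.SO

open Set

namespace Aux_snc

theorem ext_trans {Y : Type} {P Q R : Set Y × (Y → Y → Prop)} (h1 : Ext P Q) (h2 : Ext Q R) :
    Ext P R := by
  obtain ⟨a1, a2, a3⟩ := h1
  obtain ⟨b1, b2, b3⟩ := h2
  refine ⟨a1.trans b1, ?_, ?_⟩
  · intro x hx y hy
    exact (a2 x hx y hy).trans (b2 x (a1 hx) y (a1 hy))
  · intro x hx y hy hyn
    by_cases hq : y ∈ Q.1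
    · exact (b2 x (a1 hx) y hq).1 (a3 x hx y hq hyn)
    · exact b3 x (a1 hx) y hy hq

theorem ext_refl {Y : Type} (P : Set Y × (Y → Y → Prop)) : Ext P P :=
  ⟨Subset.rfl, fun _ _ _ _ => Iff.rfl, fun _ _ y hy hyn => absurd hy hyn⟩

theorem key (hGLUE : PropGLUE) (hCHN : PropCHN) (Y : Type) [TopologicalSpace Y] (ι : Type)
    (Z : ι → Set Y) (hop : ∀ i, IsOpen (Z i)) (hdis : ∀ i j, i ≠ j → Disjoint (Z i) (Z j))
    (hSt : ∀ i, St (Z i)) (hnc : ∀ i, ¬ IsCompact (Z i)) (i₀ : ι) (r₀ : Y → Y → Prop)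
    (hr₀ : Lo (Z i₀) r₀) :
    ∃ r : Y → Y → Prop, Lo (⋃ i, Z i) r ∧ (HasMin (⋃ i, Z i) r ↔ HasMin (Z i₀) r₀) := by
  classical
  have hne : ∀ i, (Z i).Nonempty := by
    intro i
    by_contra h
    rw [Set.not_nonempty_iff_eq_empty] at h
    apply hnc i
    rw [h]; exact isCompact_empty
  set S : Set (Set Y × (Y → Y → Prop)) := {P | IsOpen P.1 ∧ P.1 ⊆ (⋃ i, Z i) ∧
    (∀ i, Z i ⊆ P.1 ∨ Disjoint (Z i) P.1) ∧ Lo P.1 P.2 ∧ Ext (Z i₀, r₀) P} with hS
  have h0 : (Z i₀, r₀) ∈ S := by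
    refine ⟨hop i₀, Set.subset_iUnion Z i₀, ?_, hr₀, ext_refl _⟩
    intro i
    by_cases h : i = i₀
    · subst h; exact Or.inl Subset.rfl
    · exact Or.inr (hdis i i₀ h)
  obtain ⟨m, hm⟩ := exists_maximal_of_chains_bounded
    (α := {P // P ∈ S}) (r := fun a b => Ext a.1 b.1) (by
      intro c hc
      by_cases hcne : c.Nonempty
      · obtain ⟨P₀, hP₀⟩ := hcne
        set c' : Set (Set Y × (Y → Y → Prop)) := Subtype.val '' c with hc'
        have htot : ∀ P ∈ c', ∀ Q ∈ c', Ext P Q ∨ Ext Q P := by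
          rintro _ ⟨P, hP, rfl⟩ _ ⟨Q, hQ, rfl⟩
          by_cases hPQ : P = Q
          · subst hPQ; exact Or.inl (ext_refl _)
          · exact hc hP hQ hPQ
        by_cases hmax : ∃ P ∈ c', P.1 = USet c'
        · obtain ⟨_, ⟨P, hP, rfl⟩, hPU⟩ := hmax
          refine ⟨P, ?_⟩
          intro Q hQ
          rcases htot P.1 ⟨P, hP, rfl⟩ Q.1 ⟨Q, hQ, rfl⟩ with h | h
          · have heq : Q.1.1 = P.1.1 := by
              apply Subset.antisymm
              · rw [hPU]
                intro x hx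
                exact ⟨Q.1, ⟨Q, hQ, rfl⟩, hx⟩
              · exact h.1
            refine ⟨heq.le, ?_, ?_⟩
            · intro x hx y hy
              rw [heq] at hx hy
              exact (h.2.1 x hx y hy).symm
            · intro x hx y hy hyn
              rw [heq] at hyn
              exact absurd hy hyn
          · exact h
        · push Not at hmax
          obtain ⟨hLo, hExt⟩ := hCHN Y c' (by
            rintro _ ⟨P, hP, rfl⟩
            exact ⟨P.2.1, P.2.2.2.2.1⟩) htot hmax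
          refine ⟨⟨(USet c', URel c'), ?_⟩, ?_⟩
          · refine ⟨?_, ?_, ?_, hLo, ?_⟩
            · rw [isOpen_iff_forall_mem_open]
              rintro x ⟨P, hP, hx⟩
              refine ⟨P.1, fun y hy => ⟨P, hP, hy⟩, ?_, hx⟩
              obtain ⟨P', hP', rfl⟩ := hP
              exact P'.2.1
            · rintro x ⟨_, ⟨P, hP, rfl⟩, hx⟩
              exact P.2.2.1 hx
            · intro i
              by_cases h : ∃ P ∈ c, Z i ⊆ P.1.1
              · obtain ⟨P, hP, hi⟩ := h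
                left
                intro x hx
                exact ⟨P.1, ⟨P, hP, rfl⟩, hi hx⟩
              · push Not at h
                right
                rw [Set.disjoint_left]
                rintro x hx ⟨_, ⟨P, hP, rfl⟩, hxP⟩
                rcases P.2.2.2.1 i with h' | h'
                · exact h P hP h'
                · exact (Set.disjoint_left.1 h') hx hxP
            · exact ext_trans P₀.2.2.2.2.2 (hExt P₀.1 ⟨P₀, hP₀, rfl⟩)
          · intro P hP
            exact hExt P.1 ⟨P, hP, rfl⟩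
      · refine ⟨⟨_, h0⟩, ?_⟩
        intro a ha
        exact absurd ⟨a, ha⟩ hcne) (fun h1 h2 => ext_trans h1 h2)
  obtain ⟨⟨W, r⟩, hWopen, hWsub, hWdich, hWLo, hWExt⟩ := m
  simp only at hWopen hWsub hWdich hWLo
  have hall : ∀ i, Z i ⊆ W := by
    intro i
    rcases hWdich i with h | h
    · exact h
    exfalso
    have hs : ∃ s : Y → Y → Prop, Lo (Z i) s ∧ (HasMax W r ↔ HasMin (Z i) s) := by
      obtain ⟨⟨s1, hs1, hs1'⟩, ⟨s2, hs2, hs2'⟩⟩ := (hSt i).2 (hnc i)
      by_cases hx : HasMax W r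
      · exact ⟨s1, hs1, ⟨fun _ => hs1', fun _ => hx⟩⟩
      · exact ⟨s2, hs2, ⟨fun h' => absurd h' hx, fun h' => absurd h' hs2'⟩⟩
    obtain ⟨s, hsLo, hsiff⟩ := hs
    have hWne : W.Nonempty := (hne i₀).mono hWExt.1
    have hgl := hGLUE Y W (Z i) r s hWopen (hop i) h.symm hWLo hsLo hWne (hne i) hsiff
    have hE : Ext (W, r) (W ∪ Z i, cat W (Z i) r s) := by
      refine ⟨Set.subset_union_left, ?_, ?_⟩
      · intro x hx y hy
        have hx' : x ∉ Z i := fun h' => (Set.disjoint_left.1 h) h' hx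
        have hy' : y ∉ Z i := fun h' => (Set.disjoint_left.1 h) h' hy
        constructor
        · intro hr
          exact Or.inl ⟨hx, hy, hr⟩
        · rintro (⟨_, _, hr⟩ | ⟨h1, _, _⟩ | ⟨_, h2⟩)
          · exact hr
          · exact absurd h1 hx'
          · exact absurd h2 hy'
      · intro x hx y hy hyn
        rcases hy with hy | hy
        · exact absurd hy hyn
        · exact Or.inr (Or.inr ⟨hx, hy⟩)
    have hmem : (W ∪ Z i, cat W (Z i) r s) ∈ S := by
      refine ⟨hWopen.union (hop i), Set.union_subset hWsub (Set.subset_iUnion Z i), ?_, hgl,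
        ext_trans hWExt hE⟩
      intro j
      by_cases hji : j = i
      · subst hji
        exact Or.inl Set.subset_union_right
      · rcases hWdich j with h' | h'
        · exact Or.inl (h'.trans Set.subset_union_left)
        · exact Or.inr (Set.disjoint_union_right.2 ⟨h', hdis j i hji⟩)
    have hback := hm ⟨_, hmem⟩ hE
    obtain ⟨x, hx⟩ := hne i
    have : x ∈ W := hback.1 (Or.inr hx)
    exact (Set.disjoint_left.1 h) hx this
  have hWeq : W = ⋃ i, Z i := Subset.antisymm hWsub (Set.iUnion_subset hall)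
  subst hWeq
  refine ⟨r, hWLo, ?_, ?_⟩
  · rintro ⟨m, hmW, hmin⟩
    have hm0 : m ∈ Z i₀ := by
      by_contra hmn
      obtain ⟨a, ha⟩ := hne i₀
      have haW : a ∈ ⋃ i, Z i := hall i₀ ha
      have h1 : r a m := hWExt.2.2 a ha m hmW hmn
      have h2 : r m a := hmin a haW (fun h => hmn (h ▸ ha))
      exact hWLo.irrefl a haW (hWLo.trans a haW m hmW a haW h1 h2)
    refine ⟨m, hm0, ?_⟩
    intro x hx hxm
    exact (hWExt.2.1 m hm0 x hx).2 (hmin x (hall i₀ hx) hxm)
  · rintro ⟨m, hm0, hmin⟩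
    refine ⟨m, hall i₀ hm0, ?_⟩
    intro x hx hxm
    by_cases hx0 : x ∈ Z i₀
    · exact (hWExt.2.1 m hm0 x hx0).1 (hmin x hx0 hxm)
    · exact hWExt.2.2 m hm0 x hx hx0

end Aux_snc

theorem snc : PropFLIP → PropGLUE → PropENDS → PropCHN → PropSNC := by
  intro _ hGLUE _ hCHN Y _ ι Z hne hop hdis hSt hnc
  obtain ⟨i₀⟩ := hne
  obtain ⟨⟨s1, hs1, hs1'⟩, ⟨s2, hs2, hs2'⟩⟩ := (hSt i₀).2 (hnc i₀)
  obtain ⟨r1, hr1, hr1'⟩ := Aux_snc.key hGLUE hCHN Y ι Z hop hdis hSt hnc i₀ s1 hs1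
  obtain ⟨r2, hr2, hr2'⟩ := Aux_snc.key hGLUE hCHN Y ι Z hop hdis hSt hnc i₀ s2 hs2
  exact ⟨⟨r1, hr1⟩, fun _ => ⟨⟨r1, hr1, hr1'.2 hs1'⟩, ⟨r2, hr2, fun h => hs2' (hr2'.1 h)⟩⟩⟩

end Pool.Agent.W651.SO
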