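import Pool.Agent.W651.SO.Stm

set_option autoImplicit false

/-!
# Arbitrary sums
-/

namespace Pool.Agent.W651.SO

open Set

section
variable {Y : Type} [TopologicalSpace Y]

theorem sum_stCompact {K : Set Y} (hK : IsCompact K) (h : ∃ r, Lo K r) : St K :=
  ⟨h, fun hn => absurd hK hn⟩

theorem sum_loEmpty (r : Y → Y → Prop) : Lo (∅ : Set Y) r where
  irrefl := fun x hx => absurd hx (notMem_empty x)
  trans := fun x hx => absurd hx (notMem_empty x)
  total := fun x hx => absurd hx (notMem_empty x)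
  lower := fun x hx => absurd hx (notMem_empty x)
  upper := fun x hx => absurd hx (notMem_empty x)
  left := fun x hx => absurd hx (notMem_empty x)
  right := fun x hx => absurd hx (notMem_empty x)

theorem sum_pair (hG : PropGLUE) (hC : PropCMP) {A B : Set Y} (hA : IsOpen A) (hB : IsOpen B)
    (hd : Disjoint A B) (kA : IsCompact A) (kB : IsCompact B) (lA : ∃ r, Lo A r)
    (lB : ∃ s, Lo B s) : ∃ t, Lo (A ∪ B) t := by
  obtain ⟨r, hr⟩ := lA
  obtain ⟨s, hs⟩ := lB
  by_cases eA : A.Nonempty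
  · by_cases eB : B.Nonempty
    · exact ⟨cat A B r s, hG Y A B r s hA hB hd hr hs eA eB
        ⟨fun _ => (hC Y B s kB eB hs).1, fun _ => (hC Y A r kA eA hr).2⟩⟩
    · rw [not_nonempty_iff_eq_empty] at eB
      rw [eB, union_empty]
      exact ⟨r, hr⟩
  · rw [not_nonempty_iff_eq_empty] at eA
    rw [eA, empty_union]
    exact ⟨s, hs⟩

theorem sum_fin (hG : PropGLUE) (hC : PropCMP) {ι : Type} (Z : ι → Set Y)
    (ho : ∀ i, IsOpen (Z i)) (hd : ∀ i j, i ≠ j → Disjoint (Z i) (Z j)) (s : Finset ι)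
    (hk : ∀ i ∈ s, IsCompact (Z i)) (hl : ∀ i ∈ s, ∃ r, Lo (Z i) r) :
    IsOpen (⋃ i ∈ s, Z i) ∧ IsCompact (⋃ i ∈ s, Z i) ∧ ∃ r, Lo (⋃ i ∈ s, Z i) r := by
  classical
  induction s using Finset.induction_on with
  | empty =>
    have e : (⋃ i ∈ (∅ : Finset ι), Z i) = ∅ := by simp
    rw [e]
    exact ⟨isOpen_empty, isCompact_empty, fun _ _ => False, sum_loEmpty _⟩
  | insert a s ha ih =>
    obtain ⟨h1, h2, h3⟩ := ih (fun i hi => hk i (Finset.mem_insert_of_mem hi))
      (fun i hi => hl i (Finset.mem_insert_of_mem hi))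
    rw [Finset.set_biUnion_insert]
    have h4 : Disjoint (Z a) (⋃ i ∈ s, Z i) := by
      rw [Set.disjoint_iUnion₂_right]
      intro i hi
      exact hd a i (fun h => ha (h ▸ hi))
    exact ⟨(ho a).union h1, (hk a (Finset.mem_insert_self a s)).union h2,
      sum_pair hG hC (ho a) h1 h4 (hk a (Finset.mem_insert_self a s)) h2
        (hl a (Finset.mem_insert_self a s)) h3⟩

theorem sum_addCompact (hI : PropINS) (hS : Scat Y) {Z K : Set Y} (hZ : IsOpen Z) (hs : St Z)
    (hK : IsOpen K) (kK : IsCompact K) (lK : ∃ s, Lo K s) (hd : Disjoint Z K) : St (Z ∪ K) := by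
  by_cases eZ : Z.Nonempty
  · refine ⟨?_, fun hn => ?_⟩
    · obtain ⟨r, hr⟩ := hs.1
      obtain ⟨r', h', _⟩ := hI Y Z K r hS hZ eZ hr hK kK lK hd
      exact ⟨r', h'⟩
    · have hn2 : ¬ IsCompact Z := fun h => hn (h.union kK)
      obtain ⟨⟨r, hr, hr2⟩, s, hs1, hs2⟩ := hs.2 hn2
      obtain ⟨r', h', h'2⟩ := hI Y Z K r hS hZ eZ hr hK kK lK hd
      obtain ⟨s', k', k'2⟩ := hI Y Z K s hS hZ eZ hs1 hK kK lK hd
      exact ⟨⟨r', h', h'2.2 hr2⟩, s', k', fun h => hs2 (k'2.1 h)⟩
  · rw [not_nonempty_iff_eq_empty] at eZ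
    rw [eZ, empty_union]
    exact sum_stCompact kK lK

end

theorem sum : PropFLIP → PropGLUE → PropENDS → PropCMP → PropINS → PropSNC → PropSCC →
    PropSUM := by
  intro _ hG _ hC hI hSNC hSCC Y _ ι Z hS ho hd hst
  classical
  set In : Set ι := {i | ¬ IsCompact (Z i)} with hIn
  set Ic : Set ι := {i | IsCompact (Z i) ∧ (Z i).Nonempty} with hIc
  by_cases hfin : Ic.Finite
  · -- finitely many compact pieces
    have hK := sum_fin hG hC Z ho hd hfin.toFinset
      (fun i hi => by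
        rw [Set.Finite.mem_toFinset] at hi
        exact hi.1) (fun i _ => (hst i).1)
    obtain ⟨k1, k2, k3⟩ := hK
    have hZ' : St (⋃ i : In, Z i) := by
      by_cases hne : Nonempty In
      · exact hSNC Y In (fun i => Z i) hne (fun i => ho i)
          (fun i j hij => hd i j (fun h => hij (Subtype.ext h))) (fun i => hst i) (fun i => i.2)
      · rw [not_nonempty_iff] at hne
        rw [Set.iUnion_of_empty]
        exact sum_stCompact isCompact_empty ⟨fun _ _ => False, sum_loEmpty _⟩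
    have hun : (⋃ i, Z i) = (⋃ i : In, Z i) ∪ ⋃ i ∈ hfin.toFinset, Z i := by
      ext x
      rw [mem_union, mem_iUnion, mem_iUnion, mem_iUnion₂]
      constructor
      · rintro ⟨i, hi⟩
        by_cases hc : IsCompact (Z i)
        · exact Or.inr ⟨i, by rw [Set.Finite.mem_toFinset]; exact ⟨hc, x, hi⟩, hi⟩
        · exact Or.inl ⟨⟨i, hc⟩, hi⟩
      · rintro (⟨i, hi⟩ | ⟨i, _, hi⟩)
        · exact ⟨i, hi⟩
        · exact ⟨i, hi⟩
    rw [hun]
    refine sum_addCompact hI hS (isOpen_iUnion (fun i => ho i)) hZ' k1 k2 k3 ?_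
    rw [Set.disjoint_iUnion_left]
    intro i
    rw [Set.disjoint_iUnion₂_right]
    intro j hj
    rw [Set.Finite.mem_toFinset] at hj
    refine hd i j (fun h => i.2 ?_)
    rw [h]
    exact hj.1
  · -- infinitely many compact pieces
    have hinf : Infinite Ic := Set.infinite_coe_iff.2 hfin
    have hcard : Cardinal.mk (Ic × ℕ) = Cardinal.mk Ic := by
      rw [Cardinal.mk_prod, Cardinal.lift_id, Cardinal.lift_id, Cardinal.mk_nat]
      exact Cardinal.mul_aleph0_eq (Cardinal.aleph0_le_mk Ic)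
    obtain ⟨e⟩ := Cardinal.eq.1 hcard
    set W : Ic → Set Y := fun k => ⋃ n : ℕ, Z (e (k, n)) with hW
    have hne : ∀ (k : Ic) (m n : ℕ), m ≠ n → ((e (k, m) : Ic) : ι) ≠ (e (k, n) : Ic) := by
      intro k m n hmn h
      have h2 := e.injective (Subtype.ext h)
      exact hmn (Prod.ext_iff.1 h2).2
    have hWo : ∀ k, IsOpen (W k) := fun k => isOpen_iUnion (fun n => ho _)
    have hWs : ∀ k, St (W k) := fun k =>
      hSCC Y (fun n => Z (e (k, n))) (fun n => ho _) (fun m n hmn => hd _ _ (hne k m n hmn))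
        (fun n => (hst _).1) (fun n => (e (k, n)).2.1) (fun n => (e (k, n)).2.2)
    have hWn : ∀ k, ¬ IsCompact (W k) := by
      intro k hk
      obtain ⟨t, ht⟩ := hk.elim_finite_subcover (fun n => Z (e (k, n))) (fun n => ho _)
        (le_refl _)
      obtain ⟨n, hn⟩ := Infinite.exists_notMem_finset t
      obtain ⟨x, hx⟩ := (e (k, n)).2.2
      have hx2 := ht (mem_iUnion.2 ⟨n, hx⟩ : x ∈ W k)
      rw [mem_iUnion₂] at hx2
      obtain ⟨m, hm, hxm⟩ := hx2
      exact Set.disjoint_left.1 (hd _ _ (hne k n m (fun h => hn (h ▸ hm)))) hx hxm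
    have hWd : ∀ k l, k ≠ l → Disjoint (W k) (W l) := by
      intro k l hkl
      rw [hW]
      simp only [Set.disjoint_iUnion_left, Set.disjoint_iUnion_right]
      intro m n
      refine hd _ _ (fun h => hkl ?_)
      have h2 := e.injective (Subtype.ext h)
      exact (Prod.ext_iff.1 h2).1
    have hZW : ∀ (i : In) (k : Ic), Disjoint (Z i) (W k) := by
      intro i k
      rw [Set.disjoint_iUnion_right]
      intro n
      refine hd _ _ (fun h => i.2 ?_)
      rw [h]
      exact (e (k, n)).2.1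
    have hun : (⋃ i, Z i) = ⋃ i : In ⊕ Ic, Sum.elim (fun i : In => Z i) W i := by
      ext x
      rw [mem_iUnion, mem_iUnion]
      constructor
      · rintro ⟨i, hi⟩
        by_cases hc : IsCompact (Z i)
        · obtain ⟨⟨k, n⟩, hkn⟩ := e.surjective ⟨i, hc, x, hi⟩
          refine ⟨Sum.inr k, ?_⟩
          show x ∈ W k
          refine mem_iUnion.2 ⟨n, ?_⟩
          rw [hkn]
          exact hi
        · exact ⟨Sum.inl ⟨i, hc⟩, hi⟩
      · rintro ⟨i | k, hi⟩
        · exact ⟨i, hi⟩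
        · obtain ⟨n, hn⟩ := mem_iUnion.1 hi
          exact ⟨_, hn⟩
    rw [hun]
    refine hSNC Y (In ⊕ Ic) _ ⟨Sum.inr hinf.nonempty.some⟩ ?_ ?_ ?_ ?_
    · rintro (i | k)
      · exact ho i
      · exact hWo k
    · rintro (i | k) (j | l) h
      · exact hd i j (fun h2 => h (congrArg Sum.inl (Subtype.ext h2)))
      · exact hZW i l
      · exact (hZW j k).symm
      · exact hWd k l (fun h2 => h (congrArg Sum.inr h2))
    · rintro (i | k)
      · exact hst i
      · exact hWs k
    · rintro (i | k)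
      · exact i.2
      · exact hWn k

end Pool.Agent.W651.SO
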