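import Pool.Agent.W651.SO.Stm

/-! SO-TAIL: the tail all of whose bounded pieces are compact. -/

set_option autoImplicit false

namespace Pool.Agent.W651.SO

open Set

theorem tail : PropFLIP → PropCMP → PropGOC → PropCUT → PropTAIL := by
  intro hFLIP hCMP hGOC hCUT Y _ _ hGO hScat E A hE hEc hEmax hA hAE hcpt
  obtain ⟨hAsub, hAo, hEAo, hAi⟩ := hA
  have up : ∀ y ∈ E \ A, ∀ y' ∈ E, y < y' → y' ∈ E \ A := by
    intro y hy y' hy' hlt
    exact ⟨hy', fun h => hy.2 (hAi y' h y hy.1 hlt.le)⟩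
  -- (1)
  have seg : ∀ y ∈ E \ A, ∃ K : Set Y, IsCompact K ∧ y ∈ K ∧ K ⊆ E \ A ∧
      ∀ x ∈ K, ∀ z ∈ E \ A, z ≤ x → z ∈ K := by
    intro y hy
    obtain ⟨y', hy', hlt⟩ := hEmax y hy.1
    obtain ⟨C, hCo, hCc, hCi, hyC, hy'C⟩ := hCUT Y hGO hScat y y' hlt
    have h1 : y' ∉ A ∪ (E ∩ C) := by
      rintro (h | h)
      · exact (up y hy y' hy' hlt).2 h
      · exact hy'C h.2
    have hseg : Seg E (A ∪ (E ∩ C)) := by
      refine ⟨union_subset hAsub inter_subset_left, hAo.union (hE.inter hCo), ?_, ?_⟩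
      · have h2 : E \ (A ∪ (E ∩ C)) = (E \ A) ∩ Cᶜ := by
          ext z
          simp only [mem_sdiff, mem_union, mem_inter_iff, mem_compl_iff]
          tauto
        rw [h2]
        exact hEAo.inter hCc
      · rintro x (hx | hx) z hz hzx
        · exact Or.inl (hAi x hx z hz hzx)
        · exact Or.inr ⟨hz, hCi x hx.2 z hzx⟩
    have hne : A ∪ (E ∩ C) ≠ E := by
      intro h
      rw [h] at h1
      exact h1 hy'
    refine ⟨(A ∪ (E ∩ C)) \ A, hcpt _ hseg hne subset_union_left, ⟨Or.inr ⟨hy.1, hyC⟩, hy.2⟩,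
      sdiff_subset_sdiff_left hseg.1, ?_⟩
    intro x hx z hz hzx
    exact ⟨hseg.2.2.2 x hx.1 z hz.1 hzx, hz.2⟩
  -- (2)
  have hLo : Lo (E \ A) (fun x y => x < y) := by
    refine ⟨fun x _ => lt_irrefl x, fun x _ y _ z _ h1 h2 => lt_trans h1 h2,
      fun x _ y _ h => lt_or_gt_of_ne h, ?_, ?_, ?_, ?_⟩
    · intro x _ y _ h
      exact ⟨Iio x, hGO.iio x, h, fun z hz _ => hz⟩
    · intro x _ y _ h
      exact ⟨Ioi x, hGO.ioi x, h, fun z hz _ => hz⟩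
    · intro y hy O hO hyO
      obtain ⟨K, hK, hyK, hKs, hKi⟩ := seg y hy
      rcases (hGOC Y hGO K hK).left y hyK O hO hyO with ⟨a, ha, hay, h⟩ | h
      · exact Or.inl ⟨a, hKs ha, hay, fun z hz h1 h2 => h z (hKi y hyK z hz h2.le) h1 h2⟩
      · exact Or.inr fun z hz h2 => h z (hKi y hyK z hz h2.le) h2
    · intro y hy O hO hyO
      obtain ⟨y', hy', hlt⟩ := hEmax y hy.1
      have hy'W := up y hy y' hy' hlt
      obtain ⟨K, hK, hyK, hKs, hKi⟩ := seg y' hy'W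
      have hyK' : y ∈ K := hKi y' hyK y hy hlt.le
      rcases (hGOC Y hGO K hK).right y hyK' O hO hyO with ⟨b, hb, hyb, h⟩ | h
      · exact Or.inl ⟨b, hKs hb, hyb, fun z hz h1 h2 => h z (hKi b hb z hz h2.le) h1 h2⟩
      · exact Or.inl ⟨y', hy'W, hlt, fun z hz h1 h2 => h z (hKi y' hyK z hz h2.le) h1⟩
  refine ⟨⟨_, hLo⟩, fun _ => ⟨⟨_, hLo, ?_⟩, ⟨_, hFLIP Y _ _ hLo, ?_⟩⟩⟩
  · -- (3)
    have hne : ∃ y, y ∈ E \ A := by
      by_contra h
      push Not at h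
      exact hAE (Subset.antisymm hAsub fun x hx => by_contra fun hxA => h x ⟨hx, hxA⟩)
    obtain ⟨y, hy⟩ := hne
    obtain ⟨K, hK, hyK, hKs, hKi⟩ := seg y hy
    obtain ⟨m, hm, hmin⟩ := (hCMP Y K _ hK ⟨y, hyK⟩ (hGOC Y hGO K hK)).1
    refine ⟨m, hKs hm, fun x hx hxm => ?_⟩
    rcases le_or_gt x m with h | h
    · exact hmin x (hKi m hm x hx h) hxm
    · exact h
  · -- (4)
    rintro ⟨m, hm, h⟩
    obtain ⟨y', hy', hlt⟩ := hEmax m hm.1
    have h1 : y' < m := h y' (up m hm y' hy' hlt) hlt.ne'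
    exact lt_asymm h1 hlt

end Pool.Agent.W651.SO
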