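import Pool.Agent.W651.SO.Stm

set_option autoImplicit false

namespace Pool.Agent.W651.SO

open Set

theorem flip : PropFLIP := by
  intro Y _ A r h
  refine ⟨fun x hx => h.irrefl x hx, fun x hx y hy z hz h1 h2 => h.trans z hz y hy x hx h2 h1,
    fun x hx y hy hxy => (h.total x hx y hy hxy).symm, fun x hx y hy h1 => h.upper x hx y hy h1,
    fun x hx y hy h1 => h.lower x hx y hy h1, fun x hx O hO hxO => ?_, fun x hx O hO hxO => ?_⟩
  · rcases h.right x hx O hO hxO with ⟨b, hb, hxb, hz⟩ | hz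
    · exact Or.inl ⟨b, hb, hxb, fun z hzA h1 h2 => hz z hzA h2 h1⟩
    · exact Or.inr fun z hzA h1 => hz z hzA h1
  · rcases h.left x hx O hO hxO with ⟨b, hb, hxb, hz⟩ | hz
    · exact Or.inl ⟨b, hb, hxb, fun z hzA h1 h2 => hz z hzA h2 h1⟩
    · exact Or.inr fun z hzA h1 => hz z hzA h1

theorem ends : PropENDS := by
  intro Y A B r s hd
  have hdis : ∀ x, x ∈ A → x ∈ B → False := fun x h1 h2 => Set.disjoint_left.1 hd h1 h2
  refine ⟨fun ⟨a, ha⟩ => ⟨?_, ?_⟩, fun ⟨b, hb⟩ => ⟨?_, ?_⟩⟩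
  · rintro ⟨m, hm, h⟩
    have hmA : m ∈ A := by
      rcases hm with hm | hm
      · exact hm
      · exfalso
        have hne : a ≠ m := fun e => hdis a ha (e ▸ hm)
        rcases h a (Or.inl ha) hne with h1 | h1 | h1
        · exact hdis m h1.1 hm
        · exact hdis a ha h1.2.1
        · exact hdis m h1.1 hm
    refine ⟨m, hmA, fun x hx hne => ?_⟩
    rcases h x (Or.inl hx) hne with h1 | h1 | h1
    · exact h1.2.2
    · exact (hdis m hmA h1.1).elim
    · exact (hdis x hx h1.2).elim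
  · rintro ⟨m, hm, h⟩
    refine ⟨m, Or.inl hm, fun x hx hne => ?_⟩
    rcases hx with hx | hx
    · exact Or.inl ⟨hm, hx, h x hx hne⟩
    · exact Or.inr (Or.inr ⟨hm, hx⟩)
  · rintro ⟨m, hm, h⟩
    have hmB : m ∈ B := by
      rcases hm with hm | hm
      · exfalso
        have hne : b ≠ m := fun e => hdis b (e ▸ hm) hb
        rcases h b (Or.inr hb) hne with h1 | h1 | h1
        · exact hdis b h1.1 hb
        · exact hdis m hm h1.2.1
        · exact hdis b h1.1 hb
      · exact hm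
    refine ⟨m, hmB, fun x hx hne => ?_⟩
    rcases h x (Or.inr hx) hne with h1 | h1 | h1
    · exact (hdis x h1.1 hx).elim
    · exact h1.2.2
    · exact (hdis x h1.1 hx).elim
  · rintro ⟨m, hm, h⟩
    refine ⟨m, Or.inr hm, fun x hx hne => ?_⟩
    rcases hx with hx | hx
    · exact Or.inr (Or.inr ⟨hx, hm⟩)
    · exact Or.inr (Or.inl ⟨hx, hm, h x hx hne⟩)

end Pool.Agent.W651.SO
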