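import Pool.Agent.W651.SO.Stm

set_option autoImplicit false

namespace Pool.Agent.W651.SO

open Set

theorem half : PropSUM → PropENG → PropTAIL → PropHALF := by
  intro hSUM hENG hTAIL Y _ _ hGO hSc E z hE hC hz hzo hmin hG
  classical
  -- bounded open convex pieces
  have h1 : ∀ y ∈ E, ∀ B : Set Y, B ⊆ E → IsOpen B → Cvx B → (∀ b ∈ B, b ≤ y) → St B := by
    intro y hy B hBE hBo hBc hBy
    obtain ⟨G, hGg, hzG, hyG⟩ := hG y hy
    refine hGg.2.2.1 B (fun b hb => ?_) hBo hBc
    exact hGg.2.1 z hzG y hyG b (hmin b (hBE hb)) (hBy b hb)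
  by_cases hmax : ∃ m ∈ E, ∀ x ∈ E, x ≤ m
  · obtain ⟨m, hm, hm'⟩ := hmax
    exact h1 m hm E Subset.rfl hE hC hm'
  have hnm : ∀ x ∈ E, ∃ y ∈ E, x < y := by
    intro x hx
    by_contra hcon
    refine hmax ⟨x, hx, fun y hy => ?_⟩
    by_contra hlt
    exact hcon ⟨y, hy, not_le.mp hlt⟩
  have hRP : ∀ q ∈ E, RP q := by
    intro q hq
    obtain ⟨G, hGg, -, hqG⟩ := hG q hq
    exact (hGg.2.2.2 q hqG).1
  have hdiff : ∀ A A' : Set Y, Seg E A → Seg E A' → A' ≠ E → A ⊆ A' → St (A' \ A) := by
    intro A A' hA hA' hne hAA'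
    obtain ⟨y, hyE, hyA'⟩ : ∃ y ∈ E, y ∉ A' := by
      by_contra hcon
      push Not at hcon
      exact hne (Subset.antisymm hA'.1 hcon)
    refine h1 y hyE (A' \ A) (fun b hb => hA'.1 hb.1) ?_ ?_ ?_
    · have e : A' \ A = A' ∩ (E \ A) := by
        ext x
        constructor
        · rintro ⟨h, h'⟩
          exact ⟨h, hA'.1 h, h'⟩
        · rintro ⟨h, _, h'⟩
          exact ⟨h, h'⟩
      rw [e]
      exact hA'.2.1.inter hA.2.2.1
    · intro a ha b hb c hac hcb
      have hcE : c ∈ E := hC a (hA'.1 ha.1) b (hA'.1 hb.1) c hac hcb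
      refine ⟨hA'.2.2.2 b hb.1 c hcE hcb, fun hcA => ha.2 ?_⟩
      exact hA.2.2.2 c hcA a (hA'.1 ha.1) hac
    · intro b hb
      by_contra hlt
      exact hyA' (hA'.2.2.2 b hb.1 y hyE (le_of_lt (not_le.mp hlt)))
  have hempty : Seg E (∅ : Set Y) := by
    refine ⟨empty_subset _, isOpen_empty, ?_, ?_⟩
    · rw [sdiff_empty]; exact hE
    · intro x hx
      exact absurd hx (notMem_empty x)
  have hEne : (∅ : Set Y) ≠ E := by
    intro h
    rw [← h] at hz
    exact notMem_empty z hz
  by_cases hI : ∀ A : Set Y, Seg E A → A ≠ E → ∃ A' : Set Y, Seg E A' ∧ A' ≠ E ∧ A ⊆ A' ∧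
      ¬ IsCompact (A' \ A)
  · -- Case I
    have ha : ∃ r : Y → Y → Prop, Lo E r ∧ HasMin E r := by
      have hseg : Seg E ({z} : Set Y) := by
        refine ⟨singleton_subset_iff.mpr hz, hzo, ?_, ?_⟩
        · have e : E \ {z} = E ∩ Ioi z := by
            ext x
            constructor
            · rintro ⟨h, h'⟩
              exact ⟨h, lt_of_le_of_ne (hmin x h) (fun h2 => h' h2.symm)⟩
            · rintro ⟨h, h'⟩
              exact ⟨h, fun h2 => (ne_of_gt h') h2⟩
          rw [e]
          exact hE.inter (hGO.ioi z)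
        · intro x hx y hy hyx
          rw [mem_singleton_iff] at hx ⊢
          subst hx
          exact le_antisymm hyx (hmin y hy)
      have hne : ({z} : Set Y) ≠ E := by
        intro h
        obtain ⟨y, hy, hlt⟩ := hnm z hz
        rw [← h] at hy
        exact (ne_of_gt hlt) hy
      have hLo : Lo ({z} : Set Y) (fun _ _ => False) := by
        refine ⟨fun _ _ h => h, fun _ _ _ _ _ _ h _ => h, ?_, fun _ _ _ _ h => h.elim,
          fun _ _ _ _ h => h.elim, fun _ _ _ _ _ => Or.inr fun _ _ h => h.elim,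
          fun _ _ _ _ _ => Or.inr fun _ _ h => h.elim⟩
        intro x hx y hy hxy
        rw [mem_singleton_iff] at hx hy
        exact absurd (hx.trans hy.symm) hxy
      obtain ⟨r, hr, hext, -⟩ := hENG Y hGO E hE hC hnm hRP hdiff hI {z} (fun _ _ => False) hseg hne
        (singleton_nonempty z) hLo
      exact ⟨r, hr, z, hz, fun x hx hxz => hext.2.2 z rfl x hx hxz⟩
    have hb : ∃ r : Y → Y → Prop, Lo E r ∧ ¬ HasMin E r := by
      obtain ⟨A₀, hA₀, hA₀ne, -, hnc⟩ := hI ∅ hempty hEne
      have hSt := hdiff ∅ A₀ hempty hA₀ hA₀ne (empty_subset _)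
      obtain ⟨-, r₀, hr₀, hnmin⟩ := hSt.2 hnc
      rw [sdiff_empty] at hnc hr₀ hnmin
      have hA₀n : A₀.Nonempty := by
        rw [nonempty_iff_ne_empty]
        rintro rfl
        exact hnc isCompact_empty
      obtain ⟨r, hr, hext, -⟩ := hENG Y hGO E hE hC hnm hRP hdiff hI A₀ r₀ hA₀ hA₀ne hA₀n hr₀
      refine ⟨r, hr, ?_⟩
      rintro ⟨m, hm, hmm⟩
      by_cases hmA : m ∈ A₀
      · refine hnmin ⟨m, hmA, fun x hx hne => ?_⟩
        exact (hext.2.1 m hmA x hx).mpr (hmm x (hA₀.1 hx) hne)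
      · obtain ⟨a, ha'⟩ := hA₀n
        have h2 : r a m := hext.2.2 a ha' m hm hmA
        have h3 : r m a := hmm a (hA₀.1 ha') (fun h => hmA (h ▸ ha'))
        exact hr.irrefl a (hA₀.1 ha') (hr.trans a (hA₀.1 ha') m hm a (hA₀.1 ha') h2 h3)
    obtain ⟨r, hr, hr'⟩ := ha
    exact ⟨⟨r, hr⟩, fun _ => ⟨⟨r, hr, hr'⟩, hb⟩⟩
  · -- Case II
    push Not at hI
    obtain ⟨A, hA, hAne, hcomp⟩ := hI
    have ht : St (E \ A) := hTAIL Y hGO hSc E A hE hC hnm hA hAne hcomp
    have hSA : St A := by
      have := hdiff ∅ A hempty hA hAne (empty_subset _)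
      rwa [sdiff_empty] at this
    have h2 := hSUM Y Bool (fun i => if i then A else E \ A) hSc
      (by
        intro i
        cases i
        · simpa using hA.2.2.1
        · simpa using hA.2.1)
      (by
        intro i j hij
        cases i <;> cases j
        · exact absurd rfl hij
        · simpa using disjoint_sdiff_left
        · simpa using disjoint_sdiff_right
        · exact absurd rfl hij)
      (by
        intro i
        cases i
        · simpa using ht
        · simpa using hSA)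
    have e : (⋃ i : Bool, (if i then A else E \ A : Set Y)) = E := by
      ext x
      rw [mem_iUnion]
      constructor
      · rintro ⟨i, hi⟩
        cases i
        · simp only [Bool.false_eq_true, if_false] at hi
          exact hi.1
        · simp only [if_true] at hi
          exact hA.1 hi
      · intro hx
        by_cases hxA : x ∈ A
        · exact ⟨true, by simpa using hxA⟩
        · exact ⟨false, by simpa using ⟨hx, hxA⟩⟩
    rwa [e] at h2

end Pool.Agent.W651.SO
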