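import Mathlib

set_option autoImplicit false

/-!
# Every subspace of a scattered linearly ordered space is orderable (frozen S13257)

`GO` : suborderable spaces.  `Lo A r` : `r` is a linear order on the set `A` whose order topology is
the subspace topology of `A`.  Everything is expressed by sets and relations on one type `Y`.
-/

namespace Pool.Agent.W651.SO

open Set

section top
variable {Y : Type} [TopologicalSpace Y]

/-- `r` is a strict linear order on `A` whose order topology is the subspace topology of `A`. -/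
structure Lo (A : Set Y) (r : Y → Y → Prop) : Prop where
  irrefl : ∀ x ∈ A, ¬ r x x
  trans : ∀ x ∈ A, ∀ y ∈ A, ∀ z ∈ A, r x y → r y z → r x z
  total : ∀ x ∈ A, ∀ y ∈ A, x ≠ y → r x y ∨ r y x
  lower : ∀ x ∈ A, ∀ y ∈ A, r y x → ∃ O : Set Y, IsOpen O ∧ y ∈ O ∧ ∀ z ∈ O, z ∈ A → r z x
  upper : ∀ x ∈ A, ∀ y ∈ A, r x y → ∃ O : Set Y, IsOpen O ∧ y ∈ O ∧ ∀ z ∈ O, z ∈ A → r x z
  left : ∀ x ∈ A, ∀ O : Set Y, IsOpen O → x ∈ O →
    (∃ a ∈ A, r a x ∧ ∀ z ∈ A, r a z → r z x → z ∈ O) ∨ (∀ z ∈ A, r z x → z ∈ O)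
  right : ∀ x ∈ A, ∀ O : Set Y, IsOpen O → x ∈ O →
    (∃ b ∈ A, r x b ∧ ∀ z ∈ A, r x z → r z b → z ∈ O) ∨ (∀ z ∈ A, r x z → z ∈ O)

/-- `A` has a smallest element for `r`. -/
def HasMin (A : Set Y) (r : Y → Y → Prop) : Prop := ∃ m ∈ A, ∀ x ∈ A, x ≠ m → r m x

/-- `A` has a largest element for `r`. -/
def HasMax (A : Set Y) (r : Y → Y → Prop) : Prop := ∃ m ∈ A, ∀ x ∈ A, x ≠ m → r x m

/-- the reversed relation -/
def flp (r : Y → Y → Prop) (x y : Y) : Prop := r y x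

/-- first `A` (ordered by `r`), then `B` (ordered by `s`) -/
def cat (A B : Set Y) (r s : Y → Y → Prop) (x y : Y) : Prop :=
  (x ∈ A ∧ y ∈ A ∧ r x y) ∨ (x ∈ B ∧ y ∈ B ∧ s x y) ∨ (x ∈ A ∧ y ∈ B)

/-- `A` is orderable, and if it is not compact, it is orderable with and without a minimum. -/
def St (A : Set Y) : Prop :=
  (∃ r : Y → Y → Prop, Lo A r) ∧
    (¬ IsCompact A → (∃ r : Y → Y → Prop, Lo A r ∧ HasMin A r) ∧
      ∃ r : Y → Y → Prop, Lo A r ∧ ¬ HasMin A r)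

/-- the same with `p` as largest element -/
def Pt (D : Set Y) (p : Y) : Prop :=
  (∃ r : Y → Y → Prop, Lo D r ∧ ∀ x ∈ D, x ≠ p → r x p) ∧
    (¬ IsCompact D →
      (∃ r : Y → Y → Prop, Lo D r ∧ (∀ x ∈ D, x ≠ p → r x p) ∧ HasMin D r) ∧
      ∃ r : Y → Y → Prop, Lo D r ∧ (∀ x ∈ D, x ≠ p → r x p) ∧ ¬ HasMin D r)

/-- end extension -/
def Ext (P Q : Set Y × (Y → Y → Prop)) : Prop :=
  P.1 ⊆ Q.1 ∧ (∀ x ∈ P.1, ∀ y ∈ P.1, (P.2 x y ↔ Q.2 x y)) ∧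
    ∀ x ∈ P.1, ∀ y ∈ Q.1, y ∉ P.1 → Q.2 x y

/-- the union of a family of relations on sets -/
def URel (c : Set (Set Y × (Y → Y → Prop))) (x y : Y) : Prop :=
  ∃ P ∈ c, x ∈ P.1 ∧ y ∈ P.1 ∧ P.2 x y

/-- the union of a family of sets with relations -/
def USet (c : Set (Set Y × (Y → Y → Prop))) : Set Y := {x | ∃ P ∈ c, x ∈ P.1}

end top

/-- scattered -/
def Scat (Y : Type) [TopologicalSpace Y] : Prop :=
  ∀ A : Set Y, A.Nonempty → ∃ x ∈ A, ∃ U : Set Y, IsOpen U ∧ U ∩ A = {x}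

section order
variable {Y : Type} [TopologicalSpace Y] [LinearOrder Y]

/-- suborderable space (GO-space) -/
structure GO (Y : Type) [TopologicalSpace Y] [LinearOrder Y] : Prop where
  ioi : ∀ a : Y, IsOpen (Ioi a)
  iio : ∀ a : Y, IsOpen (Iio a)
  cvx : ∀ (x : Y) (O : Set Y), IsOpen O → x ∈ O → ∃ V : Set Y, IsOpen V ∧ x ∈ V ∧ V ⊆ O ∧
    ∀ a ∈ V, ∀ b ∈ V, ∀ c : Y, a ≤ c → c ≤ b → c ∈ V

/-- convex -/
def Cvx (E : Set Y) : Prop := ∀ a ∈ E, ∀ b ∈ E, ∀ c : Y, a ≤ c → c ≤ b → c ∈ E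

/-- `A` is a relatively clopen initial segment of `E` -/
def Seg (E A : Set Y) : Prop :=
  A ⊆ E ∧ IsOpen A ∧ IsOpen (E \ A) ∧ ∀ x ∈ A, ∀ y ∈ E, y ≤ x → y ∈ A

/-- `A` is a relatively clopen final segment of `E` -/
def FSeg (E A : Set Y) : Prop :=
  A ⊆ E ∧ IsOpen A ∧ IsOpen (E \ A) ∧ ∀ x ∈ A, ∀ y ∈ E, x ≤ y → y ∈ A

/-- `D` is a convex right half neighbourhood of `q` -/
def RH (q : Y) (D : Set Y) : Prop :=
  q ∈ D ∧ (∀ x ∈ D, q ≤ x) ∧ (∀ x ∈ D, ∀ y : Y, q ≤ y → y ≤ x → y ∈ D) ∧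
    IsOpen (Iio q ∪ D) ∧ IsOpen (Ici q \ D)

/-- `D` is a convex left half neighbourhood of `q` -/
def LH (q : Y) (D : Set Y) : Prop :=
  q ∈ D ∧ (∀ x ∈ D, x ≤ q) ∧ (∀ x ∈ D, ∀ y : Y, y ≤ q → x ≤ y → y ∈ D) ∧
    IsOpen (Ioi q ∪ D) ∧ IsOpen (Iic q \ D)

/-- `q` has arbitrarily small good right half neighbourhoods -/
def RP (q : Y) : Prop := ∀ V : Set Y, IsOpen V → q ∈ V → ∃ D : Set Y, RH q D ∧ D ⊆ V ∧ Pt D q

/-- `q` has arbitrarily small good left half neighbourhoods -/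
def LP (q : Y) : Prop := ∀ V : Set Y, IsOpen V → q ∈ V → ∃ D : Set Y, LH q D ∧ D ⊆ V ∧ Pt D q

/-- good open convex sets -/
def Good (G : Set Y) : Prop :=
  IsOpen G ∧ Cvx G ∧ (∀ C ⊆ G, IsOpen C → Cvx C → St C) ∧ ∀ q ∈ G, RP q ∧ LP q

end order

/-! ## The statements -/

/-- reversing an order -/
def PropFLIP : Prop := ∀ (Y : Type) [TopologicalSpace Y] (A : Set Y) (r : Y → Y → Prop),
  Lo A r → Lo A (flp r)

/-- concatenation of two disjoint open sets -/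
def PropGLUE : Prop := ∀ (Y : Type) [TopologicalSpace Y] (A B : Set Y) (r s : Y → Y → Prop),
  IsOpen A → IsOpen B → Disjoint A B → Lo A r → Lo B s → A.Nonempty → B.Nonempty →
  (HasMax A r ↔ HasMin B s) → Lo (A ∪ B) (cat A B r s)

/-- the ends of a concatenation -/
def PropENDS : Prop := ∀ (Y : Type) (A B : Set Y) (r s : Y → Y → Prop),
  Disjoint A B →
  (A.Nonempty → (HasMin (A ∪ B) (cat A B r s) ↔ HasMin A r)) ∧
  (B.Nonempty → (HasMax (A ∪ B) (cat A B r s) ↔ HasMax B s))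

/-- gluing at a limit point `q` of `U` -/
def PropLIM : Prop := ∀ (Y : Type) [TopologicalSpace Y] (U D : Set Y) (r s : Y → Y → Prop) (q : Y),
  IsOpen U → Disjoint U D → q ∈ D → Lo U r → Lo D s → (∀ x ∈ D, x ≠ q → s q x) →
  (∀ y ∈ D, y ≠ q → ∃ O : Set Y, IsOpen O ∧ y ∈ O ∧ Disjoint O U) →
  (∀ O : Set Y, IsOpen O → q ∈ O → ∃ a ∈ U, ∀ z ∈ U, r a z → z ∈ O) →
  (∀ a ∈ U, ∃ O : Set Y, IsOpen O ∧ q ∈ O ∧ ∀ z ∈ O, z ∈ U → r a z) →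
  Lo (U ∪ D) (cat U D r s)

/-- gluing two pieces at a common point `p` -/
def PropGPT : Prop := ∀ (Y : Type) [TopologicalSpace Y] (A B : Set Y) (r s : Y → Y → Prop) (p : Y),
  p ∈ A → p ∈ B → (∀ x ∈ A, x ∈ B → x = p) → IsOpen (A \ {p}) → IsOpen (B \ {p}) →
  Lo A r → (∀ x ∈ A, x ≠ p → r x p) → Lo B s → (∀ x ∈ B, x ≠ p → s p x) →
  Lo (A ∪ B) (cat A (B \ {p}) r s) ∧
    (HasMin A r → HasMin (A ∪ B) (cat A (B \ {p}) r s)) ∧
    ((A \ {p}).Nonempty → ¬ HasMin A r → ¬ HasMin (A ∪ B) (cat A (B \ {p}) r s))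

/-- a compact ordered set has end points -/
def PropCMP : Prop := ∀ (Y : Type) [TopologicalSpace Y] (A : Set Y) (r : Y → Y → Prop),
  IsCompact A → A.Nonempty → Lo A r → HasMin A r ∧ HasMax A r

/-- union of a chain without largest element -/
def PropCHN : Prop := ∀ (Y : Type) [TopologicalSpace Y] (c : Set (Set Y × (Y → Y → Prop))),
  (∀ P ∈ c, IsOpen P.1 ∧ Lo P.1 P.2) → (∀ P ∈ c, ∀ Q ∈ c, Ext P Q ∨ Ext Q P) →
  (∀ P ∈ c, P.1 ≠ USet c) →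
  Lo (USet c) (URel c) ∧ ∀ P ∈ c, Ext P (USet c, URel c)

/-- insertion of a compact open piece -/
def PropINS : Prop := ∀ (Y : Type) [TopologicalSpace Y] (Z K : Set Y) (r : Y → Y → Prop),
  Scat Y → IsOpen Z → Z.Nonempty → Lo Z r → IsOpen K → IsCompact K → (∃ s, Lo K s) →
  Disjoint Z K → ∃ r' : Y → Y → Prop, Lo (Z ∪ K) r' ∧ (HasMin (Z ∪ K) r' ↔ HasMin Z r)

/-- sums of noncompact pieces -/
def PropSNC : Prop := ∀ (Y : Type) [TopologicalSpace Y] (ι : Type) (Z : ι → Set Y),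
  Nonempty ι → (∀ i, IsOpen (Z i)) → (∀ i j, i ≠ j → Disjoint (Z i) (Z j)) →
  (∀ i, St (Z i)) → (∀ i, ¬ IsCompact (Z i)) → St (⋃ i, Z i)

/-- countable sums of nonempty compact pieces -/
def PropSCC : Prop := ∀ (Y : Type) [TopologicalSpace Y] (Z : ℕ → Set Y),
  (∀ i, IsOpen (Z i)) → (∀ i j, i ≠ j → Disjoint (Z i) (Z j)) →
  (∀ i, ∃ r, Lo (Z i) r) → (∀ i, IsCompact (Z i)) → (∀ i, (Z i).Nonempty) → St (⋃ i, Z i)

/-- arbitrary sums -/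
def PropSUM : Prop := ∀ (Y : Type) [TopologicalSpace Y] (ι : Type) (Z : ι → Set Y),
  Scat Y → (∀ i, IsOpen (Z i)) → (∀ i j, i ≠ j → Disjoint (Z i) (Z j)) →
  (∀ i, St (Z i)) → St (⋃ i, Z i)

/-- compact subsets of a GO-space -/
def PropGOC : Prop := ∀ (Y : Type) [TopologicalSpace Y] [LinearOrder Y], GO Y →
  ∀ K : Set Y, IsCompact K → Lo K (fun x y => x < y)

/-- clopen cuts -/
def PropCUT : Prop := ∀ (Y : Type) [TopologicalSpace Y] [LinearOrder Y], GO Y → Scat Y →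
  ∀ x y : Y, x < y → ∃ C : Set Y, IsOpen C ∧ IsOpen Cᶜ ∧ (∀ a ∈ C, ∀ b : Y, b ≤ a → b ∈ C) ∧
    x ∈ C ∧ y ∉ C

/-- the engine: an order on `E` extending a given order on a segment -/
def PropENG : Prop := ∀ (Y : Type) [TopologicalSpace Y] [LinearOrder Y], GO Y →
  ∀ E : Set Y, IsOpen E → Cvx E → (∀ x ∈ E, ∃ y ∈ E, x < y) → (∀ q ∈ E, RP q) →
  (∀ A A' : Set Y, Seg E A → Seg E A' → A' ≠ E → A ⊆ A' → St (A' \ A)) →
  (∀ A : Set Y, Seg E A → A ≠ E → ∃ A' : Set Y, Seg E A' ∧ A' ≠ E ∧ A ⊆ A' ∧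
    ¬ IsCompact (A' \ A)) →
  ∀ (A₀ : Set Y) (r₀ : Y → Y → Prop), Seg E A₀ → A₀ ≠ E → A₀.Nonempty → Lo A₀ r₀ →
  ∃ r : Y → Y → Prop, Lo E r ∧ Ext (A₀, r₀) (E, r) ∧
    ∀ x ∈ E, ∃ A : Set Y, Seg E A ∧ A ≠ E ∧ x ∈ A ∧ ∀ a ∈ A, ∀ b ∈ E, b ∉ A → r a b

/-- the engine for the reversed direction -/
def PropENGD : Prop := ∀ (Y : Type) [TopologicalSpace Y] [LinearOrder Y], GO Y →
  ∀ E : Set Y, IsOpen E → Cvx E → (∀ x ∈ E, ∃ y ∈ E, y < x) → (∀ q ∈ E, LP q) →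
  (∀ A A' : Set Y, FSeg E A → FSeg E A' → A' ≠ E → A ⊆ A' → St (A' \ A)) →
  (∀ A : Set Y, FSeg E A → A ≠ E → ∃ A' : Set Y, FSeg E A' ∧ A' ≠ E ∧ A ⊆ A' ∧
    ¬ IsCompact (A' \ A)) →
  ∀ (A₀ : Set Y) (r₀ : Y → Y → Prop), FSeg E A₀ → A₀ ≠ E → A₀.Nonempty → Lo A₀ r₀ →
  ∃ r : Y → Y → Prop, Lo E r ∧ Ext (A₀, r₀) (E, r) ∧
    ∀ x ∈ E, ∃ A : Set Y, FSeg E A ∧ A ≠ E ∧ x ∈ A ∧ ∀ a ∈ A, ∀ b ∈ E, b ∉ A → r a b

/-- adding the limit point `p` -/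
def PropKPL : Prop := ∀ (Y : Type) [TopologicalSpace Y] [LinearOrder Y], GO Y →
  ∀ (E : Set Y) (p : Y) (r : Y → Y → Prop), IsOpen E → (∀ x ∈ E, p < x) →
  (∀ O : Set Y, IsOpen O → p ∈ O → ∃ y ∈ O, y ∈ E) → Lo E r →
  (∀ x ∈ E, ∃ A : Set Y, FSeg E A ∧ A ≠ E ∧ x ∈ A ∧ ∀ a ∈ A, ∀ b ∈ E, b ∉ A → r a b) →
  Lo (E ∪ {p}) (cat E {p} r r)

/-- compactness of the right side of `p` -/
def PropKPC : Prop := ∀ (Y : Type) [TopologicalSpace Y] [LinearOrder Y], GO Y → Scat Y →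
  ∀ (C₀ E A : Set Y) (p : Y), IsOpen C₀ → IsOpen C₀ᶜ → (∀ a ∈ C₀, ∀ b : Y, b ≤ a → b ∈ C₀) →
  p ∈ C₀ → E = C₀ ∩ Ioi p → (∀ O : Set Y, IsOpen O → p ∈ O → ∃ y ∈ O, p < y) →
  FSeg E A → A ≠ E → (∀ A' : Set Y, FSeg E A' → A' ≠ E → A ⊆ A' → IsCompact (A' \ A)) →
  IsCompact ((E \ A) ∪ {p})

/-- the tail all of whose bounded pieces are compact -/
def PropTAIL : Prop := ∀ (Y : Type) [TopologicalSpace Y] [LinearOrder Y], GO Y → Scat Y →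
  ∀ E A : Set Y, IsOpen E → Cvx E → (∀ x ∈ E, ∃ y ∈ E, x < y) → Seg E A → A ≠ E →
  (∀ A' : Set Y, Seg E A' → A' ≠ E → A ⊆ A' → IsCompact (A' \ A)) → St (E \ A)

/-- a right half with locally good points -/
def PropHALF : Prop := ∀ (Y : Type) [TopologicalSpace Y] [LinearOrder Y], GO Y → Scat Y →
  ∀ (E : Set Y) (z : Y), IsOpen E → Cvx E → z ∈ E → IsOpen {z} → (∀ x ∈ E, z ≤ x) →
  (∀ y ∈ E, ∃ G : Set Y, Good G ∧ z ∈ G ∧ y ∈ G) → St E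

/-- union of two overlapping good sets -/
def PropGUN : Prop := ∀ (Y : Type) [TopologicalSpace Y] [LinearOrder Y], GO Y → Scat Y →
  ∀ G H : Set Y, Good G → Good H → (G ∩ H).Nonempty → Good (G ∪ H)

/-- from local to global -/
def PropLG : Prop := ∀ (Y : Type) [TopologicalSpace Y] [LinearOrder Y], GO Y → Scat Y →
  ∀ C : Set Y, IsOpen C → Cvx C → (∀ x ∈ C, ∃ G : Set Y, Good G ∧ x ∈ G) → St C

/-- the right side of a point -/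
def PropKP : Prop := ∀ (Y : Type) [TopologicalSpace Y] [LinearOrder Y], GO Y → Scat Y →
  ∀ (N : Set Y) (p : Y), IsOpen N → Cvx N → p ∈ N →
  (∀ C ⊆ N, IsOpen C → Cvx C → p ∉ C → St C) → (∀ q ∈ N, q ≠ p → RP q ∧ LP q) → RP p

/-- sets containing the point -/
def PropKC : Prop := ∀ (Y : Type) [TopologicalSpace Y] [LinearOrder Y], GO Y → Scat Y →
  ∀ (N : Set Y) (p : Y), IsOpen N → Cvx N → p ∈ N →
  (∀ C ⊆ N, IsOpen C → Cvx C → p ∉ C → St C) → RP p → LP p →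
  ∀ C ⊆ N, IsOpen C → Cvx C → p ∈ C → St C

/-- duality: everything holds for the reversed order of the GO-space -/
def PropDUAL : Prop := ∀ (Y : Type) [TopologicalSpace Y] (o : LinearOrder Y),
  ∃ o' : LinearOrder Y,
    (∀ a b : Y, (@LT.lt Y o'.toLT a b ↔ @LT.lt Y o.toLT b a)) ∧
    (∀ a b : Y, (@LE.le Y o'.toLE a b ↔ @LE.le Y o.toLE b a)) ∧
    (@GO Y _ o → @GO Y _ o') ∧
    (∀ E : Set Y, @Cvx Y o E ↔ @Cvx Y o' E) ∧
    (∀ q : Y, @RP Y _ o q ↔ @LP Y _ o' q) ∧ (∀ q : Y, @LP Y _ o q ↔ @RP Y _ o' q) ∧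
    (∀ G : Set Y, @Good Y _ o G ↔ @Good Y _ o' G)

/-- a right half with locally good points, reversed -/
def PropHALFD : Prop := ∀ (Y : Type) [TopologicalSpace Y] [LinearOrder Y], GO Y → Scat Y →
  ∀ (E : Set Y) (z : Y), IsOpen E → Cvx E → z ∈ E → IsOpen {z} → (∀ x ∈ E, x ≤ z) →
  (∀ y ∈ E, ∃ G : Set Y, Good G ∧ z ∈ G ∧ y ∈ G) → St E

/-- the left side of a point -/
def PropKPD : Prop := ∀ (Y : Type) [TopologicalSpace Y] [LinearOrder Y], GO Y → Scat Y →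
  ∀ (N : Set Y) (p : Y), IsOpen N → Cvx N → p ∈ N →
  (∀ C ⊆ N, IsOpen C → Cvx C → p ∉ C → St C) → (∀ q ∈ N, q ≠ p → RP q ∧ LP q) → LP p

/-- scattered GO-spaces are orderable -/
def PropFIN : Prop := ∀ (Y : Type) [TopologicalSpace Y] [LinearOrder Y], GO Y → Scat Y →
  ∃ r : Y → Y → Prop, Lo (univ : Set Y) r

/-- translation to Mathlib's order topology -/
def PropCONV : Prop := ∀ (Y : Type) [TopologicalSpace Y] (r : Y → Y → Prop),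
  Lo (univ : Set Y) r → ∃ o : LinearOrder Y,
    @OrderTopology Y _ (@PartialOrder.toPreorder Y (@LinearOrder.toPartialOrder Y o))

/-- subspaces of a scattered ordered space are scattered GO-spaces -/
def PropSUB : Prop := ∀ (X : Type) [TopologicalSpace X] [LinearOrder X] [OrderTopology X],
  (∀ A : Set X, A.Nonempty → ∃ x ∈ A, ∃ U : Set X, IsOpen U ∧ U ∩ A = {x}) →
  ∀ S : Set X, GO S ∧ Scat S

end Pool.Agent.W651.SO
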